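import Pool.Agent.Lib.Tate.X.Spec

set_option linter.unusedSectionVars false

open Topology unitInterval Filter Set
open scoped Topology.Homotopy

noncomputable section

namespace Pool.Agent.Tate.Ext

/-- The linear interpolation between `projIcc z` and `x`. -/
private def Bp_b (t : I) (z : ℝ) (x : I) : I :=
  Set.projIcc 0 1 zero_le_one ((1 - (t : ℝ)) * (Set.projIcc (0 : ℝ) 1 zero_le_one z : ℝ) +
    (t : ℝ) * (x : ℝ))

private theorem Bp_b_zero (z : ℝ) (x : I) : Bp_b 0 z x = Set.projIcc (0 : ℝ) 1 zero_le_one z := by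
  unfold Bp_b
  have h : (1 - ((0 : I) : ℝ)) * (Set.projIcc (0 : ℝ) 1 zero_le_one z : ℝ) +
      ((0 : I) : ℝ) * (x : ℝ) = (Set.projIcc (0 : ℝ) 1 zero_le_one z : ℝ) := by
    simp
  rw [h]
  exact Set.projIcc_val zero_le_one _

private theorem Bp_b_one (z : ℝ) (x : I) : Bp_b 1 z x = x := by
  unfold Bp_b
  have h : (1 - ((1 : I) : ℝ)) * (Set.projIcc (0 : ℝ) 1 zero_le_one z : ℝ) +
      ((1 : I) : ℝ) * (x : ℝ) = (x : ℝ) := by
    simp
  rw [h]
  exact Set.projIcc_val zero_le_one _

private theorem Bp_b_same (t : I) (z : ℝ) (x : I)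
    (h : (Set.projIcc (0 : ℝ) 1 zero_le_one z : I) = x) : Bp_b t z x = x := by
  unfold Bp_b
  rw [h]
  have h2 : (1 - (t : ℝ)) * (x : ℝ) + (t : ℝ) * (x : ℝ) = (x : ℝ) := by ring
  rw [h2]
  exact Set.projIcc_val zero_le_one _

private theorem Bp_add_eq {Y J : Type} [Fintype J] {c d c' d' : Conf Y J}
    (h : ∀ y y', c.P y * d.P y' = 0) (h' : ∀ y y', c'.P y * d'.P y' = 0) (e : c = c')
    (e' : d = d') : Conf.add c d h = Conf.add c' d' h' := by
  subst e
  subst e'
  rfl

private theorem Bp_add_right {Y J : Type} [Fintype J] {c d : Conf Y J}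
    (h : ∀ y y', c.P y * d.P y' = 0) (e : d = default) : Conf.add c d h = c := by
  subst e
  exact Conf.add_default c h

private theorem Bp_add_left {Y J : Type} [Fintype J] {c d : Conf Y J}
    (h : ∀ y y', c.P y * d.P y' = 0) (e : c = default) : Conf.add c d h = d := by
  subst e
  exact Conf.default_add d h

theorem pBp : S_Bp := by
  intro N Y J _ _ _ i F G hF hG hFG
  -- the two arguments
  have hcb : ∀ f : (N → I) → ℝ, Continuous f →
      Continuous fun p : I × (N → I) => Function.update p.2 i (Bp_b p.1 (f p.2) (p.2 i)) := by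
    intro f hf
    refine Continuous.update continuous_snd i ?_
    unfold Bp_b
    refine continuous_projIcc.comp ?_
    refine Continuous.add ?_ ?_
    · refine Continuous.mul ?_ ?_
      · exact continuous_const.sub (continuous_subtype_val.comp continuous_fst)
      · exact continuous_subtype_val.comp (continuous_projIcc.comp (hf.comp continuous_snd))
    · exact (continuous_subtype_val.comp continuous_fst).mul
        (continuous_subtype_val.comp ((continuous_apply i).comp continuous_snd))
  have hf0 : Continuous fun s : N → I => (2 * (s i : ℝ)) :=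
    continuous_const.mul (continuous_subtype_val.comp (continuous_apply i))
  have hf1 : Continuous fun s : N → I => (2 * (s i : ℝ) - 1) := hf0.sub continuous_const
  have hne : ∀ (s : N → I) (u v : I) (j : N), j ≠ i → Function.update s i u j =
      Function.update s i v j := fun s u v j hj => by
    rw [Function.update_of_ne hj, Function.update_of_ne hj]
  have hne' : ∀ (s : N → I) (u : I) (j : N), j ≠ i → Function.update s i u j = s j :=
    fun s u j hj => by rw [Function.update_of_ne hj]
  -- boundary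
  have hbd : ∀ (t : I) (f : ℝ → ℝ), (∀ x : I, x = 0 ∨ x = 1 →
      (Set.projIcc (0 : ℝ) 1 zero_le_one (f x) : I) = x) → ∀ s ∈ Cube.boundary N,
      Function.update s i (Bp_b t (f (s i)) (s i)) ∈ Cube.boundary N := by
    rintro t f hf s ⟨j, hj⟩
    by_cases hji : j = i
    · subst hji
      rw [Bp_b_same t _ _ (hf (s j) hj), Function.update_eq_self]
      exact ⟨j, hj⟩
    · refine ⟨j, ?_⟩
      rw [Function.update_of_ne hji]
      exact hj
  have hp0 : ∀ x : I, x = 0 ∨ x = 1 →
      (Set.projIcc (0 : ℝ) 1 zero_le_one (2 * (x : ℝ)) : I) = x := by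
    rintro x (rfl | rfl)
    · rw [Set.projIcc_of_le_left zero_le_one (by simp)]
      rfl
    · rw [Set.projIcc_of_right_le zero_le_one (by simp)]
      rfl
  have hp1 : ∀ x : I, x = 0 ∨ x = 1 →
      (Set.projIcc (0 : ℝ) 1 zero_le_one (2 * (x : ℝ) - 1) : I) = x := by
    rintro x (rfl | rfl)
    · rw [Set.projIcc_of_le_left zero_le_one (by simp)]
      rfl
    · rw [Set.projIcc_of_right_le zero_le_one (by norm_num)]
      rfl
  refine ⟨⟨fun p => Conf.add (F (Function.update p.2 i (Bp_b p.1 (2 * (p.2 i : ℝ)) (p.2 i))))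
    (G (Function.update p.2 i (Bp_b p.1 (2 * (p.2 i : ℝ) - 1) (p.2 i))))
    (hFG _ _ (hne _ _ _)), ?_⟩, ?_, ?_, ?_, ?_⟩
  · exact Conf.continuous_add (F.continuous.comp (hcb _ hf0)) (G.continuous.comp (hcb _ hf1)) _
  · intro s
    show Conf.add (F (Function.update s i (Bp_b 0 (2 * (s i : ℝ)) (s i))))
      (G (Function.update s i (Bp_b 0 (2 * (s i : ℝ) - 1) (s i)))) (hFG _ _ (hne _ _ _)) = _
    split_ifs with hs
    · rw [Bp_add_right]
      · rw [Bp_b_zero]
      · refine hG _ ⟨i, Or.inl ?_⟩
        rw [Function.update_self, Bp_b_zero,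
          Set.projIcc_of_le_left zero_le_one (by linarith)]
        rfl
    · rw [Bp_add_left]
      · rw [Bp_b_zero]
      · refine hF _ ⟨i, Or.inr ?_⟩
        rw [Function.update_self, Bp_b_zero,
          Set.projIcc_of_right_le zero_le_one (by push Not at hs; linarith)]
        rfl
  · intro s
    show Conf.add (F (Function.update s i (Bp_b 1 (2 * (s i : ℝ)) (s i))))
      (G (Function.update s i (Bp_b 1 (2 * (s i : ℝ) - 1) (s i)))) (hFG _ _ (hne _ _ _)) = _
    apply Bp_add_eq
    · rw [Bp_b_one, Function.update_eq_self]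
    · rw [Bp_b_one, Function.update_eq_self]
  · intro t s hs
    show Conf.add (F (Function.update s i (Bp_b t (2 * (s i : ℝ)) (s i))))
      (G (Function.update s i (Bp_b t (2 * (s i : ℝ) - 1) (s i)))) (hFG _ _ (hne _ _ _)) = _
    rw [Bp_add_right]
    · exact hF _ (hbd t (fun x => 2 * x) hp0 s hs)
    · exact hG _ (hbd t (fun x => 2 * x - 1) hp1 s hs)
  · intro t s
    exact ⟨_, _, hne' s _, hne' s _, hFG _ _ (hne _ _ _), rfl⟩

end Pool.Agent.Tate.Ext
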