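import Pool.Agent.Lib.Tate.X.Spec

/-!
# C42, block X: the basis labels (`S_Ba`)
-/

set_option autoImplicit false

open Topology unitInterval Filter Set
open scoped Topology.Homotopy ZeroAtInfty OnePoint

noncomputable section

namespace Pool.Agent.Tate.Ext

private theorem Ba_inr (A : Type) [Fintype A] [DecidableEq A] (M j : ℕ) (x : Fin M) :
    aj A M j (Sum.inr x) = if x.val = 0 then 1 else if x.val = j + 1 then 3 else 0 := rfl

theorem pBa : S_Ba := by
  intro A _ _ M
  refine ⟨fun j hj => ?_, fun j => ?_, fun j j' hj hj' h => ?_, fun j hM h => ?_⟩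
  · unfold chi
    rw [Fintype.prod_sum_type]
    have e1 : ∏ x : A × Bool, Complex.I ^ (aj A M j (Sum.inl x)).val = 1 := by
      refine Finset.prod_eq_one fun x _ => ?_
      show Complex.I ^ ((0 : ZMod 4)).val = 1
      simp
    rw [e1, one_mul]
    have h0 : 0 < M := by omega
    rw [← Finset.mul_prod_erase Finset.univ (fun x : Fin M =>
      Complex.I ^ (aj A M j (Sum.inr x)).val) (Finset.mem_univ (⟨0, h0⟩ : Fin M)),
      ← Finset.mul_prod_erase (Finset.univ.erase (⟨0, h0⟩ : Fin M)) (fun x : Fin M =>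
      Complex.I ^ (aj A M j (Sum.inr x)).val) (Finset.mem_erase.2
        ⟨by intro h; exact absurd (congrArg Fin.val h) (by simp),
          Finset.mem_univ (⟨j + 1, hj⟩ : Fin M)⟩)]
    have e2 : ∏ x ∈ (Finset.univ.erase (⟨0, h0⟩ : Fin M)).erase ⟨j + 1, hj⟩,
        Complex.I ^ (aj A M j (Sum.inr x)).val = 1 := by
      refine Finset.prod_eq_one fun x hx => ?_
      rw [Finset.mem_erase, Finset.mem_erase] at hx
      have hx0 : x.val ≠ 0 := fun h => hx.2.1 (Fin.ext h)
      have hx1 : x.val ≠ j + 1 := fun h => hx.1 (Fin.ext h)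
      rw [Ba_inr, if_neg hx0, if_neg hx1]
      simp
    rw [e2, mul_one, Ba_inr, Ba_inr, if_pos rfl, if_neg (Nat.succ_ne_zero j), if_pos rfl]
    have e3 : ((1 : ZMod 4)).val = 1 := rfl
    have e4 : ((3 : ZMod 4)).val = 3 := rfl
    rw [e3, e4, ← pow_add]
    exact Complex.I_pow_four
  · funext x
    rcases x with x | x
    · rfl
    · rfl
  · have h1 := congrFun h (Sum.inr (⟨j + 1, hj⟩ : Fin M))
    rw [Ba_inr, Ba_inr, if_neg (Nat.succ_ne_zero j), if_pos rfl, if_neg (Nat.succ_ne_zero j)] at h1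
    by_contra hne
    rw [if_neg (by
      show ¬ (j + 1 = j' + 1)
      omega)] at h1
    exact absurd h1 (by decide)
  · have h1 := congrFun h (Sum.inr (⟨0, hM⟩ : Fin M))
    rw [Ba_inr, if_pos rfl] at h1
    exact absurd h1 (by decide)

end Pool.Agent.Tate.Ext
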