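import Pool.Agent.Lib.Tate.X.Spec

/-!
# C42 (MP_071d69_gt), X/Bs: the class of the sum of two orthogonal labels (helper77)
-/

set_option linter.unusedSectionVars false

open Topology unitInterval Filter Set
open scoped Topology.Homotopy

noncomputable section

namespace Pool.Agent.Tate.Ext

section

variable {A : Type} [Fintype A] [DecidableEq A] {M : ℕ}

/-- outside of the boundary there is one point -/
theorem Bs_self {p : Mt (JJ A M) (ZMod 4)} (hp : Lbl A M p) {s : QQ A M → I}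
    (hs : s ∉ Cube.boundary (QQ A M)) :
    (LLf hp s).1.1.P (emb A M fun q => rho (s q)) = p := by
  unfold LLf
  rw [if_neg hs]
  exact Conf.single_self _ _ hp.herm hp.idem

theorem Bs_ne {p : Mt (JJ A M) (ZMod 4)} (hp : Lbl A M p) {s : QQ A M → I}
    {y : JJ A M → VV} (hy : y ≠ emb A M fun q => rho (s q)) :
    (LLf hp s).1.1.P y = 0 := by
  unfold LLf
  split_ifs
  · rfl
  · exact Conf.single_ne _ hp.herm hp.idem hy

/-- the labels -/
theorem Bs_lab {p : Mt (JJ A M) (ZMod 4)} (hp : Lbl A M p) (s : QQ A M → I)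
    (y : JJ A M → VV) : (LLf hp s).1.1.P y = 0 ∨ (LLf hp s).1.1.P y = p := by
  by_cases hs : s ∈ Cube.boundary (QQ A M)
  · left
    unfold LLf
    rw [if_pos hs]
    rfl
  · by_cases hy : y = emb A M fun q => rho (s q)
    · right
      rw [hy]
      exact Bs_self hp hs
    · exact Or.inl (Bs_ne hp hy)

theorem Bs_inv (c d : FZ A M) (h : ∀ y y', c.1.1.P y * d.1.1.P y' = 0) :
    CW.Inv (Conf.add c.1.1 d.1.1 h) := by
  intro y a b
  rw [Conf.add_P, Conf.add_P, Matrix.add_apply, Matrix.add_apply, c.1.2 y a b, d.1.2 y a b]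
  ring

theorem Bs_tau (c d : FZ A M) (h : ∀ y y', c.1.1.P y * d.1.1.P y' = 0) :
    Conf.re (tau A M) (Conf.add c.1.1 d.1.1 h) = Conf.add c.1.1 d.1.1 h := by
  refine Conf.ext (funext fun y => ?_)
  have h1 : (Conf.re (tau A M) c.1.1).P y = c.1.1.P y :=
    congrArg (fun e : WX (JJ A M) => e.1.P y) c.2
  have h2 : (Conf.re (tau A M) d.1.1).P y = d.1.1.P y :=
    congrArg (fun e : WX (JJ A M) => e.1.P y) d.2
  rw [Conf.add_P, ← h1, ← h2]
  rfl

end

theorem pBs (hBp : S_Bp) : S_Bs := by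
  intro A _ _ _ M p q h1 h2 h3 hpq L1 L2 L3 hL1 hL2 hL3
  have hqp : q * p = 0 := by
    have h := congrArg Matrix.conjTranspose hpq
    rw [Matrix.conjTranspose_mul, h1.herm.eq, h2.herm.eq, Matrix.conjTranspose_zero] at h
    exact h
  have c1 : Continuous fun s : QQ A M → I => (L1 s).1.1 :=
    continuous_subtype_val.comp (continuous_subtype_val.comp L1.1.continuous)
  have c2 : Continuous fun s : QQ A M → I => (L2 s).1.1 :=
    continuous_subtype_val.comp (continuous_subtype_val.comp L2.1.continuous)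
  have b1 : ∀ s ∈ Cube.boundary (QQ A M), (L1 s).1.1 = default := by
    intro s hs
    have h : L1 s = FZpt A M := L1.2 s hs
    rw [h]
    rfl
  have b2 : ∀ s ∈ Cube.boundary (QQ A M), (L2 s).1.1 = default := by
    intro s hs
    have h : L2 s = FZpt A M := L2.2 s hs
    rw [h]
    rfl
  have b3 : ∀ (L : GenLoop (QQ A M) (FZ A M) (FZpt A M)), ∀ s ∈ Cube.boundary (QQ A M),
      (L s).1.1 = default := by
    intro L s hs
    have h : L s = FZpt A M := L.2 s hs
    rw [h]
    rfl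
  have horth : ∀ s s' : QQ A M → I, ∀ y y', (L2 s).1.1.P y * (L1 s').1.1.P y' = 0 := by
    intro s s' y y'
    rw [hL1, hL2]
    rcases Bs_lab h2 s y with e2 | e2
    · rw [e2, zero_mul]
    · rcases Bs_lab h1 s' y' with e1 | e1
      · rw [e1, mul_zero]
      · rw [e1, e2, hqp]
  let i : QQ A M := Sum.inl (Classical.arbitrary A)
  obtain ⟨H, H0, H1, Hb, Hv⟩ := hBp (QQ A M) (JJ A M → VV) (JJ A M → ZMod 4) i
    ⟨fun s => (L2 s).1.1, c2⟩ ⟨fun s => (L1 s).1.1, c1⟩ b2 b1 (fun s s' _ => horth s s')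
  have hinv : ∀ z, CW.Inv (H z : CW (JJ A M)) := by
    rintro ⟨t, s⟩
    obtain ⟨s₁, s₂, _, _, h, e⟩ := Hv t s
    rw [e]
    exact Bs_inv (L2 s₁) (L1 s₂) h
  have htau : ∀ z, Conf.re (tau A M) (H z) = H z := by
    rintro ⟨t, s⟩
    obtain ⟨s₁, s₂, _, _, h, e⟩ := Hv t s
    rw [e]
    exact Bs_tau (L2 s₁) (L1 s₂) h
  let K : C(I × (QQ A M → I), FZ A M) :=
    ⟨fun z => ⟨⟨H z, hinv z⟩, Subtype.ext (htau z)⟩,
      (H.continuous.subtype_mk _).subtype_mk _⟩
  have hK : ∀ z, (K z).1.1 = H z := fun z => rfl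
  have hhom : GenLoop.Homotopic (GenLoop.transAt i L2 L1) L3 := by
    refine ⟨⟨⟨K, ?_, ?_⟩, ?_⟩⟩
    · intro s
      apply Subtype.ext
      apply Subtype.ext
      refine (H0 s).trans ?_
      show _ = (GenLoop.transAt i L2 L1 s).1.1
      rw [transAt_apply]
      split_ifs <;> rfl
    · intro s
      apply Subtype.ext
      apply Subtype.ext
      refine (H1 s).trans ?_
      show Conf.add (L2 s).1.1 (L1 s).1.1 _ = (L3 s).1.1
      refine Conf.ext (funext fun y => ?_)
      rw [Conf.add_P]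
      by_cases hs : s ∈ Cube.boundary (QQ A M)
      · rw [b1 s hs, b2 s hs, b3 L3 s hs]
        exact add_zero _
      · rw [hL1, hL2, hL3]
        by_cases hy : y = emb A M fun q => rho (s q)
        · rw [hy, Bs_self h1 hs, Bs_self h2 hs, Bs_self h3 hs, add_comm]
        · rw [Bs_ne h1 hy, Bs_ne h2 hy, Bs_ne h3 hy, add_zero]
    · intro t s hs
      apply Subtype.ext
      apply Subtype.ext
      exact (Hb t s hs).trans (b3 (GenLoop.transAt i L2 L1) s hs).symm
  rw [← gcl_transAt i L1 L2]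
  exact (gcl_eq.2 hhom).symm

end Pool.Agent.Tate.Ext
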