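import Pool.Agent.Lib.Tate.X.Spec

/-!
# C42 (MP_071d69_gt), X/Cu: the null homotopy with labels, on cubes (helper39)
-/

set_option autoImplicit false
set_option linter.unusedSectionVars false

open Topology unitInterval Filter Set
open scoped Topology.Homotopy ZeroAtInfty OnePoint

noncomputable section

namespace Pool.Agent.Tate.Ext

theorem Cu_bdry {A : Type} {M : ℕ} (s : QQ A M → I) :
    s ∘ prj A M ∈ Cube.boundary (JJ A M) ↔ s ∈ Cube.boundary (QQ A M) := by
  constructor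
  · rintro ⟨j, hj⟩
    exact ⟨prj A M j, hj⟩
  · rintro ⟨q, hq⟩
    rcases q with q | q
    · exact ⟨Sum.inl (q, false), hq⟩
    · exact ⟨Sum.inr q, hq⟩

theorem Cu_unit {A : Type} [Fintype A] [DecidableEq A] {M : ℕ}
    (h1 : Lbl A M (mone (JJ A M) (0 : ZMod 4))) (s : QQ A M → I) :
    (LLf h1 s).1 = Wunit' (s ∘ prj A M) := by
  by_cases hs : s ∈ Cube.boundary (QQ A M)
  · rw [Wunit_bdry ((Cu_bdry s).2 hs)]
    unfold LLf
    rw [if_pos hs]
    rfl
  · have hs' : s ∘ prj A M ∉ Cube.boundary (JJ A M) := fun h => hs ((Cu_bdry s).1 h)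
    have e1 : LLf h1 s = sgl h1 fun q => rho (s q) := if_neg hs
    have e2 : Wunit' (s ∘ prj A M) = (sgl h1 fun q => rho (s q)).1 := if_neg hs'
    rw [e1, e2]

theorem Cu_proj {c : ℝ} {x : I} (h : c = (x : ℝ)) : Set.projIcc 0 1 zero_le_one c = x := by
  subst h
  exact Set.projIcc_val zero_le_one x

theorem pCu (h1 : S_Tn) (h2 : S_Tm) (h3 : S_LL) (h4 : S_Pj) (h5 : S_Lk) : S_Cu := by
  intro hRe hMu hUn hT2 hTate
  obtain ⟨k, n, hk, hhom⟩ := h1 (W' hRe hMu hUn hT2) hTate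
  refine ⟨k, n, hk, fun d => ?_⟩
  have hE : ∀ (A : Type) [Fintype A] [DecidableEq A],
      T2Space ((W' hRe hMu hUn hT2).X A) := by
    intro A _ _
    have := hT2 (A → VV) (A → ZMod 4)
    exact inferInstanceAs (T2Space {c : CW A // c.Inv})
  obtain ⟨M₀, hM₀⟩ := h2 (W' hRe hMu hUn hT2) hE (AA n) (i₀ n) k hhom d
  refine ⟨max M₀ (k + 1), fun M hM => ?_⟩
  have hM1 : M₀ ≤ M := le_trans (le_max_left _ _) hM
  have hM2 : k < M := le_trans (le_max_right _ _) hM
  obtain ⟨H, hHc, hH0, hH1, hHb, hHe⟩ := hM₀ M hM1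
  obtain ⟨hPk, -, -, -, -, h1L⟩ := h4 (AA n) M
  have hkL := hPk k hM2
  refine ⟨hM2, hkL, ?_⟩
  let L1 : GenLoop (QQ (AA n) M) (FZ (AA n) M) (FZpt (AA n) M) :=
    ⟨⟨LLf h1L, h3 _ M _ h1L⟩, fun s hs => if_pos hs⟩
  let Lk : GenLoop (QQ (AA n) M) (FZ (AA n) M) (FZpt (AA n) M) :=
    ⟨⟨LLf hkL, h3 _ M _ hkL⟩, fun s hs => if_pos hs⟩
  have hgcl := h5 (AA n) M k hM2 h1L hkL L1 Lk (fun _ => rfl) (fun _ => rfl)
  have hom : GenLoop.Homotopic Lk (pw (Sum.inl (i₀ n)) L1 k) :=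
    gcl_eq.1 (by rw [hgcl, gcl_pw])
  obtain ⟨H₂⟩ := hom
  have key : ∀ a s, (pw (Sum.inl (i₀ n)) L1 k s).1 = H (0, a, s) := by
    intro a s
    rw [hH0, pw_apply]
    cases sel (Sum.inl (i₀ n) : QQ (AA n) M) k s with
    | none => rfl
    | some s' => exact Cu_unit h1L s'
  have hp2 : Continuous fun t : I => (Set.projIcc 0 1 zero_le_one (2 * (t : ℝ)) : I) :=
    continuous_projIcc.comp (continuous_const.mul continuous_subtype_val)
  have hp3 : Continuous fun t : I => (Set.projIcc 0 1 zero_le_one (2 * (t : ℝ) - 1) : I) :=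
    continuous_projIcc.comp ((continuous_const.mul continuous_subtype_val).sub continuous_const)
  refine ⟨fun x => if (x.1 : ℝ) ≤ 1 / 2
    then (H₂ (Set.projIcc 0 1 zero_le_one (2 * (x.1 : ℝ)), x.2.2)).1
    else H (Set.projIcc 0 1 zero_le_one (2 * (x.1 : ℝ) - 1), x.2.1, x.2.2), ?_, ?_, ?_, ?_, ?_⟩
  · refine Continuous.if_le ?_ ?_ (continuous_subtype_val.comp continuous_fst)
      continuous_const ?_
    · exact continuous_subtype_val.comp (H₂.continuous.comp
        ((hp2.comp continuous_fst).prodMk (continuous_snd.comp continuous_snd)))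
    · exact hHc.comp ((hp3.comp continuous_fst).prodMk
        ((continuous_fst.comp continuous_snd).prodMk (continuous_snd.comp continuous_snd)))
    · rintro ⟨t, a, s⟩ ht
      have ht' : (t : ℝ) = 1 / 2 := ht
      have e1 : (Set.projIcc 0 1 zero_le_one (2 * (t : ℝ)) : I) = 1 :=
        Cu_proj (by rw [ht']; norm_num)
      have e2 : (Set.projIcc 0 1 zero_le_one (2 * (t : ℝ) - 1) : I) = 0 :=
        Cu_proj (by rw [ht']; norm_num)
      show (H₂ (Set.projIcc 0 1 zero_le_one (2 * (t : ℝ)), s)).1 =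
        H (Set.projIcc 0 1 zero_le_one (2 * (t : ℝ) - 1), a, s)
      rw [e1, e2, H₂.apply_one]
      exact key a s
  · intro a s
    have e1 : (Set.projIcc 0 1 zero_le_one (2 * ((0 : I) : ℝ)) : I) = 0 :=
      Cu_proj (by norm_num)
    have h0 : ((0 : I) : ℝ) ≤ 1 / 2 := by norm_num
    refine (if_pos h0).trans ?_
    show (H₂ (Set.projIcc 0 1 zero_le_one (2 * ((0 : I) : ℝ)), s)).1 = _
    rw [e1, H₂.apply_zero]
    rfl
  · intro a s
    have e1 : (Set.projIcc 0 1 zero_le_one (2 * ((1 : I) : ℝ) - 1) : I) = 1 :=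
      Cu_proj (by norm_num)
    have h0 : ¬ ((1 : I) : ℝ) ≤ 1 / 2 := by norm_num
    refine (if_neg h0).trans ?_
    show H (Set.projIcc 0 1 zero_le_one (2 * ((1 : I) : ℝ) - 1), a, s) = _
    rw [e1]
    exact hH1 a s
  · intro t a s hs
    by_cases h0 : (t : ℝ) ≤ 1 / 2
    · refine (if_pos h0).trans ?_
      show (H₂ (Set.projIcc 0 1 zero_le_one (2 * (t : ℝ)), s)).1 = _
      rw [H₂.eq_fst _ hs]
      have : Lk s = FZpt (AA n) M := if_pos hs
      show (Lk s).1 = _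
      rw [this]
      rfl
    · exact (if_neg h0).trans (hHb _ a s hs)
  · intro t a s
    by_cases h0 : (t : ℝ) ≤ 1 / 2
    · refine (if_pos h0).trans (Eq.trans ?_ (congrArg _ (if_pos h0).symm))
      exact (H₂ (Set.projIcc 0 1 zero_le_one (2 * (t : ℝ)), s)).2.symm
    · refine (if_neg h0).trans (Eq.trans ?_ (congrArg _ (if_neg h0).symm))
      exact hHe _ a s

end Pool.Agent.Tate.Ext
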