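import Pool.Agent.Lib.Tate.X.Spec

/-!
# C42 (MP_071d69_gt), X/Iv: invariant configurations are fixed by fourth roots of unity (helper77)
-/

set_option linter.unusedSectionVars false

open Topology unitInterval Filter Set

noncomputable section

namespace Pool.Agent.Tate.Ext

theorem Iv_key {A : Type} [Fintype A] [DecidableEq A] (c : WX A) (e : Circle)
    (he : (e : ℂ) = Complex.I) : rotz e c.1 = c.1 := by
  refine Conf.ext (funext fun y => ?_)
  ext a b
  have h1 : ∀ a : A → ZMod 4, chiz e a = chi a := by
    intro a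
    unfold chiz chi
    rw [he]
  have h2 : rot ((rh A e).symm y) = y := by
    funext x
    show ((y x).1, Complex.I * (((e⁻¹ : Circle) : ℂ) * (y x).2)) = y x
    rw [← he, ← mul_assoc, ← Circle.coe_mul, mul_inv_cancel, Circle.coe_one, one_mul]
  rw [rotz_P, h1, h1, ← c.2, h2]

theorem pIv : S_Iv := by
  intro A _ _ c ζ hζ
  let e : Circle := Circle.exp (Real.pi / 2)
  have he : (e : ℂ) = Complex.I := by
    show ((Circle.exp (Real.pi / 2) : Circle) : ℂ) = Complex.I
    rw [Circle.coe_exp]
    push_cast
    exact Complex.exp_pi_div_two_mul_I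
  have h0 := Iv_key c e he
  have h4 : (ζ : ℂ) ^ 4 = 1 := by
    rw [← Circle.coe_pow, hζ, Circle.coe_one]
  have h5 : ((ζ : ℂ) - 1) * ((ζ : ℂ) + 1) * (((ζ : ℂ) - Complex.I) * ((ζ : ℂ) + Complex.I)) = 0 := by
    linear_combination h4 + (1 - (ζ : ℂ) ^ 2) * Complex.I_sq
  rcases mul_eq_zero.1 h5 with h6 | h6
  · rcases mul_eq_zero.1 h6 with h7 | h7
    · have h8 : ζ = 1 := by
        apply Circle.ext
        rw [Circle.coe_one]
        linear_combination h7
      rw [h8, rotz_one]
    · have h8 : ζ = e * e := by
        apply Circle.ext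
        rw [Circle.coe_mul, he]
        linear_combination h7 - Complex.I_sq
      rw [h8, rotz_mul, h0, h0]
  · rcases mul_eq_zero.1 h6 with h7 | h7
    · have h8 : ζ = e := by
        apply Circle.ext
        rw [he]
        linear_combination h7
      rw [h8, h0]
    · have h8 : ζ = e * (e * e) := by
        apply Circle.ext
        rw [Circle.coe_mul, Circle.coe_mul, he]
        linear_combination h7 - Complex.I * Complex.I_sq
      rw [h8, rotz_mul, rotz_mul, h0, h0, h0]

end Pool.Agent.Tate.Ext
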