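import Pool.Agent.Lib.Tate.X.Spec

/-!
# C42 (MP_071d69_gt), X/Lk: the class of the label `Pk k` is the `k`-th power (helper77)
-/

set_option linter.unusedSectionVars false

open Topology unitInterval Filter Set
open scoped Topology.Homotopy

noncomputable section

namespace Pool.Agent.Tate.Ext

section

variable {A : Type} [Fintype A] [DecidableEq A] {M : ℕ}

/-- the loop with a given label -/
def Lk_loop {p : Mt (JJ A M) (ZMod 4)} (hp : Lbl A M p) (hc : Continuous (LLf hp)) :
    GenLoop (QQ A M) (FZ A M) (FZpt A M) :=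
  ⟨⟨LLf hp, hc⟩, fun s hs => by
    show LLf hp s = _
    unfold LLf
    rw [if_pos hs]⟩

theorem Lk_congr {p q : Mt (JJ A M) (ZMod 4)} (hp : Lbl A M p) (hq : Lbl A M q) (h : p = q)
    (s : QQ A M → I) : LLf hp s = LLf hq s := by
  subst h
  rfl

theorem Lk_zero {p : Mt (JJ A M) (ZMod 4)} (hp : Lbl A M p) (h : p = 0) (s : QQ A M → I) :
    LLf hp s = FZpt A M := by
  unfold LLf
  split_ifs with h1
  · rfl
  · apply Subtype.ext
    apply Subtype.ext
    refine Conf.ext (funext fun y => ?_)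
    show (Conf.single (emb A M _) p hp.herm hp.idem).P y = 0
    by_cases hy : y = emb A M fun q => rho (s q)
    · rw [hy, Conf.single_self]
      exact h
    · rw [Conf.single_ne _ _ _ hy]

end

theorem pLk (h1 : S_LL) (h2 : S_Pj) (h3 : S_Rv) (h4 : S_Bs) : S_Lk := by
  intro A _ _ _ M k
  obtain ⟨p1, p2, p3, p4, p5, p6⟩ := h2 A M
  induction k with
  | zero =>
    intro hkM hm hk L1 Lk hL1 hLk
    have h5 : Lk = GenLoop.const := by
      apply GenLoop.ext
      intro s
      rw [hLk s, Lk_zero hk p3]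
      rfl
    rw [h5, pow_zero]
    rfl
  | succ k ih =>
    intro hkM hm hk L1 Lk hL1 hLk
    have hkk : Lbl A M (Pk A M k) := p1 k (by omega)
    have he := p2 k hkM
    have e1 : gcl (Lk_loop hkk (h1 A M _ hkk)) = gcl L1 ^ k :=
      ih (by omega) hm hkk L1 _ hL1 fun s => rfl
    have e2 : gcl L1 = gcl (Lk_loop he (h1 A M _ he)) :=
      gcl_eq.2 (h3 A M k hkM hm he L1 _ hL1 fun s => rfl)
    have e4 : Lbl A M (Pk A M k + Matrix.single (aj A M k) (aj A M k) 1) := p4 k hkM ▸ hk
    have e3 := h4 A M (Pk A M k) (Matrix.single (aj A M k) (aj A M k) 1) hkk he e4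
      (p5 k hkM).1 (Lk_loop hkk (h1 A M _ hkk)) (Lk_loop he (h1 A M _ he)) Lk (fun s => rfl)
      (fun s => rfl) fun s => (hLk s).trans (Lk_congr hk e4 (p4 k hkM) s)
    rw [e3, e1, ← e2, pow_succ]

end Pool.Agent.Tate.Ext
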