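import Pool.Agent.Lib.Tate.X.Spec

/-!
# C42, block X: the labels `Pk` (helper66)
-/

set_option linter.unusedSectionVars false

open Topology unitInterval Filter Set
open scoped Topology.Homotopy ZeroAtInfty OnePoint

noncomputable section

namespace Pool.Agent.Tate.Ext

variable {A : Type} [Fintype A] [DecidableEq A]

/-- Diagonal matrices with entries `0`, `1` as labels. -/
theorem Pj_diag (M : ℕ) (v : (JJ A M → ZMod 4) → ℂ) (h01 : ∀ a, v a = 0 ∨ v a = 1)
    (hchi : ∀ a, v a ≠ 0 → chi a = 1) (htau : ∀ a, v (a ∘ tau A M) = v a) :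
    Lbl A M (Matrix.diagonal v) where
  herm := by
    unfold Matrix.IsHermitian
    rw [Matrix.diagonal_conjTranspose]
    congr 1
    funext a
    rw [Pi.star_apply]
    rcases h01 a with h | h <;> rw [h] <;> simp
  idem := by
    rw [Matrix.diagonal_mul_diagonal]
    congr 1
    funext a
    rcases h01 a with h | h <;> rw [h] <;> simp
  chi a b := by
    rw [Matrix.diagonal_apply]
    split_ifs with hab
    · subst hab
      by_cases h : v a = 0
      · rw [h, mul_zero]
      · rw [hchi a h]
        simp
    · rw [mul_zero]
  tau := by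
    ext a b
    show Matrix.diagonal v (a ∘ tau A M) (b ∘ tau A M) = Matrix.diagonal v a b
    rw [Matrix.diagonal_apply, Matrix.diagonal_apply, htau]
    have : (a ∘ tau A M = b ∘ tau A M) ↔ (a = b) :=
      (tau A M).surjective.injective_comp_right.eq_iff
    simp only [this]

theorem Pj_comp_tau (M : ℕ) (a b : JJ A M → ZMod 4) (h : b ∘ tau A M = b) :
    (a ∘ tau A M = b) ↔ (a = b) := by
  constructor
  · intro h1
    have h2 : a ∘ tau A M = b ∘ tau A M := by rw [h1, h]
    exact (tau A M).surjective.injective_comp_right h2
  · rintro rfl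
    exact h

theorem Pj_single {M : ℕ} (a : JJ A M → ZMod 4) :
    (Matrix.single a a 1 : Mt (JJ A M) (ZMod 4)) = Matrix.diagonal fun b => if b = a then 1 else 0 := by
  ext b c
  rw [Matrix.single_apply, Matrix.diagonal_apply]
  by_cases h : b = c
  · subst h
    by_cases h2 : b = a
    · subst h2
      simp
    · have : ¬ a = b := fun h => h2 h.symm
      simp [h2, this]
  · rw [if_neg h, if_neg]
    rintro ⟨rfl, rfl⟩
    exact h rfl

theorem pPj (h1 : S_Ba) : S_Pj := by
  classical
  intro A _ _ M
  obtain ⟨hchi, htau, hinj, h0⟩ := h1 A M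
  have hPk : ∀ k, Pk A M k = Matrix.diagonal fun a => if ∃ j < k, a = aj A M j then 1 else 0 := by
    intro k
    unfold Pk
    congr 1
  refine ⟨fun k hk => ?_, fun k hk => ?_, ?_, fun k hk => ?_, fun k hk => ?_, ?_⟩
  · rw [hPk]
    refine Pj_diag M _ (fun a => ?_) (fun a ha => ?_) (fun a => ?_)
    · split_ifs
      · exact Or.inr rfl
      · exact Or.inl rfl
    · have h : ∃ j < k, a = aj A M j := by
        by_contra hn
        exact ha (if_neg hn)
      obtain ⟨j, hj, rfl⟩ := h
      exact hchi j (by omega)
    · have : (∃ j < k, a ∘ tau A M = aj A M j) ↔ (∃ j < k, a = aj A M j) := by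
        constructor
        · rintro ⟨j, hj, h⟩
          exact ⟨j, hj, (Pj_comp_tau M a _ (htau j)).1 h⟩
        · rintro ⟨j, hj, h⟩
          exact ⟨j, hj, (Pj_comp_tau M a _ (htau j)).2 h⟩
      simp only [this]
  · rw [Pj_single]
    refine Pj_diag M _ (fun a => ?_) (fun a ha => ?_) (fun a => ?_)
    · split_ifs
      · exact Or.inr rfl
      · exact Or.inl rfl
    · have h : a = aj A M k := by
        by_contra hn
        exact ha (if_neg hn)
      rw [h]
      exact hchi k hk
    · simp only [Pj_comp_tau M a _ (htau k)]
  · rw [hPk]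
    ext a b
    simp
  · rw [hPk, hPk, Pj_single, Matrix.diagonal_add]
    congr 1
    funext a
    by_cases hak : a = aj A M k
    · have hn : ¬ ∃ j < k, a = aj A M j := by
        rintro ⟨j, hj, h⟩
        have := hinj j k (by omega) hk (h.symm.trans hak)
        omega
      have hy : ∃ j < k + 1, a = aj A M j := ⟨k, by omega, hak⟩
      rw [if_pos hy, if_neg hn, if_pos hak, zero_add]
    · by_cases hn : ∃ j < k, a = aj A M j
      · obtain ⟨j, hj, h⟩ := hn
        have hy : ∃ j < k + 1, a = aj A M j := ⟨j, by omega, h⟩
        have hn : ∃ j < k, a = aj A M j := ⟨j, hj, h⟩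
        rw [if_pos hy, if_pos hn, if_neg hak, add_zero]
      · have hy : ¬ ∃ j < k + 1, a = aj A M j := by
          rintro ⟨j, hj, h⟩
          rcases Nat.lt_succ_iff_lt_or_eq.1 hj with h2 | h2
          · exact hn ⟨j, h2, h⟩
          · rw [h2] at h
            exact hak h
        rw [if_neg hy, if_neg hn, if_neg hak, add_zero]
  · have key : (Matrix.diagonal fun a => if ∃ j < k, a = aj A M j then (1 : ℂ) else 0) *
        (Matrix.diagonal fun b => if b = aj A M k then (1 : ℂ) else 0) = 0 := by
      rw [Matrix.diagonal_mul_diagonal, ← Matrix.diagonal_zero]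
      congr 1
      funext a
      by_cases hak : a = aj A M k
      · have hn : ¬ ∃ j < k, a = aj A M j := by
          rintro ⟨j, hj, h⟩
          have := hinj j k (by omega) hk (h.symm.trans hak)
          omega
        rw [if_neg hn, zero_mul]
      · rw [if_neg hak, mul_zero]
    constructor
    · rw [hPk, Pj_single]
      exact key
    · rw [hPk, Pj_single, Matrix.diagonal_mul_diagonal]
      rw [Matrix.diagonal_mul_diagonal] at key
      rw [← key]
      congr 1
      funext a
      exact mul_comm _ _
  · have : mone (JJ A M) (0 : ZMod 4) =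
        Matrix.diagonal fun b : JJ A M → ZMod 4 => if b = fun _ => 0 then 1 else 0 := by
      unfold mone
      rw [Pj_single]
    rw [this]
    refine Pj_diag M _ (fun a => ?_) (fun a ha => ?_) (fun a => ?_)
    · split_ifs
      · exact Or.inr rfl
      · exact Or.inl rfl
    · have h : a = fun _ => 0 := by
        by_contra hn
        exact ha (if_neg hn)
      rw [h]
      exact chi_zero
    · have := Pj_comp_tau M a (fun _ => 0) rfl
      simp only [this]

end Pool.Agent.Tate.Ext
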