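import Pool.Agent.Lib.Tate.X.Spec

/-!
# C42, block X: conjugation with unitary matrices is jointly continuous (`S_Rt`)
-/

set_option autoImplicit false

open Topology unitInterval Filter Set
open scoped Topology.Homotopy ZeroAtInfty OnePoint

noncomputable section

namespace Pool.Agent.Tate.Ext

theorem pRt : S_Rt := by
  intro Y J _ _ _
  rw [Conf.continuous_iff]
  intro f
  simp only [Conf.ev_cj]
  have h1 : Continuous fun p : {U : Matrix J J ℂ // U.conjTranspose * U = 1} × Conf Y J =>
      (p.1.1 : Matrix J J ℂ) := continuous_subtype_val.comp continuous_fst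
  have h2 : Continuous fun p : {U : Matrix J J ℂ // U.conjTranspose * U = 1} × Conf Y J =>
      p.2.ev f := Conf.continuous_iff.1 continuous_snd f
  exact (h1.matrix_mul h2).matrix_mul h1.matrix_conjTranspose

end Pool.Agent.Tate.Ext
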