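import Pool.Agent.Lib.Tate.X.Spec

set_option linter.unusedSectionVars false

open Topology unitInterval Filter Set
open scoped Topology.Homotopy ZeroAtInfty OnePoint

noncomputable section

namespace Pool.Agent.Tate.Ext

/-! ### Admissible matrices -/

/-- Unitary matrices which commute with the symmetries. -/
structure Rv_Adm (A : Type) [Fintype A] [DecidableEq A] (M : ℕ) (U : Mt (JJ A M) (ZMod 4)) :
    Prop where
  un : U.conjTranspose * U = 1
  ch : ∀ x y, U x y = chi x * (starRingEnd ℂ) (chi y) * U x y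
  ta : mre (tau A M) U = U

/-- The diagonal matrix of the characters. -/
def Rv_D (B : Type) [Fintype B] [DecidableEq B] : Mt B (ZMod 4) := Matrix.diagonal chi

section

variable {A : Type} [Fintype A] [DecidableEq A] {M : ℕ}

theorem Rv_inv_iff {B : Type} [Fintype B] [DecidableEq B] (c : CW B) :
    c.Inv ↔ ∀ y, c.P (rot y) = Rv_D B * c.P y * (Rv_D B).conjTranspose := by
  unfold CW.Inv Rv_D
  constructor
  · intro h y
    ext a b
    rw [Matrix.diagonal_conjTranspose, Matrix.mul_diagonal, Matrix.diagonal_mul, h]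
    show _ = chi a * _ * (starRingEnd ℂ) (chi b)
    ring
  · intro h y a b
    rw [h, Matrix.diagonal_conjTranspose, Matrix.mul_diagonal, Matrix.diagonal_mul]
    show chi a * _ * (starRingEnd ℂ) (chi b) = _
    ring

theorem Rv_comm {U : Mt (JJ A M) (ZMod 4)} (hU : Rv_Adm A M U) :
    U * Rv_D (JJ A M) = Rv_D (JJ A M) * U := by
  unfold Rv_D
  ext a b
  rw [Matrix.mul_diagonal, Matrix.diagonal_mul]
  have h := hU.ch a b
  have h2 := norm_chi b
  calc U a b * chi b = chi a * (starRingEnd ℂ) (chi b) * U a b * chi b := by rw [← h]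
    _ = chi a * U a b * (chi b * (starRingEnd ℂ) (chi b)) := by ring
    _ = chi a * U a b := by rw [h2, mul_one]

/-- Conjugation on `FZ`. -/
def Rv_cj {U : Mt (JJ A M) (ZMod 4)} (hU : Rv_Adm A M U) (c : FZ A M) : FZ A M :=
  ⟨⟨Conf.cj U hU.un c.1.1, by
    rw [Rv_inv_iff]
    intro y
    have hc := (Rv_inv_iff c.1.1).1 c.1.2 y
    rw [Conf.cj_P, Conf.cj_P, hc]
    have h1 := Rv_comm hU
    have h2 : (Rv_D (JJ A M)).conjTranspose * U.conjTranspose =
        U.conjTranspose * (Rv_D (JJ A M)).conjTranspose := by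
      rw [← Matrix.conjTranspose_mul, h1, Matrix.conjTranspose_mul]
    calc U * (Rv_D (JJ A M) * c.1.1.P y * (Rv_D (JJ A M)).conjTranspose) * U.conjTranspose
        = (U * Rv_D (JJ A M)) * c.1.1.P y *
            ((Rv_D (JJ A M)).conjTranspose * U.conjTranspose) := by
          simp only [mul_assoc]
      _ = (Rv_D (JJ A M) * U) * c.1.1.P y *
            (U.conjTranspose * (Rv_D (JJ A M)).conjTranspose) := by rw [h1, h2]
      _ = _ := by simp only [mul_assoc]⟩, by
    apply Subtype.ext
    refine Conf.ext (funext fun y => ?_)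
    show mre (tau A M) (U * c.1.1.P (y ∘ tau A M) * U.conjTranspose) =
      U * c.1.1.P y * U.conjTranspose
    have hc : mre (tau A M) (c.1.1.P (y ∘ tau A M)) = c.1.1.P y := by
      have h := congrArg (fun d : WX (JJ A M) => d.1.P y) c.2
      exact h
    rw [mre_mul, mre_mul, ← mre_conjTranspose, hU.ta, hc]⟩

end

/-! ### The rotation -/

section rot

variable {J : Type} [Fintype J] [DecidableEq J]

/-- The rotation of the plane spanned by the basis vectors `o` and `a`. -/
def Rv_U (o a : J) (c s : ℂ) : Matrix J J ℂ :=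
  1 + (c - 1) • (Matrix.single o o 1 + Matrix.single a a 1) +
    s • (Matrix.single a o 1 - Matrix.single o a 1)

set_option linter.unusedSimpArgs false in
theorem Rv_U_un {o a : J} (h : o ≠ a) {c s : ℝ} (hcs : c ^ 2 + s ^ 2 = 1) :
    (Rv_U o a (c : ℂ) (s : ℂ)).conjTranspose * Rv_U o a (c : ℂ) (s : ℂ) = 1 := by
  have hcs' : (c : ℂ) ^ 2 + (s : ℂ) ^ 2 = 1 := by exact_mod_cast hcs
  have h1 : (Rv_U o a (c : ℂ) (s : ℂ)).conjTranspose =
      1 + ((c : ℂ) - 1) • (Matrix.single o o (1 : ℂ) + Matrix.single a a 1) +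
        (s : ℂ) • (Matrix.single o a 1 - Matrix.single a o 1) := by
    unfold Rv_U
    simp [Matrix.conjTranspose_add, Matrix.conjTranspose_smul, Matrix.conjTranspose_sub,
      Matrix.conjTranspose_single, Complex.conj_ofReal]
  rw [h1]
  unfold Rv_U
  simp only [mul_add, add_mul, mul_sub, sub_mul, smul_mul_assoc, mul_smul_comm, smul_add,
    smul_sub, mul_one, one_mul, zero_mul, mul_zero, Matrix.single_mul_single_same,
    Matrix.single_mul_single_of_ne _ _ _ _ h, Matrix.single_mul_single_of_ne _ _ _ _ h.symm]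
  linear_combination (norm := module) hcs' • (Matrix.single o o (1 : ℂ)) + hcs' • (Matrix.single a a (1 : ℂ))

set_option linter.unusedSimpArgs false in
theorem Rv_U_one {o a : J} (h : o ≠ a) :
    Rv_U o a 0 1 * Matrix.single o o 1 * (Rv_U o a 0 1).conjTranspose =
      Matrix.single a a 1 := by
  have h1 : (Rv_U o a 0 1).conjTranspose =
      1 + ((0 : ℂ) - 1) • (Matrix.single o o (1 : ℂ) + Matrix.single a a 1) +
        (1 : ℂ) • (Matrix.single o a 1 - Matrix.single a o 1) := by
    unfold Rv_U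
    simp [Matrix.conjTranspose_add, Matrix.conjTranspose_smul, Matrix.conjTranspose_sub,
      Matrix.conjTranspose_single]
  rw [h1]
  unfold Rv_U
  simp only [mul_add, add_mul, mul_sub, sub_mul, smul_mul_assoc, mul_smul_comm, smul_add,
    smul_sub, mul_one, one_mul, zero_mul, mul_zero, Matrix.single_mul_single_same,
    Matrix.single_mul_single_of_ne _ _ _ _ h, Matrix.single_mul_single_of_ne _ _ _ _ h.symm]
  module

theorem Rv_U_zero (o a : J) : Rv_U o a 1 0 = 1 := by
  unfold Rv_U
  module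

end rot

section adm

variable {A : Type} [Fintype A] [DecidableEq A] {M : ℕ}

theorem Rv_ch_single {o a : JJ A M → ZMod 4} (ho : chi o = 1) (ha : chi a = 1) :
    ∀ x y, (Matrix.single o a 1 : Mt (JJ A M) (ZMod 4)) x y =
      chi x * (starRingEnd ℂ) (chi y) * (Matrix.single o a 1 : Mt (JJ A M) (ZMod 4)) x y := by
  intro x y
  rw [Matrix.single_apply]
  split_ifs with h
  · rw [← h.1, ← h.2, ho, ha]
    simp
  · rw [mul_zero]

theorem Rv_ta_single {o a : JJ A M → ZMod 4} (ho : o ∘ tau A M = o) (ha : a ∘ tau A M = a) :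
    mre (tau A M) (Matrix.single o a 1 : Mt (JJ A M) (ZMod 4)) = Matrix.single o a 1 := by
  have key : ∀ {o : JJ A M → ZMod 4}, o ∘ tau A M = o → ∀ x : JJ A M → ZMod 4,
      (o = x ∘ tau A M) = (o = x) := by
    intro o ho x
    apply propext
    constructor
    · intro h
      funext j
      have h1 := congrFun h (tau A M j)
      have h2 := congrFun ho j
      simp only [Function.comp_apply, tau_tau] at h1 h2
      rw [← h2, h1]
    · rintro rfl
      exact ho.symm
  ext x y
  show (Matrix.single o a 1 : Mt (JJ A M) (ZMod 4)) (x ∘ tau A M) (y ∘ tau A M) = _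
  rw [Matrix.single_apply, Matrix.single_apply]
  simp only [key ho x, key ha y]

theorem Rv_adm {o a : JJ A M → ZMod 4} (h : o ≠ a) (hco : chi o = 1) (hca : chi a = 1)
    (hto : o ∘ tau A M = o) (hta : a ∘ tau A M = a) {c s : ℝ} (hcs : c ^ 2 + s ^ 2 = 1) :
    Rv_Adm A M (Rv_U o a (c : ℂ) (s : ℂ)) := by
  refine ⟨Rv_U_un h hcs, ?_, ?_⟩
  · intro x y
    unfold Rv_U
    have h1 : (1 : Mt (JJ A M) (ZMod 4)) x y =
        chi x * (starRingEnd ℂ) (chi y) * (1 : Mt (JJ A M) (ZMod 4)) x y := by
      rw [Matrix.one_apply]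
      split_ifs with hxy
      · rw [hxy, norm_chi, mul_one]
      · rw [mul_zero]
    have h2 := Rv_ch_single hco hco x y
    have h3 := Rv_ch_single hca hca x y
    have h4 := Rv_ch_single hca hco x y
    have h5 := Rv_ch_single hco hca x y
    simp only [Matrix.add_apply, Matrix.sub_apply, Matrix.smul_apply, smul_eq_mul]
    linear_combination h1 + ((c : ℂ) - 1) * h2 + ((c : ℂ) - 1) * h3 + (s : ℂ) * h4 - (s : ℂ) * h5
  · have h1 : mre (tau A M) (1 : Mt (JJ A M) (ZMod 4)) = 1 := by
      ext x y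
      show (1 : Mt (JJ A M) (ZMod 4)) (x ∘ tau A M) (y ∘ tau A M) = _
      rw [Matrix.one_apply, Matrix.one_apply]
      have : (x ∘ tau A M = y ∘ tau A M) = (x = y) := by
        apply propext
        constructor
        · intro h
          exact (tau A M).surjective.injective_comp_right h
        · rintro rfl
          rfl
      simp only [this]
    have hadd : ∀ p q : Mt (JJ A M) (ZMod 4), mre (tau A M) (p + q) =
        mre (tau A M) p + mre (tau A M) q := fun p q => rfl
    have hsub : ∀ p q : Mt (JJ A M) (ZMod 4), mre (tau A M) (p - q) =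
        mre (tau A M) p - mre (tau A M) q := fun p q => rfl
    have hsmul : ∀ (z : ℂ) (q : Mt (JJ A M) (ZMod 4)), mre (tau A M) (z • q) =
        z • mre (tau A M) q := fun p q => rfl
    unfold Rv_U
    rw [hadd, hadd, hsmul, hsmul, hadd, hsub, h1, Rv_ta_single hto hto, Rv_ta_single hta hta,
      Rv_ta_single hta hto, Rv_ta_single hto hta]

end adm

theorem pRv (h1 : S_Rt) (h2 : S_Ba) : S_Rv := by
  intro A _ _ M k hk l1 l2 L1 L2 hL1 hL2
  obtain ⟨hb1, hb2, hb3, hb4⟩ := h2 A M
  set o : JJ A M → ZMod 4 := fun _ => 0 with ho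
  set a : JJ A M → ZMod 4 := aj A M k with ha
  have hne : o ≠ a := (hb4 k (by omega)).symm
  have hco : chi o = 1 := chi_zero
  have hca : chi a = 1 := hb1 k hk
  have hto : o ∘ tau A M = o := rfl
  have hta : a ∘ tau A M = a := hb2 k
  let cs : I → ℝ := fun t => Real.cos (Real.pi * t / 2)
  let sn : I → ℝ := fun t => Real.sin (Real.pi * t / 2)
  have hcs : ∀ t, cs t ^ 2 + sn t ^ 2 = 1 := fun t => Real.cos_sq_add_sin_sq _
  have hcc : Continuous cs := by
    have : Continuous fun t : I => (t : ℝ) := continuous_subtype_val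
    exact Real.continuous_cos.comp (by fun_prop)
  have hsc : Continuous sn := by
    have : Continuous fun t : I => (t : ℝ) := continuous_subtype_val
    exact Real.continuous_sin.comp (by fun_prop)
  have adm : ∀ t, Rv_Adm A M (Rv_U o a (cs t : ℂ) (sn t : ℂ)) := fun t =>
    Rv_adm hne hco hca hto hta (hcs t)
  have hUc : Continuous fun t : I =>
      (⟨Rv_U o a (cs t : ℂ) (sn t : ℂ), (adm t).un⟩ :
        {U : Mt (JJ A M) (ZMod 4) // U.conjTranspose * U = 1}) := by
    refine Continuous.subtype_mk ?_ _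
    unfold Rv_U
    have hcc' : Continuous fun t : I => (cs t : ℂ) := Complex.continuous_ofReal.comp hcc
    have hsc' : Continuous fun t : I => (sn t : ℂ) := Complex.continuous_ofReal.comp hsc
    exact (continuous_const.add ((hcc'.sub continuous_const).smul continuous_const)).add
      (hsc'.smul continuous_const)
  let H : I × (QQ A M → I) → FZ A M := fun p => Rv_cj (adm p.1) (L1 p.2)
  have hH : Continuous H := by
    refine Continuous.subtype_mk (Continuous.subtype_mk ?_ _) _
    have h3 := h1 (JJ A M → VV) (JJ A M → ZMod 4)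
    refine h3.comp (f := fun p : I × (QQ A M → I) => ((⟨Rv_U o a (cs p.1 : ℂ) (sn p.1 : ℂ),
      (adm p.1).un⟩ : {U : Mt (JJ A M) (ZMod 4) // U.conjTranspose * U = 1}),
        (L1 p.2).1.1)) ?_
    refine Continuous.prodMk (hUc.comp continuous_fst) ?_
    have hv1 : Continuous (Subtype.val : {c : CW (JJ A M) // c.Inv} → CW (JJ A M)) :=
      continuous_subtype_val
    have hv2 : Continuous (Subtype.val : {c : WX (JJ A M) // Wmap (tau A M) c = c} →
      WX (JJ A M)) := continuous_subtype_val
    have hv3 : Continuous fun p : I × (QQ A M → I) => L1 p.2 :=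
      L1.1.continuous.comp continuous_snd
    exact hv1.comp (hv2.comp hv3)
  have c0 : cs 0 = 1 := by
    show Real.cos (Real.pi * ((0 : I) : ℝ) / 2) = 1
    simp
  have s0 : sn 0 = 0 := by
    show Real.sin (Real.pi * ((0 : I) : ℝ) / 2) = 0
    simp
  have c1 : cs 1 = 0 := by
    show Real.cos (Real.pi * ((1 : I) : ℝ) / 2) = 0
    simp
  have s1 : sn 1 = 1 := by
    show Real.sin (Real.pi * ((1 : I) : ℝ) / 2) = 1
    simp
  have H0 : ∀ s, H (0, s) = L1 s := by
    intro s
    apply Subtype.ext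
    apply Subtype.ext
    refine Conf.ext (funext fun y => ?_)
    show Rv_U o a (cs 0 : ℂ) (sn 0 : ℂ) * (L1 s).1.1.P y *
      (Rv_U o a (cs 0 : ℂ) (sn 0 : ℂ)).conjTranspose = (L1 s).1.1.P y
    rw [c0, s0, Complex.ofReal_one, Complex.ofReal_zero, Rv_U_zero]
    simp
  have Hpt : ∀ t, ∀ s ∈ Cube.boundary (QQ A M), H (t, s) = FZpt A M := by
    intro t s hs
    apply Subtype.ext
    apply Subtype.ext
    refine Conf.ext (funext fun y => ?_)
    have : L1 s = FZpt A M := L1.2 s hs
    show Rv_U o a (cs t : ℂ) (sn t : ℂ) * (L1 s).1.1.P y *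
      (Rv_U o a (cs t : ℂ) (sn t : ℂ)).conjTranspose = 0
    rw [this]
    show Rv_U o a (cs t : ℂ) (sn t : ℂ) * 0 *
      (Rv_U o a (cs t : ℂ) (sn t : ℂ)).conjTranspose = 0
    rw [mul_zero, zero_mul]
  have H1 : ∀ s, H (1, s) = L2 s := by
    intro s
    by_cases hs : s ∈ Cube.boundary (QQ A M)
    · rw [Hpt 1 s hs]
      exact (L2.2 s hs).symm
    apply Subtype.ext
    apply Subtype.ext
    refine Conf.ext (funext fun y => ?_)
    show Rv_U o a (cs 1 : ℂ) (sn 1 : ℂ) * (L1 s).1.1.P y *
      (Rv_U o a (cs 1 : ℂ) (sn 1 : ℂ)).conjTranspose = (L2 s).1.1.P y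
    rw [c1, s1, Complex.ofReal_one, Complex.ofReal_zero, hL1, hL2]
    unfold LLf
    rw [if_neg hs, if_neg hs]
    show Rv_U o a 0 1 * (Conf.single (emb A M fun q => rho (s q)) (mone (JJ A M) (0 : ZMod 4))
        l1.herm l1.idem).P y * (Rv_U o a 0 1).conjTranspose =
      (Conf.single (emb A M fun q => rho (s q)) (Matrix.single (aj A M k) (aj A M k) 1)
        l2.herm l2.idem).P y
    by_cases hy : y = emb A M fun q => rho (s q)
    · rw [hy, Conf.single_self, Conf.single_self]
      exact Rv_U_one hne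
    · rw [Conf.single_ne _ _ _ hy, Conf.single_ne _ _ _ hy, mul_zero, zero_mul]
  refine ⟨⟨⟨⟨H, hH⟩, ?_, ?_⟩, ?_⟩⟩
  · exact H0
  · exact H1
  · intro t s hs
    show H (t, s) = L1 s
    rw [Hpt t s hs]
    exact (L1.2 s hs).symm

end Pool.Agent.Tate.Ext
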