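import Pool.Agent.Lib.Tate.X.Spec

/-!
# C42 (MP_071d69_gt), block X: assembly of the extraction
-/

set_option autoImplicit false
set_option linter.unusedSectionVars false

open Topology unitInterval Filter Set
open scoped Topology.Homotopy ZeroAtInfty OnePoint

noncomputable section

namespace Pool.Agent.Tate.Ext

theorem pT4 (h1 : S_Cu) (h2 : Ec.S_Ri) (h3 : S_Va) (h4 : S_Iv) : S_T4 := by
  intro hRe hMu hUn hT2 hac
  obtain ⟨k, n, hk1, hd⟩ := h1 hRe hMu hUn hT2 hac
  refine ⟨k, n, hk1, fun d => ?_⟩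
  obtain ⟨M₀, hM⟩ := hd d
  refine ⟨M₀, fun M hMM => ?_⟩
  obtain ⟨hkM, hk, H, Hc, H0, H1, Hb, He⟩ := hM M hMM
  refine ⟨hkM, ?_⟩
  intro G _ χ ψ hψ
  have hT : T2Space (Cel.Sph d) := inferInstance
  have hva := h3 (Cel.Sph d) (QQ (AA n) M) (CW (JJ (AA n) M)) default (fun p => (H p).1)
    (continuous_subtype_val.comp Hc) (fun t a s hs => by
      show (H (t, a, s)).1 = default
      rw [Hb t a s hs]
      rfl)
  refine ⟨fun z => (H (Set.projIcc 0 1 zero_le_one z.2, z.1.1, fun q => Ec.ri (z.1.2 q))).1,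
    hva, ?_, ?_⟩
  · rintro ⟨a, u⟩ _
    have hnb : (fun q => Ec.ri (u q)) ∉ Cube.boundary (QQ (AA n) M) := by
      rintro ⟨q, hq⟩
      rcases hq with hq | hq
      · exact (h2.2.1 (u q)).1 hq
      · exact (h2.2.1 (u q)).2 hq
    constructor
    · show (H (Set.projIcc 0 1 zero_le_one (0 : ℝ), a, fun q => Ec.ri (u q))).1 = _
      have e0 : Set.projIcc (0 : ℝ) 1 zero_le_one 0 = (0 : I) := Set.projIcc_left _
      rw [e0, H0]
      unfold LLf
      rw [if_neg hnb]
      show Conf.single (emb (AA n) M fun q => rho (Ec.ri (u q))) (Pk (AA n) M k) (Pk_herm M k)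
        (Pk_idem M k) = _
      have e1 : (fun q => rho (Ec.ri (u q))) = u := funext fun q => h2.2.2.1 (u q)
      rw [e1]
    · show (H (Set.projIcc 0 1 zero_le_one (1 : ℝ), a, fun q => Ec.ri (u q))).1 = _
      have e0 : Set.projIcc (0 : ℝ) 1 zero_le_one 1 = (1 : I) := Set.projIcc_right _
      rw [e0, H1]
      rfl
  · rintro g ⟨a, u⟩ _ t _
    show (H (Set.projIcc 0 1 zero_le_one t, (Cel.actS χ d).a g a, fun q => Ec.ri (u q))).1 =
      (actW χ ψ (AA n) M).a g (H (Set.projIcc 0 1 zero_le_one t, a, fun q => Ec.ri (u q))).1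
    rw [actW_a]
    rcases Int.units_eq_one_or (χ g) with hg | hg
    · have e1 : (Cel.actS χ d).a g a = a := if_pos hg
      have e2 : tz (AA n) M (χ g) = Equiv.refl _ := if_pos hg
      rw [e1, e2]
      exact (h4 _ _ (ψ g) (hψ g)).symm
    · have hne : ¬ χ g = 1 := by
        rw [hg]
        decide
      have e1 : (Cel.actS χ d).a g a = -a := if_neg hne
      have e2 : tz (AA n) M (χ g) = tau (AA n) M := if_neg hne
      rw [e1, e2, He]
      exact (h4 _ _ (ψ g) (hψ g)).symm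

end Pool.Agent.Tate.Ext
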