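import Pool.Agent.Lib.Tate.X.Spec

/-!
# C42 (MP_071d69_gt), block X, statement TQ: facts on `QE(B)`
-/

open Topology unitInterval Filter Set

noncomputable section

namespace Pool.Agent.Tate.Ext

open CSRS

variable {E : CSRS} {B B' : Type} [Fintype B] [DecidableEq B] [Fintype B'] [DecidableEq B']

private theorem TQ_cont (m : ℕ) : Continuous fun g : E.L (Fin m) (B ⊕ Fin m) => up B m g := by
  refine Continuous.subtype_mk ?_ _
  refine ContinuousMap.continuous_of_continuous_uncurry _ ?_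
  show Continuous fun q : E.L (Fin m) (B ⊕ Fin m) × (Fin (m + 1) → I) => E.map (upE B m)
      (E.mul (q.1 fun i => q.2 (finSumFinEquiv (Sum.inl i)))
        (E.unit (Fin 1) fun i => q.2 (finSumFinEquiv (Sum.inr i))))
  refine (E.continuous_map _).comp (E.continuous_mul.comp (Continuous.prodMk ?_ ?_))
  · have h1 : Continuous fun q : E.L (Fin m) (B ⊕ Fin m) × (Fin (m + 1) → I) =>
        fun i : Fin m => q.2 (finSumFinEquiv (Sum.inl i)) :=
      continuous_pi fun i => (continuous_apply (finSumFinEquiv (Sum.inl i))).comp continuous_snd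
    exact continuous_eval.comp (continuous_fst.prodMk h1)
  · have h1 : Continuous fun q : E.L (Fin m) (B ⊕ Fin m) × (Fin (m + 1) → I) =>
        fun i : Fin 1 => q.2 (finSumFinEquiv (Sum.inr i)) :=
      continuous_pi fun i => (continuous_apply (finSumFinEquiv (Sum.inr i))).comp continuous_snd
    exact (E.unit (Fin 1)).1.continuous.comp h1

private theorem TQ_UQ (w : B → I) (n : ℕ) :
    (sgm (Y := fun m => E.L (Fin m) (B ⊕ Fin m)) (fun m => up B m))^[n] ⟨0, UQ w 0⟩ =
      ⟨n, UQ w n⟩ := by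
  induction n with
  | zero => rfl
  | succ n ih =>
    rw [Function.iterate_succ_apply', ih]
    show (⟨n + 1, up B n (UQ w n)⟩ : Σ m, E.L (Fin m) (B ⊕ Fin m)) = _
    rw [up_UQ]

private theorem TQ_map (e : B ≃ B') (n : ℕ) (p : Σ m, E.L (Fin m) (B ⊕ Fin m)) :
    (sgm (Y := fun m => E.L (Fin m) (B' ⊕ Fin m)) (fun m => up B' m))^[n] ⟨p.1, Qmap' e p.1 p.2⟩ =
      ⟨((sgm (Y := fun m => E.L (Fin m) (B ⊕ Fin m)) (fun m => up B m))^[n] p).1,
        Qmap' e _ ((sgm (Y := fun m => E.L (Fin m) (B ⊕ Fin m)) (fun m => up B m))^[n] p).2⟩ := by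
  induction n with
  | zero => rfl
  | succ n ih =>
    rw [Function.iterate_succ_apply', Function.iterate_succ_apply', ih]
    show (⟨_ + 1, up B' _ (Qmap' e _ _)⟩ : Σ m, E.L (Fin m) (B' ⊕ Fin m)) = ⟨_ + 1, Qmap' e _ (up B _ _)⟩
    rw [up_Qmap']

theorem pTQ : S_TQ := by
  intro E B _ _ hT2
  refine ⟨⟨fun m => TQ_cont m, fun m => up_const B m, fun m => ?_⟩, ?_, ?_, ?_, ?_⟩
  · have : T2Space (E.X (B ⊕ Fin m)) := hT2 _
    have : T2Space (E.L (Fin m) (B ⊕ Fin m)) := by
      show T2Space (GenLoop _ _ _)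
      infer_instance
    infer_instance
  · intro w M
    rcases Nat.eq_zero_or_pos M with hM | hM
    · subst hM
      exact TR_mk_ge (Y := fun m => E.L (Fin m) (B ⊕ Fin m)) (fun m => up_const B m) (le_refl 0) 0
        (UQ w 0)
    · have h := TR_mk_lt (Y := fun m => E.L (Fin m) (B ⊕ Fin m)) (fun m => up_const B m) hM 0
        (UQ w 0)
      rw [Nat.sub_zero, TQ_UQ] at h
      exact h
  · intro B' _ _ e M x
    refine Qind (motive := fun x => TRQ E B' M (Qmap e x) = Qmap e (TRQ E B M x))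
      (fun m r g => ?_) x
    show TRQ E B' M (Qmk m r (Qmap' e m g)) = _
    rcases lt_or_ge m M with hm | hm
    · have h1 := TR_mk_lt (Y := fun m => E.L (Fin m) (B ⊕ Fin m)) (fun m => up_const B m) hm r g
      have h2 := TR_mk_lt (Y := fun m => E.L (Fin m) (B' ⊕ Fin m)) (fun m => up_const B' m) hm r
        (Qmap' e m g)
      have h3 := TQ_map e (M - m) ⟨m, g⟩
      have h4 : TRQ E B M (Qmk m r g) = _ := h1
      have h5 : TRQ E B' M (Qmk m r (Qmap' e m g)) = _ := h2
      rw [h4, h5]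
      have h6 : (sgm (Y := fun m => E.L (Fin m) (B' ⊕ Fin m)) (fun m => up B' m))^[M - m]
        ⟨m, Qmap' e m g⟩ = _ := h3
      rw [h6]
      rfl
    · have h1 := TR_mk_ge (Y := fun m => E.L (Fin m) (B ⊕ Fin m)) (fun m => up_const B m) hm r g
      have h2 := TR_mk_ge (Y := fun m => E.L (Fin m) (B' ⊕ Fin m)) (fun m => up_const B' m) hm r
        (Qmap' e m g)
      have h4 : TRQ E B M (Qmk m r g) = _ := h1
      have h5 : TRQ E B' M (Qmk m r (Qmap' e m g)) = _ := h2
      rw [h4, h5]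
      rfl
  · intro M
    exact TR_base (Y := fun m => E.L (Fin m) (B ⊕ Fin m)) (fun m => up_const B m) M
  · intro M
    exact (Qmk_base M 0).symm

end Pool.Agent.Tate.Ext
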