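import Pool.Agent.Lib.Tate.X.Spec

/-!
# C42 (MP_071d69_gt), block X, statement TR: the self map `TR` of the telescope is continuous
-/

open Topology unitInterval Filter Set

noncomputable section

namespace Pool.Agent.Tate.Ext

theorem pTR : S_TR := by
  intro Y _ φ y₀ h M
  refine (Tel.isQuotientMap (Y := Y) (φ := φ) (y₀ := y₀)).continuous_iff.2 ?_
  refine continuous_sigma fun m => ?_
  have hst : Continuous (st0 φ y₀) := by
    refine continuous_sigma fun m => ?_
    exact Tel.isQuotientMap.continuous.comp (continuous_sigmaMk.comp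
      (Continuous.prodMk continuous_const continuous_id))
  have hsg : Continuous (sgm φ) := by
    refine continuous_sigma fun m => ?_
    exact (@continuous_sigmaMk ℕ Y _ (m + 1)).comp (h.cont m)
  rcases lt_or_ge m M with hm | hm
  · have h1 : (fun p : I × Y m => TR h.base M (Tel.mk m p.1 p.2)) =
        fun p : I × Y m => st0 φ y₀ ((sgm φ)^[M - m] ⟨m, p.2⟩) := by
      funext p
      exact TR_mk_lt h.base hm p.1 p.2
    show Continuous fun p : I × Y m => TR h.base M (Tel.mk m p.1 p.2)
    rw [h1]
    exact hst.comp ((hsg.iterate _).comp ((@continuous_sigmaMk ℕ Y _ m).comp continuous_snd))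
  · have h1 : (fun p : I × Y m => TR h.base M (Tel.mk m p.1 p.2)) =
        fun p : I × Y m => (Tel.mk m p.1 p.2 : Tel Y φ y₀) := by
      funext p
      exact TR_mk_ge h.base hm p.1 p.2
    show Continuous fun p : I × Y m => TR h.base M (Tel.mk m p.1 p.2)
    rw [h1]
    exact Tel.isQuotientMap.continuous.comp (@continuous_sigmaMk ℕ (fun m => I × Y m) _ m)

end Pool.Agent.Tate.Ext
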