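import Pool.Agent.Lib.Tate.X.Spec

set_option linter.unusedSectionVars false

open Topology unitInterval Filter Set
open scoped Topology.Homotopy

noncomputable section

namespace Pool.Agent.Tate.Ext

private theorem Tc_iff_none {Y : ℕ → Type} {φ : ∀ m, Y m → Y (m + 1)} {y₀ : ∀ m, Y m}
    {m : ℕ} (p : I × Y m) :
    nf' φ y₀ ⟨m, p⟩ = none ↔ p.2 = y₀ m ∨ (p.1 = 1 ∧ φ m p.2 = y₀ (m + 1)) := by
  unfold nf'
  dsimp only
  by_cases h1 : p.2 = y₀ m
  · simp [h1]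
  · by_cases h2 : p.1 = 1
    · by_cases h3 : φ m p.2 = y₀ (m + 1)
      · simp [h1, h2, h3]
      · simp [h1, h2, h3]
    · simp [h1, h2]

private theorem Tc_iff_some {Y : ℕ → Type} {φ : ∀ m, Y m → Y (m + 1)} {y₀ : ∀ m, Y m}
    {m : ℕ} (p : I × Y m) (a : Σ m, I × Y m) :
    nf' φ y₀ ⟨m, p⟩ = some a ↔
      (p.2 ≠ y₀ m ∧ p.1 = 1 ∧ φ m p.2 ≠ y₀ (m + 1) ∧
        (⟨m + 1, (0, φ m p.2)⟩ : Σ m, I × Y m) = a) ∨
      (p.2 ≠ y₀ m ∧ p.1 ≠ 1 ∧ (⟨m, p⟩ : Σ m, I × Y m) = a) := by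
  unfold nf'
  dsimp only
  by_cases h1 : p.2 = y₀ m
  · simp [h1]
  · by_cases h2 : p.1 = 1
    · by_cases h3 : φ m p.2 = y₀ (m + 1)
      · simp [h1, h2, h3]
      · simp [h1, h2, h3]
    · simp [h1, h2]

theorem pTc : S_Tc := by
  intro Y _ φ y₀ h M
  have ht1 : ∀ m, T1Space (Y m) := h.t1
  have hq : IsQuotientMap (Quot.mk (TelRel Y φ y₀) : (Σ m, I × Y m) → Tel Y φ y₀) :=
    Tel.isQuotientMap
  have h01 : (0 : I) ≠ 1 := zero_ne_one
  have hcont : Continuous fun y : Y M => (Tel.mk M 0 y : Tel Y φ y₀) :=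
    hq.continuous.comp ((@continuous_sigmaMk ℕ (fun m => I × Y m) _ M).comp
      (Continuous.prodMk continuous_const continuous_id))
  -- the normal form of the points of the stage
  have hn0 : nf' φ y₀ ⟨M, ((0 : I), y₀ M)⟩ = none := (Tc_iff_none _).2 (Or.inl rfl)
  have hn1 : ∀ z : Y M, z ≠ y₀ M → nf' φ y₀ ⟨M, ((0 : I), z)⟩ = some ⟨M, (0, z)⟩ := fun z hz =>
    (Tc_iff_some _ _).2 (Or.inr ⟨hz, h01, rfl⟩)
  refine Topology.IsClosedEmbedding.of_continuous_injective_isClosedMap hcont ?_ ?_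
  · intro z z' hz
    have h1 : nf' φ y₀ ⟨M, ((0 : I), z)⟩ = nf' φ y₀ ⟨M, ((0 : I), z')⟩ := (nf_inj h.base).1 hz
    by_cases c : z = y₀ M
    · by_cases c' : z' = y₀ M
      · rw [c, c']
      · rw [c, hn0, hn1 _ c'] at h1
        exact absurd h1 (by simp)
    · by_cases c' : z' = y₀ M
      · rw [c', hn0, hn1 _ c] at h1
        exact absurd h1 (by simp)
      · rw [hn1 _ c, hn1 _ c'] at h1
        have h5 := eq_of_heq (Sigma.mk.inj (Option.some.inj h1)).2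
        exact (Prod.mk.inj h5).2
  · intro C hC
    refine hq.isClosed_preimage.1 (isClosed_sigma_iff.2 fun m => ?_)
    -- the three closed pieces
    have hB : IsClosed {p : I × Y m | nf' φ y₀ ⟨m, p⟩ = none} := by
      have e : {p : I × Y m | nf' φ y₀ ⟨m, p⟩ = none} =
          (Prod.snd ⁻¹' {y₀ m}) ∪ (Prod.fst ⁻¹' {1} ∩ (fun p : I × Y m => φ m p.2) ⁻¹'
            {y₀ (m + 1)}) := by
        ext p
        exact Tc_iff_none p
      rw [e]
      exact (isClosed_singleton.preimage continuous_snd).union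
        ((isClosed_singleton.preimage continuous_fst).inter
          (isClosed_singleton.preimage ((h.cont m).comp continuous_snd)))
    have hD1 : IsClosed {p : I × Y m | ∃ z ∈ C, (⟨m, p⟩ : Σ m, I × Y m) = ⟨M, (0, z)⟩} := by
      by_cases hm : m = M
      · subst hm
        have e : {p : I × Y m | ∃ z ∈ C, (⟨m, p⟩ : Σ m, I × Y m) = ⟨m, (0, z)⟩} =
            Prod.fst ⁻¹' {0} ∩ Prod.snd ⁻¹' C := by
          ext p
          constructor
          · rintro ⟨z, hz, h1⟩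
            have h5 := eq_of_heq (Sigma.mk.inj h1).2
            rw [h5]
            exact ⟨rfl, hz⟩
          · rintro ⟨h1, h2⟩
            refine ⟨p.2, h2, ?_⟩
            have h3 : p.1 = 0 := h1
            rw [← h3]
        rw [e]
        exact (isClosed_singleton.preimage continuous_fst).inter (hC.preimage continuous_snd)
      · have e : {p : I × Y m | ∃ z ∈ C, (⟨m, p⟩ : Σ m, I × Y m) = ⟨M, (0, z)⟩} = ∅ := by
          refine eq_empty_of_forall_notMem ?_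
          rintro p ⟨z, _, h4⟩
          exact hm (Sigma.mk.inj h4).1
        rw [e]
        exact isClosed_empty
    have hD2 : IsClosed {p : I × Y m | p.1 = 1 ∧
        ∃ z ∈ C, (⟨m + 1, φ m p.2⟩ : Σ m, Y m) = ⟨M, z⟩} := by
      by_cases hm : m + 1 = M
      · subst hm
        have e : {p : I × Y m | p.1 = 1 ∧
            ∃ z ∈ C, (⟨m + 1, φ m p.2⟩ : Σ m, Y m) = ⟨m + 1, z⟩} =
            Prod.fst ⁻¹' {1} ∩ (fun p : I × Y m => φ m p.2) ⁻¹' C := by
          ext p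
          constructor
          · rintro ⟨h1, z, hz, h2⟩
            refine ⟨h1, ?_⟩
            have h5 : φ m p.2 = z := eq_of_heq (Sigma.mk.inj h2).2
            show φ m p.2 ∈ C
            rw [h5]
            exact hz
          · rintro ⟨h1, h2⟩
            exact ⟨h1, φ m p.2, h2, rfl⟩
        rw [e]
        exact (isClosed_singleton.preimage continuous_fst).inter
          (hC.preimage ((h.cont m).comp continuous_snd))
      · have e : {p : I × Y m | p.1 = 1 ∧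
            ∃ z ∈ C, (⟨m + 1, φ m p.2⟩ : Σ m, Y m) = ⟨M, z⟩} = ∅ := by
          refine eq_empty_of_forall_notMem ?_
          rintro p ⟨_, z, _, h4⟩
          exact hm (Sigma.mk.inj h4).1
        rw [e]
        exact isClosed_empty
    -- the pieces are contained in the set
    have hS1 : ∀ p : I × Y m, (∃ z ∈ C, (⟨m, p⟩ : Σ m, I × Y m) = ⟨M, (0, z)⟩) →
        ∃ z ∈ C, (Tel.mk M 0 z : Tel Y φ y₀) = Tel.mk m p.1 p.2 := by
      rintro p ⟨z, hz, h1⟩
      refine ⟨z, hz, ?_⟩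
      show Quot.mk _ (⟨M, (0, z)⟩ : Σ m, I × Y m) = Quot.mk _ ⟨m, p⟩
      rw [h1]
    have hS2 : ∀ p : I × Y m, (p.1 = 1 ∧
        ∃ z ∈ C, (⟨m + 1, φ m p.2⟩ : Σ m, Y m) = ⟨M, z⟩) →
        ∃ z ∈ C, (Tel.mk M 0 z : Tel Y φ y₀) = Tel.mk m p.1 p.2 := by
      rintro p ⟨h1, z, hz, h2⟩
      refine ⟨z, hz, ?_⟩
      rw [h1, Tel.glue]
      show st0 φ y₀ ⟨M, z⟩ = st0 φ y₀ ⟨m + 1, φ m p.2⟩
      rw [h2]
    -- the set is contained in the union
    have hS3 : ∀ p : I × Y m, (∃ z ∈ C, (Tel.mk M 0 z : Tel Y φ y₀) = Tel.mk m p.1 p.2) →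
        (nf' φ y₀ ⟨m, p⟩ = none ∧ y₀ M ∈ C) ∨
        (∃ z ∈ C, (⟨m, p⟩ : Σ m, I × Y m) = ⟨M, (0, z)⟩) ∨
        (p.1 = 1 ∧ ∃ z ∈ C, (⟨m + 1, φ m p.2⟩ : Σ m, Y m) = ⟨M, z⟩) := by
      rintro p ⟨z, hz, h1⟩
      have h2 : nf' φ y₀ ⟨M, ((0 : I), z)⟩ = nf' φ y₀ ⟨m, p⟩ := (nf_inj h.base).1 h1
      by_cases c : z = y₀ M
      · rw [c, hn0] at h2
        exact Or.inl ⟨h2.symm, c ▸ hz⟩
      · rw [hn1 _ c] at h2
        rcases (Tc_iff_some _ _).1 h2.symm with ⟨_, h4, _, h6⟩ | ⟨_, _, h6⟩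
        · refine Or.inr (Or.inr ⟨h4, z, hz, ?_⟩)
          obtain ⟨h7, h8⟩ := Sigma.mk.inj h6
          subst h7
          have h9 := (Prod.mk.inj (eq_of_heq h8)).2
          rw [h9]
        · exact Or.inr (Or.inl ⟨z, hz, h6⟩)
    by_cases hc : y₀ M ∈ C
    · have e : Sigma.mk m ⁻¹' (Quot.mk (TelRel Y φ y₀) ⁻¹'
          ((fun y : Y M => (Tel.mk M 0 y : Tel Y φ y₀)) '' C)) =
          {p : I × Y m | nf' φ y₀ ⟨m, p⟩ = none} ∪
          ({p : I × Y m | ∃ z ∈ C, (⟨m, p⟩ : Σ m, I × Y m) = ⟨M, (0, z)⟩} ∪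
          {p : I × Y m | p.1 = 1 ∧ ∃ z ∈ C, (⟨m + 1, φ m p.2⟩ : Σ m, Y m) = ⟨M, z⟩}) := by
        ext p
        constructor
        · intro hp
          rcases hS3 p hp with h1 | h1 | h1
          · exact Or.inl h1.1
          · exact Or.inr (Or.inl h1)
          · exact Or.inr (Or.inr h1)
        · rintro (h1 | h1 | h1)
          · refine ⟨y₀ M, hc, (nf_inj h.base).2 ?_⟩
            show nf' φ y₀ ⟨M, ((0 : I), y₀ M)⟩ = nf' φ y₀ ⟨m, p⟩
            rw [hn0]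
            exact Eq.symm h1
          · exact hS1 p h1
          · exact hS2 p h1
      exact e ▸ (hB.union (hD1.union hD2))
    · have e : Sigma.mk m ⁻¹' (Quot.mk (TelRel Y φ y₀) ⁻¹'
          ((fun y : Y M => (Tel.mk M 0 y : Tel Y φ y₀)) '' C)) =
          ({p : I × Y m | ∃ z ∈ C, (⟨m, p⟩ : Σ m, I × Y m) = ⟨M, (0, z)⟩} ∪
          {p : I × Y m | p.1 = 1 ∧ ∃ z ∈ C, (⟨m + 1, φ m p.2⟩ : Σ m, Y m) = ⟨M, z⟩}) := by
        ext p
        constructor
        · intro hp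
          rcases hS3 p hp with h1 | h1 | h1
          · exact absurd h1.2 hc
          · exact Or.inl h1
          · exact Or.inr h1
        · rintro (h1 | h1)
          · exact hS1 p h1
          · exact hS2 p h1
      exact e ▸ (hD1.union hD2)

end Pool.Agent.Tate.Ext
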