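import Pool.Agent.Lib.Tate.X.Spec

/-!
# C42, block X: restriction of a null homotopy to `S(d μ) ⊂ EC₂` (`S_Te`) (helper56)
-/

set_option autoImplicit false

open Topology unitInterval Filter Set
open scoped Topology.Homotopy

noncomputable section

namespace Pool.Agent.Tate.Ext

/-- the coordinates of a vector, extended by zero -/
def Te_c (d : ℕ) (a : EuclideanSpace ℝ (Fin d)) (j : ℕ) : ℝ := if h : j < d then a ⟨j, h⟩ else 0

/-- the inclusion of the Euclidean space into the Hilbert space -/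
def Te_i (d : ℕ) (a : EuclideanSpace ℝ (Fin d)) : lp (fun _ : ℕ => ℝ) 2 :=
  ∑ j ∈ Finset.range d, lp.single 2 j (Te_c d a j)

theorem Te_c_cont (d j : ℕ) : Continuous fun a : EuclideanSpace ℝ (Fin d) => Te_c d a j := by
  unfold Te_c
  by_cases h : j < d
  · simp only [h, dif_pos]
    fun_prop
  · simp only [h, dif_neg, not_false_eq_true]
    exact continuous_const

theorem Te_i_cont (d : ℕ) : Continuous (Te_i d) := by
  unfold Te_i
  refine continuous_finsetSum _ fun j _ => ?_
  exact (lp.isometry_single (E := fun _ : ℕ => ℝ) (p := 2) j).continuous.comp (Te_c_cont d j)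

theorem Te_i_neg (d : ℕ) (a : EuclideanSpace ℝ (Fin d)) : Te_i d (-a) = -Te_i d a := by
  unfold Te_i
  rw [← Finset.sum_neg_distrib]
  refine Finset.sum_congr rfl fun j _ => ?_
  rw [← lp.single_neg]
  congr 1
  unfold Te_c
  split_ifs
  · rfl
  · rw [neg_zero]

theorem Te_i_norm (d : ℕ) (a : EuclideanSpace ℝ (Fin d)) (ha : ‖a‖ = 1) : ‖Te_i d a‖ = 1 := by
  have h := lp.norm_sum_single (E := fun _ : ℕ => ℝ) (p := 2) (by norm_num) (Te_c d a)
    (Finset.range d)
  have h2 : ((2 : ENNReal).toReal) = ((2 : ℕ) : ℝ) := by norm_num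
  rw [h2, Real.rpow_natCast] at h
  have h3 : ∑ j ∈ Finset.range d, ‖Te_c d a j‖ ^ ((2 : ℕ) : ℝ) = 1 := by
    rw [Finset.sum_range]
    have h4 : ‖a‖ ^ 2 = 1 := by rw [ha, one_pow]
    rw [EuclideanSpace.norm_sq_eq] at h4
    rw [← h4]
    refine Finset.sum_congr rfl fun i _ => ?_
    rw [Real.rpow_natCast]
    congr 2
    unfold Te_c
    rw [dif_pos i.2]
  rw [h3] at h
  have h5 : 0 ≤ ‖Te_i d a‖ := norm_nonneg _
  have h6 : ‖Te_i d a‖ ^ 2 = 1 := h
  nlinarith

/-- the map of the spheres -/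
def Te_j (d : ℕ) : C(Cel.Sph d, EC₂) :=
  ⟨fun a => ⟨Te_i d a.1, by
    rw [mem_sphere_zero_iff_norm]
    exact Te_i_norm d a.1 (mem_sphere_zero_iff_norm.1 a.2)⟩,
    Continuous.subtype_mk ((Te_i_cont d).comp continuous_subtype_val) _⟩

theorem Te_j_neg (d : ℕ) (a : Cel.Sph d) : Te_j d (-a) = -Te_j d a :=
  Subtype.ext (Te_i_neg d a.1)

theorem pTe : S_Te := by
  intro E A _ _ i k hH d
  obtain ⟨H⟩ := hH
  refine ⟨fun p => (H (p.1, p.2.1)).1 (Te_j d p.2.2), ?_, ?_, ?_, ?_, ?_⟩
  · have h1 : Continuous fun q : I × (A → I) => (H q).1.comp (Te_j d) :=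
      (ContinuousMap.continuous_precomp (Te_j d)).comp
        (continuous_subtype_val.comp (map_continuous H))
    have h2 : Continuous fun p : I × (A → I) × Cel.Sph d => (p.1, p.2.1) := by fun_prop
    have h3 : Continuous fun p : I × (A → I) × Cel.Sph d => p.2.2 := by fun_prop
    exact continuous_eval.comp ((h1.comp h2).prodMk h3)
  · intro s a
    show (H (0, s)).1 (Te_j d a) = _
    have h1 : H (0, s) = pw i (UT E A) k s := H.apply_zero s
    rw [h1, pw_apply]
    cases sel i k s with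
    | none => rfl
    | some s' => rfl
  · intro s a
    show (H (1, s)).1 (Te_j d a) = _
    have h1 : H (1, s) = (GenLoop.const : GenLoop A (E.T A) (E.Tpt A)) s := H.apply_one s
    rw [h1]
    rfl
  · intro t s hs a
    show (H (t, s)).1 (Te_j d a) = _
    have h1 : H (t, s) = pw i (UT E A) k s := H.eq_fst t hs
    have h2 : pw i (UT E A) k s = E.Tpt A := (pw i (UT E A) k).2 s hs
    rw [h1, h2]
    rfl
  · intro t s a
    show (H (t, s)).1 (Te_j d (-a)) = CSRS.Qmap (CSRS.sw A) ((H (t, s)).1 (Te_j d a))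
    rw [Te_j_neg]
    exact (H (t, s)).2 _

end Pool.Agent.Tate.Ext
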