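import Pool.Agent.Lib.Tate.X.Spec

/-!
# C42 (MP_071d69_gt), X/Th: stabilisation preserves homotopies (helper82)
-/

set_option linter.unusedSectionVars false

open Topology unitInterval Filter Set
open scoped Topology.Homotopy

noncomputable section

namespace Pool.Agent.Tate.Ext

/-- The action of a boundary point is trivial. -/
theorem Th_bdry {E : CSRS} {A C : Type} [Fintype A] [DecidableEq A] [Fintype C] [DecidableEq C]
    (x : E.T A) (t : C → I) (ht : t ∈ Cube.boundary C) : CSRS.Tact x t = E.Tpt (A ⊕ C) := by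
  obtain ⟨i, hi⟩ := ht
  apply Subtype.ext
  ext e
  show CSRS.Qmap (CSRS.ds A C) (CSRS.Qact (C × Bool) _ _) = E.Qpt _
  rw [CSRS.Qact_bdry _ ⟨(i, false), hi⟩, CSRS.Qmap_pt]

/-- **Th.** Stabilisation preserves homotopies. -/
theorem pTh : S_Th := by
  intro E N A C _ _ _ _ f g H
  obtain ⟨H⟩ := H
  have hc : Continuous fun p : I × (N ⊕ C → I) =>
      CSRS.Tact (H (p.1, p.2 ∘ Sum.inl) : E.T A) (p.2 ∘ Sum.inr) := by
    refine CSRS.continuous_Tact.comp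
      (f := fun p : I × (N ⊕ C → I) => ((H (p.1, p.2 ∘ Sum.inl) : E.T A), p.2 ∘ Sum.inr)) ?_
    refine Continuous.prodMk (H.continuous.comp (continuous_fst.prodMk ?_)) (by fun_prop)
    fun_prop
  refine ⟨⟨⟨⟨fun p => CSRS.Tact (H (p.1, p.2 ∘ Sum.inl) : E.T A) (p.2 ∘ Sum.inr), hc⟩, ?_, ?_⟩,
    ?_⟩⟩
  · intro s
    show CSRS.Tact (H (0, s ∘ Sum.inl) : E.T A) (s ∘ Sum.inr) = CSRS.Tact (f (s ∘ Sum.inl)) _
    rw [H.apply_zero]
    rfl
  · intro s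
    show CSRS.Tact (H (1, s ∘ Sum.inl) : E.T A) (s ∘ Sum.inr) = CSRS.Tact (g (s ∘ Sum.inl)) _
    rw [H.apply_one]
    rfl
  · rintro t s ⟨i | i, hi⟩
    · show CSRS.Tact (H (t, s ∘ Sum.inl) : E.T A) (s ∘ Sum.inr) = CSRS.Tact (f (s ∘ Sum.inl)) _
      have hb : s ∘ Sum.inl ∈ Cube.boundary N := ⟨i, hi⟩
      rw [H.eq_fst t hb]
      rfl
    · show CSRS.Tact (H (t, s ∘ Sum.inl) : E.T A) (s ∘ Sum.inr) = CSRS.Tact (f (s ∘ Sum.inl)) _
      rw [Th_bdry _ _ ⟨i, hi⟩, Th_bdry _ _ ⟨i, hi⟩]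

end Pool.Agent.Tate.Ext
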