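import Pool.Agent.Lib.Tate.X.Spec

/-!
# C42 (MP_071d69_gt), X/Tk: compact subsets of the telescope (helper25, task 12478)
-/

set_option autoImplicit false
set_option linter.unusedSectionVars false

open Topology unitInterval Filter Set
open scoped Topology.Homotopy ZeroAtInfty OnePoint

noncomputable section

namespace Pool.Agent.Tate.Ext

theorem pTk (h1 : S_T1) : S_Tk := by
  intro Y _ φ y₀ hT K _ _ f hf
  have hT1 : T1Space (Tel Y φ y₀) := h1 Y φ y₀ hT
  by_contra hcon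
  have hcon' : ∀ M, ∃ k, ∀ m < M, ∀ (t : I) (y : Y m), f k ≠ Tel.mk m t y := by
    intro M
    by_contra h
    push Not at h
    exact hcon ⟨M, h⟩
  choose k hk using hcon'
  have hopen : ∀ j, IsOpen {z : Tel Y φ y₀ | ∃ i, j ≤ i ∧ z = f (k i)}ᶜ := by
    intro j
    rw [isOpen_compl_iff]
    refine (Tel.isQuotientMap (Y := Y) (φ := φ) (y₀ := y₀)).isClosed_preimage.1 ?_
    rw [isClosed_sigma_iff]
    intro m
    have hs : Continuous fun p : I × Y m => (⟨m, p⟩ : Σ m, I × Y m) :=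
      @continuous_sigmaMk ℕ (fun m => I × Y m) _ m
    have hq : Continuous fun p : I × Y m => (Tel.mk m p.1 p.2 : Tel Y φ y₀) :=
      Tel.isQuotientMap.continuous.comp hs
    have e : {p : I × Y m | ∃ i, j ≤ i ∧ (Tel.mk m p.1 p.2 : Tel Y φ y₀) = f (k i)} =
        ⋃ i ∈ Finset.Icc j m, {p : I × Y m | (Tel.mk m p.1 p.2 : Tel Y φ y₀) = f (k i)} := by
      ext ⟨t, y⟩
      simp only [mem_iUnion, exists_prop, Finset.mem_Icc, mem_ofPred_eq]
      constructor
      · rintro ⟨i, hi, h⟩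
        refine ⟨i, ⟨hi, ?_⟩, h⟩
        by_contra hmi
        exact hk i m (not_le.1 hmi) t y h.symm
      · rintro ⟨i, ⟨hi, -⟩, h⟩
        exact ⟨i, hi, h⟩
    have hcl : IsClosed (⋃ i ∈ Finset.Icc j m,
        {p : I × Y m | (Tel.mk m p.1 p.2 : Tel Y φ y₀) = f (k i)}) :=
      Set.Finite.isClosed_biUnion (Finset.finite_toSet _) fun i _ => isClosed_singleton.preimage hq
    exact (congrArg IsClosed e).mpr hcl
  have hcov : Set.range f ⊆ ⋃ j, {z : Tel Y φ y₀ | ∃ i, j ≤ i ∧ z = f (k i)}ᶜ := by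
    intro z _
    refine Tel.ind (motive := fun z => z ∈ ⋃ j, {z : Tel Y φ y₀ | ∃ i, j ≤ i ∧ z = f (k i)}ᶜ)
      (fun m t y => ?_) z
    rw [mem_iUnion]
    refine ⟨m + 1, ?_⟩
    rintro ⟨i, hi, h⟩
    exact hk i m (by omega) t y h.symm
  have hdir : Directed (· ⊆ ·) fun j => {z : Tel Y φ y₀ | ∃ i, j ≤ i ∧ z = f (k i)}ᶜ := by
    refine directed_of_isDirected_le fun a b hab z hz h => hz ?_
    obtain ⟨i, hi, e⟩ := h
    exact ⟨i, hab.trans hi, e⟩
  obtain ⟨j, hj⟩ := (isCompact_range hf).elim_directed_cover _ hopen hcov hdir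
  exact hj ⟨k j, rfl⟩ ⟨j, le_rfl, rfl⟩

end Pool.Agent.Tate.Ext
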