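import Pool.Agent.Lib.Tate.X.Spec

/-!
# C42 (MP_071d69_gt), X/Tm: the null homotopy at a finite stage (helper39)
-/

set_option autoImplicit false
set_option linter.unusedSectionVars false

open Topology unitInterval Filter Set
open scoped Topology.Homotopy ZeroAtInfty OnePoint

noncomputable section

namespace Pool.Agent.Tate.Ext

theorem pTm (h1 : S_Ts) (h2 : S_Tc) (h3 : S_TQ) (h4 : S_Te) : S_Tm := by
  intro E hE A _ _ i k hpw d
  obtain ⟨F, hFc, hF0, hF1, hFb, hFe⟩ := h4 E A i k hpw d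
  obtain ⟨hTH, hUB, hQm, hQp, hQc⟩ := h3 E (A × Bool) hE
  obtain ⟨M₀, hM₀⟩ := h1 _ _ _ hTH (I × (A → I) × Cel.Sph d) F hFc
  refine ⟨M₀, fun M hM => ?_⟩
  obtain ⟨g, hg, hgF⟩ := hM₀ M hM
  have inj : ∀ g g' : E.L (Fin M) ((A × Bool) ⊕ Fin M),
      (CSRS.Qmk M 0 g : E.Q (A × Bool)) = CSRS.Qmk M 0 g' → g = g' :=
    fun g g' h => (h2 _ _ _ hTH M).injective h
  have hgF' : ∀ x, TRQ E (A × Bool) M (F x) = CSRS.Qmk M 0 (g x) := hgF
  have hconst : ∀ x, F x = E.Qpt _ → g x = GenLoop.const := by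
    intro x hx
    apply inj
    rw [← hgF', hx, hQp, ← hQc]
  refine ⟨fun x => g (x.1, x.2.2 ∘ Sum.inl, x.2.1) (x.2.2 ∘ Sum.inr), ?_, ?_, ?_, ?_, ?_⟩
  · refine Continuous.eval (hg.comp ?_) ?_
    · exact continuous_fst.prodMk ((continuous_pi fun j =>
        (continuous_apply (Sum.inl j)).comp (continuous_snd.comp continuous_snd)).prodMk
        (continuous_fst.comp continuous_snd))
    · exact continuous_pi fun j =>
        (continuous_apply (Sum.inr j)).comp (continuous_snd.comp continuous_snd)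
  · intro a s
    have hs : sel (Sum.inl i : QQ A M) k s =
        (sel i k (s ∘ Sum.inl)).map fun s' => Sum.elim s' (s ∘ Sum.inr) := by
      rw [← sel_inl, Sum.elim_comp_inl_inr]
    show g (0, s ∘ Sum.inl, a) (s ∘ Sum.inr) = _
    rw [hs]
    cases hsel : sel i k (s ∘ Sum.inl) with
    | none =>
      rw [hconst _ (by rw [hF0, hsel]; rfl)]
      rfl
    | some s' =>
      have hgg : g (0, s ∘ Sum.inl, a) = UQ (fun p : A × Bool => s' p.1) M := by
        apply inj
        rw [← hgF', hF0, hsel]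
        exact hUB _ M
      rw [hgg, UQ_apply]
      show E.unit (JJ A M) _ = E.unit (JJ A M) _
      congr 1
      funext j
      rcases j with j | j <;> rfl
  · intro a s
    show g (1, s ∘ Sum.inl, a) (s ∘ Sum.inr) = _
    rw [hconst _ (hF1 _ _)]
    rfl
  · intro t a s hs
    show g (t, s ∘ Sum.inl, a) (s ∘ Sum.inr) = _
    rcases Cube.boundary_sum_iff.mp hs with h | h
    · rw [hconst _ (hFb _ _ h _)]
      rfl
    · exact (g (t, s ∘ Sum.inl, a)).2 _ h
  · intro t a s
    show g (t, s ∘ Sum.inl, -a) (s ∘ Sum.inr) =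
      E.map (tau A M) (g (t, s ∘ Sum.inl, a) (s ∘ Sum.inr))
    have hgg : g (t, s ∘ Sum.inl, -a) = CSRS.Qmap' (CSRS.sw A) M (g (t, s ∘ Sum.inl, a)) := by
      apply inj
      rw [← hgF', hFe, hQm, hgF']
      rfl
    rw [hgg]
    rfl

end Pool.Agent.Tate.Ext
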