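import Pool.Agent.Lib.Tate.X.Spec

/-!
# C42 (MP_071d69_gt), X/Tn: a multiple of the unit class is trivial after a stabilisation (helper82)
-/

set_option linter.unusedSectionVars false

open Topology unitInterval Filter Set
open scoped Topology.Homotopy

noncomputable section

namespace Pool.Agent.Tate.Ext

theorem Tn_const {E : CSRS} {N A C : Type} [Fintype A] [DecidableEq A] [Fintype C]
    [DecidableEq C] :
    CSRS.Tst C (GenLoop.const : GenLoop N (E.T A) (E.Tpt A)) = GenLoop.const := by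
  apply GenLoop.ext
  intro s
  exact CSRS.Tact_pt _

/-- **Tn.** A multiple of the unit class is trivial after a stabilisation. -/
theorem pTn (h1 : S_Th) (h2 : S_Tu) : S_Tn := by
  intro E hE
  obtain ⟨k, n, g, hk, hg, hT⟩ := hE Unit Unit (gcl (UT E Unit))
  refine ⟨k, n, hk, ?_⟩
  have hg' : GenLoop.Homotopic g (pw () (UT E Unit) k) := by
    refine gcl_eq.1 ?_
    rw [gcl_pw]
    exact hg
  have a1 : GenLoop.Homotopic (pw (Sum.inl ()) (UT E (Unit ⊕ Fin n)) k) GenLoop.const := by
    rw [← h2 E Unit (Fin n) () k]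
    exact (h1 E Unit Unit (Fin n) _ _ hg'.symm).trans hT
  have a2 := h1 E (Unit ⊕ Fin n) (Unit ⊕ Fin n) (Fin (n + 1)) _ _ a1
  rw [Tn_const, h2 E (Unit ⊕ Fin n) (Fin (n + 1)) (Sum.inl ()) k] at a2
  exact a2

end Pool.Agent.Tate.Ext
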