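import Pool.Agent.Lib.Tate.X.Spec

/-!
# C42 (MP_071d69_gt), block X, statement Ts: compression of a compact family to a stage
-/

open Topology unitInterval Filter Set

noncomputable section

namespace Pool.Agent.Tate.Ext

private theorem Ts_fst {Y : ℕ → Type} {φ : ∀ m, Y m → Y (m + 1)} (n : ℕ) (p : Σ m, Y m) :
    ((sgm φ)^[n] p).1 = p.1 + n := by
  induction n with
  | zero => rfl
  | succ n ih =>
    rw [Function.iterate_succ_apply']
    show ((sgm φ)^[n] p).1 + 1 = _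
    rw [ih]
    rfl

theorem pTs (h1 : S_Tc) (h2 : S_Tk) (h3 : S_TR) : S_Ts := by
  intro Y _ φ y₀ h K _ _ f hf
  obtain ⟨M₀, hM₀⟩ := h2 Y φ y₀ h K f hf
  refine ⟨M₀, fun M hM => ?_⟩
  have h4 : ∀ k, ∃ y : Y M, TR h.base M (f k) = Tel.mk M 0 y := by
    intro k
    obtain ⟨m, hm, t, y, hk⟩ := hM₀ k
    have hmM : m < M := hm.trans_le hM
    rw [hk, TR_mk_lt h.base hmM]
    have h5 := Ts_fst (φ := φ) (M - m) ⟨m, y⟩
    have h6 : (⟨m, y⟩ : Σ m, Y m).1 + (M - m) = M := by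
      show m + (M - m) = M
      omega
    rw [h6] at h5
    generalize (sgm φ)^[M - m] ⟨m, y⟩ = p at h5 ⊢
    obtain ⟨M', y'⟩ := p
    have h7 : M' = M := h5
    subst h7
    exact ⟨y', rfl⟩
  choose g hg using h4
  refine ⟨g, ?_, hg⟩
  rw [(h1 Y φ y₀ h M).isEmbedding.continuous_iff]
  have h5 : ((fun y : Y M => (Tel.mk M 0 y : Tel Y φ y₀)) ∘ g) = TR h.base M ∘ f := by
    funext k
    exact (hg k).symm
  rw [h5]
  exact (h3 Y φ y₀ h M).comp hf

end Pool.Agent.Tate.Ext
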