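import Pool.Agent.Lib.Tate.X.Spec

/-!
# C42 (MP_071d69_gt), X/Tu: stabilisation of multiples of the unit class (helper82)
-/

set_option linter.unusedSectionVars false

open Topology unitInterval Filter Set
open scoped Topology.Homotopy

noncomputable section

namespace Pool.Agent.Tate.Ext

/-- Stabilisation of the unit class, pointwise. -/
theorem Tu_act {E : CSRS} {A C : Type} [Fintype A] [DecidableEq A] [Fintype C] [DecidableEq C]
    (s : A → I) (t : C → I) :
    CSRS.Tact (UT E A s) t = UT E (A ⊕ C) (Sum.elim s t) := by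
  apply Subtype.ext
  ext e
  rw [CSRS.Tact_apply, UT_apply, UT_apply, Qact_UB, Qmap_UB]
  refine congrArg UB ?_
  funext p
  rcases p with ⟨p | p, b⟩ <;> rfl

/-- **Tu.** Stabilisation of the multiples of the unit class. -/
theorem pTu : S_Tu := by
  intro E A C _ _ _ _ i k
  apply GenLoop.ext
  intro s
  have hs : s = Sum.elim (s ∘ Sum.inl) (s ∘ Sum.inr) := by
    funext j
    rcases j with j | j <;> rfl
  have h1 : pw (Sum.inl i) (UT E (A ⊕ C)) k s =
      ((sel i k (s ∘ Sum.inl)).map fun s' => Sum.elim s' (s ∘ Sum.inr)).elim (E.Tpt (A ⊕ C))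
        (UT E (A ⊕ C)) := by
    rw [pw_apply]
    conv_lhs => rw [hs]
    rw [sel_inl]
  show CSRS.Tact (pw i (UT E A) k (s ∘ Sum.inl)) (s ∘ Sum.inr) = _
  rw [h1, pw_apply]
  rcases sel i k (s ∘ Sum.inl) with _ | s'
  · exact CSRS.Tact_pt _
  · exact Tu_act s' (s ∘ Sum.inr)

end Pool.Agent.Tate.Ext
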