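import Pool.Agent.Lib.Tate.X.Spec

/-!
# C42, block X: maps on cubes which are trivial on the boundary vanish at infinity (`S_Va`)
-/

set_option autoImplicit false

open Topology unitInterval Filter Set
open scoped Topology.Homotopy ZeroAtInfty OnePoint

noncomputable section

namespace Pool.Agent.Tate.Ext

theorem pVa (h1 : Cel.S_Ha) (h2 : Ec.S_Ri) (h3 : Wi.S_Rh) : S_Va := by
  intro K Q Y _ _ _ _ _ y0 H hH hb
  classical
  obtain ⟨-, hne, hr, -, hric, -⟩ := h2
  have hm : Continuous fun z : (K × (Q → ℝ)) × ℝ =>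
      ((Set.projIcc 0 1 zero_le_one z.2, z.1.1, Ec.ri ∘ z.1.2) : I × K × (Q → I)) := by
    refine (continuous_projIcc.comp continuous_snd).prodMk
      ((continuous_fst.comp continuous_fst).prodMk ?_)
    refine continuous_pi fun q => ?_
    exact hric.comp ((continuous_apply q).comp (continuous_snd.comp continuous_fst))
  rw [h1]
  refine ⟨(hH.comp hm).continuousOn, ?_⟩
  refine tendsto_nhds.2 fun N hN hy => ?_
  rw [Filter.mem_inf_principal, Filter.mem_cocompact]
  have hD : IsCompact {x : I × K × (Q → I) | H x ∉ N} :=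
    (hN.isClosed_compl.preimage hH).isCompact
  have hDb : ∀ x ∈ {x : I × K × (Q → I) | H x ∉ N}, x.2.2 ∉ Cube.boundary Q := by
    rintro ⟨t, a, s⟩ hx hs
    apply hx
    show H (t, a, s) ∈ N
    rw [hb t a s hs]
    exact hy
  have hc : ContinuousOn (fun x : I × K × (Q → I) =>
      (((x.2.1, fun q => rho (x.2.2 q)), (x.1 : ℝ)) : (K × (Q → ℝ)) × ℝ))
      {x : I × K × (Q → I) | H x ∉ N} := by
    refine ContinuousOn.prodMk (ContinuousOn.prodMk
      (continuous_fst.comp continuous_snd).continuousOn ?_)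
      (continuous_subtype_val.comp continuous_fst).continuousOn
    refine continuousOn_pi.2 fun q => ?_
    refine h3.1.comp ((continuous_apply q).comp
      (continuous_snd.comp continuous_snd)).continuousOn fun x hx => ?_
    have h4 : ¬ ∃ i, x.2.2 i = 0 ∨ x.2.2 i = 1 := hDb x hx
    push Not at h4
    exact h4 q
  refine ⟨_, hD.image_of_continuousOn hc, ?_⟩
  intro z hz hzI
  by_contra hcon
  apply hz
  refine ⟨(Set.projIcc 0 1 zero_le_one z.2, z.1.1, Ec.ri ∘ z.1.2), hcon, ?_⟩
  refine Prod.ext (Prod.ext rfl ?_) ?_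
  · funext q
    exact hr (z.1.2 q)
  · show ((Set.projIcc 0 1 zero_le_one z.2 : I) : ℝ) = z.2
    rw [Set.projIcc_of_mem _ hzI.2]

end Pool.Agent.Tate.Ext
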