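import Pool.Agent.Lib.Tate.X.T1
import Pool.Agent.Lib.Tate.X.Tc
import Pool.Agent.Lib.Tate.X.Tk
import Pool.Agent.Lib.Tate.X.TR
import Pool.Agent.Lib.Tate.X.Ts
import Pool.Agent.Lib.Tate.X.TQ
import Pool.Agent.Lib.Tate.X.Th
import Pool.Agent.Lib.Tate.X.Tu
import Pool.Agent.Lib.Tate.X.Tn
import Pool.Agent.Lib.Tate.X.Te
import Pool.Agent.Lib.Tate.X.Tm
import Pool.Agent.Lib.Tate.X.Bp
import Pool.Agent.Lib.Tate.X.Rt
import Pool.Agent.Lib.Tate.X.LL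
import Pool.Agent.Lib.Tate.X.Ba
import Pool.Agent.Lib.Tate.X.Pj
import Pool.Agent.Lib.Tate.X.Rv
import Pool.Agent.Lib.Tate.X.Bs
import Pool.Agent.Lib.Tate.X.Lk
import Pool.Agent.Lib.Tate.X.Cu
import Pool.Agent.Lib.Tate.X.Va
import Pool.Agent.Lib.Tate.X.Iv
import Pool.Agent.Lib.Tate.X.T4
import Pool.Agent.Lib.Tate.R.Ec.Ri
import Pool.Agent.Lib.Tate.W.Rh
import Pool.Agent.Lib.Tate.Inj.Ha

/-!
# C42 (MP_071d69_gt), block X: assembly (helper39)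

All statements of `X/Spec.lean`, without hypotheses.
-/

noncomputable section

namespace Pool.Agent.Tate.Ext

theorem qTc : S_Tc := pTc

theorem qTk : S_Tk := pTk pT1

theorem qTs : S_Ts := pTs qTc qTk pTR

theorem qTn : S_Tn := pTn pTh pTu

theorem qTm : S_Tm := pTm qTs qTc pTQ pTe

theorem qLL : S_LL := pLL Wi.pRh

theorem qPj : S_Pj := pPj pBa

theorem qRv : S_Rv := pRv pRt pBa

theorem qBs : S_Bs := pBs pBp

theorem qLk : S_Lk := pLk qLL qPj qRv qBs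

theorem qCu : S_Cu := pCu qTn qTm qLL qPj qLk

theorem qVa : S_Va := pVa Cel.pHa Ec.pRi Wi.pRh

/-- **T4.** The extraction. -/
theorem qT4 : S_T4 := pT4 qCu Ec.pRi qVa pIv

end Pool.Agent.Tate.Ext
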