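import Pool.Agent.Lib.Tate.WitDefs
import Pool.Agent.Lib.Tate.W.Re
import Pool.Agent.Lib.Tate.Inj.Spec

/-!
# C42 (MP_071d69_gt), block X (helper39): labels

Sums of configurations with orthogonal labels (`Conf.add`), transport along a homeomorphism
(`Conf.hom`), conjugation with a unitary matrix (`Conf.cj`); the loops `LLf p` (one point on the
diagonal with an invariant label `p`), the action of the group on all configurations.
-/

set_option linter.unusedSectionVars false

open Topology unitInterval Filter Set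
open scoped Topology.Homotopy ZeroAtInfty

noncomputable section

namespace Pool.Agent.Tate

namespace Conf

variable {Y Y' J : Type} [Fintype J]

theorem orth_symm {c d : Conf Y J} (h : ∀ y y', c.P y * d.P y' = 0) (y y' : Y) :
    d.P y * c.P y' = 0 := by
  have h1 := congrArg Matrix.conjTranspose (h y' y)
  rw [Matrix.conjTranspose_mul, (c.herm y').eq, (d.herm y).eq, Matrix.conjTranspose_zero] at h1
  exact h1

/-- The sum of two configurations with orthogonal labels. -/
def add (c d : Conf Y J) (h : ∀ y y', c.P y * d.P y' = 0) : Conf Y J where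
  P y := c.P y + d.P y
  fin := by
    refine (c.fin.union d.fin).subset ?_
    intro y hy
    by_contra hn
    rw [Set.mem_union, not_or] at hn
    apply hy
    have h1 : c.P y = 0 := by
      by_contra h1
      exact hn.1 h1
    have h2 : d.P y = 0 := by
      by_contra h2
      exact hn.2 h2
    rw [h1, h2, add_zero]
  herm y := (c.herm y).add (d.herm y)
  idem y := by
    rw [add_mul, mul_add, mul_add, h, orth_symm h, c.idem, d.idem, add_zero, zero_add]
  orth y y' hne := by
    rw [add_mul, mul_add, mul_add, h, orth_symm h, c.orth _ _ hne, d.orth _ _ hne]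
    simp

theorem add_P (c d : Conf Y J) (h : ∀ y y', c.P y * d.P y' = 0) (y : Y) :
    (add c d h).P y = c.P y + d.P y := rfl

theorem ev_add (c d : Conf Y J) (h : ∀ y y', c.P y * d.P y' = 0) (f : Y → ℝ) :
    (add c d h).ev f = c.ev f + d.ev f := by
  unfold ev
  rw [← finsum_add_distrib]
  · refine finsum_congr fun y => ?_
    rw [add_P, smul_add]
  · refine c.fin.subset ?_
    intro y hy h0
    exact hy (by
      show (f y : ℂ) • c.P y = 0
      rw [show c.P y = 0 from h0, smul_zero])
  · refine d.fin.subset ?_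
    intro y hy h0
    exact hy (by
      show (f y : ℂ) • d.P y = 0
      rw [show d.P y = 0 from h0, smul_zero])

/-- A family of sums is continuous. -/
theorem continuous_add [TopologicalSpace Y] {X : Type*} [TopologicalSpace X] {c d : X → Conf Y J}
    (hc : Continuous c) (hd : Continuous d) (h : ∀ x y y', (c x).P y * (d x).P y' = 0) :
    Continuous fun x => add (c x) (d x) (h x) := by
  rw [continuous_iff]
  intro f
  simp only [ev_add]
  exact (continuous_iff.1 hc f).add (continuous_iff.1 hd f)

theorem add_default (c : Conf Y J) (h : ∀ y y', c.P y * (default : Conf Y J).P y' = 0) :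
    add c default h = c := by
  ext y : 2
  rw [add_P, default_P, add_zero]

theorem default_add (d : Conf Y J) (h : ∀ y y', (default : Conf Y J).P y * d.P y' = 0) :
    add default d h = d := by
  ext y : 2
  rw [add_P, default_P, zero_add]

/-- Transport along a homeomorphism. -/
def hom [TopologicalSpace Y] [TopologicalSpace Y'] (e : Y ≃ₜ Y') (c : Conf Y J) : Conf Y' J where
  P y := c.P (e.symm y)
  fin := c.fin.preimage (e.symm.injective.injOn)
  herm _ := c.herm _
  idem _ := c.idem _
  orth _ _ h := c.orth _ _ fun h' => h (e.symm.injective h')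

theorem hom_P [TopologicalSpace Y] [TopologicalSpace Y'] (e : Y ≃ₜ Y') (c : Conf Y J) (y : Y') :
    (hom e c).P y = c.P (e.symm y) := rfl

theorem ev_hom [TopologicalSpace Y] [TopologicalSpace Y'] (e : Y ≃ₜ Y') (c : Conf Y J)
    (f : Y' → ℝ) : (hom e c).ev f = c.ev (f ∘ e) := by
  unfold ev
  rw [← finsum_comp_equiv e.toEquiv]
  refine finsum_congr fun y => ?_
  show (f (e y) : ℂ) • c.P (e.symm (e y)) = _
  rw [e.symm_apply_apply]
  rfl

theorem continuous_hom [TopologicalSpace Y] [TopologicalSpace Y'] (e : Y ≃ₜ Y') :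
    Continuous (hom e : Conf Y J → Conf Y' J) := by
  rw [continuous_iff]
  intro f
  simp only [ev_hom]
  have h : (f : Y' → ℝ) ∘ e = (⟨⟨f ∘ e, f.continuous.comp e.continuous⟩,
    f.zero_at_infty'.comp e.isClosedEmbedding.tendsto_cocompact⟩ : C₀(Y, ℝ)) := rfl
  rw [h]
  exact continuous_iff.1 continuous_id _

/-- Conjugation of all labels with a unitary matrix. -/
def cj [DecidableEq J] (U : Matrix J J ℂ) (hU : U.conjTranspose * U = 1) (c : Conf Y J) :
    Conf Y J where
  P y := U * c.P y * U.conjTranspose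
  fin := c.fin.subset fun y hy h0 => hy (by rw [show c.P y = 0 from h0, mul_zero, zero_mul])
  herm y := by
    show (U * c.P y * U.conjTranspose).conjTranspose = _
    rw [Matrix.conjTranspose_mul, Matrix.conjTranspose_mul, Matrix.conjTranspose_conjTranspose,
      (c.herm y).eq, mul_assoc]
  idem y := by
    calc U * c.P y * U.conjTranspose * (U * c.P y * U.conjTranspose)
        = U * c.P y * (U.conjTranspose * U) * c.P y * U.conjTranspose := by
          simp only [mul_assoc]
      _ = U * (c.P y * c.P y) * U.conjTranspose := by rw [hU, mul_one]; simp only [mul_assoc]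
      _ = _ := by rw [c.idem]
  orth y y' h := by
    calc U * c.P y * U.conjTranspose * (U * c.P y' * U.conjTranspose)
        = U * c.P y * (U.conjTranspose * U) * c.P y' * U.conjTranspose := by
          simp only [mul_assoc]
      _ = U * (c.P y * c.P y') * U.conjTranspose := by rw [hU, mul_one]; simp only [mul_assoc]
      _ = _ := by rw [c.orth _ _ h, mul_zero, zero_mul]

theorem cj_P [DecidableEq J] (U : Matrix J J ℂ) (hU : U.conjTranspose * U = 1) (c : Conf Y J)
    (y : Y) : (cj U hU c).P y = U * c.P y * U.conjTranspose := rfl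

theorem ev_cj [DecidableEq J] (U : Matrix J J ℂ) (hU : U.conjTranspose * U = 1) (c : Conf Y J)
    (f : Y → ℝ) : (cj U hU c).ev f = U * c.ev f * U.conjTranspose := by
  rw [ev_eq_sum, ev_eq_sum c, Finset.mul_sum, Finset.sum_mul]
  have hsub : (cj U hU c).fin.toFinset ⊆ c.fin.toFinset := by
    intro y hy
    rw [Set.Finite.mem_toFinset] at hy ⊢
    intro h0
    exact hy (by rw [cj_P, show c.P y = 0 from h0, mul_zero, zero_mul])
  rw [Finset.sum_subset hsub]
  · refine Finset.sum_congr rfl fun y _ => ?_
    rw [cj_P, Matrix.mul_smul, Matrix.smul_mul]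
  · intro y _ hy
    rw [Set.Finite.mem_toFinset] at hy
    have : (cj U hU c).P y = 0 := by
      by_contra h
      exact hy h
    rw [this, smul_zero]

end Conf

namespace Ext

variable {A B : Type} [Fintype A] [DecidableEq A] [Fintype B] [DecidableEq B]

/-! ### The full circle acts on configurations -/

/-- The characters of the labels. -/
def chiz (ζ : Circle) (a : A → ZMod 4) : ℂ := ∏ x, (ζ : ℂ) ^ (a x).val

theorem chiz_mul (ζ ξ : Circle) (a : A → ZMod 4) : chiz (ζ * ξ) a = chiz ζ a * chiz ξ a := by
  unfold chiz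
  rw [← Finset.prod_mul_distrib]
  refine Finset.prod_congr rfl fun x _ => ?_
  rw [Circle.coe_mul, mul_pow]

theorem chiz_one (a : A → ZMod 4) : chiz 1 a = 1 := by
  unfold chiz
  simp

theorem norm_chiz (ζ : Circle) (a : A → ZMod 4) :
    chiz ζ a * (starRingEnd ℂ) (chiz ζ a) = 1 := by
  unfold chiz
  rw [map_prod, ← Finset.prod_mul_distrib]
  refine Finset.prod_eq_one fun x _ => ?_
  rw [map_pow, ← mul_pow, Complex.mul_conj, Circle.normSq_coe]
  simp

theorem chiz_comp (ζ : Circle) (e : A ≃ B) (b : B → ZMod 4) : chiz ζ (b ∘ e) = chiz ζ b := by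
  unfold chiz
  exact Fintype.prod_equiv e _ _ fun x => rfl

/-- The diagonal matrix of the characters. -/
def dz (A : Type) [Fintype A] [DecidableEq A] (ζ : Circle) : Mt A (ZMod 4) :=
  Matrix.diagonal (chiz ζ)

theorem dz_unitary (ζ : Circle) : (dz A ζ).conjTranspose * dz A ζ = 1 := by
  unfold dz
  rw [Matrix.diagonal_conjTranspose, Matrix.diagonal_mul_diagonal, ← Matrix.diagonal_one]
  congr 1
  funext a
  rw [Pi.star_apply, mul_comm]
  exact norm_chiz ζ a

/-- The rotation of `(ℝ × ℂ)^A` by `ζ`. -/
def rh (A : Type) [Fintype A] (ζ : Circle) : (A → VV) ≃ₜ (A → VV) where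
  toFun y a := ((y a).1, (ζ : ℂ) * (y a).2)
  invFun y a := ((y a).1, ((ζ⁻¹ : Circle) : ℂ) * (y a).2)
  left_inv y := by
    funext a
    show ((y a).1, ((ζ⁻¹ : Circle) : ℂ) * ((ζ : ℂ) * (y a).2)) = y a
    rw [← mul_assoc, ← Circle.coe_mul, inv_mul_cancel, Circle.coe_one, one_mul]
  right_inv y := by
    funext a
    show ((y a).1, (ζ : ℂ) * (((ζ⁻¹ : Circle) : ℂ) * (y a).2)) = y a
    rw [← mul_assoc, ← Circle.coe_mul, mul_inv_cancel, Circle.coe_one, one_mul]
  continuous_toFun := by fun_prop
  continuous_invFun := by fun_prop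

/-- The action of `ζ` on configurations. -/
def rotz (ζ : Circle) (c : CW A) : CW A := (c.hom (rh A ζ)).cj (dz A ζ) (dz_unitary ζ)

theorem rotz_P (ζ : Circle) (c : CW A) (y : A → VV) (a b : A → ZMod 4) :
    (rotz ζ c).P y a b = chiz ζ a * (starRingEnd ℂ) (chiz ζ b) * c.P ((rh A ζ).symm y) a b := by
  show (dz A ζ * c.P ((rh A ζ).symm y) * (dz A ζ).conjTranspose) a b = _
  unfold dz
  rw [Matrix.diagonal_conjTranspose, Matrix.mul_diagonal, Matrix.diagonal_mul]
  show chiz ζ a * _ * (starRingEnd ℂ) (chiz ζ b) = _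
  ring

theorem continuous_rotz (ζ : Circle) : Continuous (rotz ζ : CW A → CW A) := by
  rw [Conf.continuous_iff]
  intro f
  unfold rotz
  simp only [Conf.ev_cj]
  have h := Conf.continuous_iff.1 (Conf.continuous_hom (J := A → ZMod 4) (rh A ζ)) f
  exact (continuous_const.matrix_mul h).matrix_mul continuous_const

/-! ### The group action on configurations on `(A × C₂) ⊕ Fin M` -/

/-- The index set `(A × C₂) ⊕ Fin M`. -/
abbrev JJ (A : Type) (M : ℕ) : Type := (A × Bool) ⊕ Fin M

/-- The index set of the source. -/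
abbrev QQ (A : Type) (M : ℕ) : Type := A ⊕ Fin M

/-- The projection of the index sets. -/
def prj (A : Type) (M : ℕ) : JJ A M → QQ A M := Sum.map Prod.fst id

/-- The involution of the index set. -/
def tau (A : Type) (M : ℕ) : JJ A M ≃ JJ A M := Equiv.sumCongr (CSRS.sw A) (Equiv.refl _)

theorem tau_tau (M : ℕ) (j : JJ A M) : tau A M (tau A M j) = j := by
  rcases j with ⟨a, b⟩ | j
  · cases b <;> rfl
  · rfl

theorem prj_tau (M : ℕ) (j : JJ A M) : prj A M (tau A M j) = prj A M j := by
  rcases j with ⟨a, b⟩ | j <;> rfl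

/-- The action of a sign on the index set. -/
def tz (A : Type) (M : ℕ) (ε : ℤˣ) : JJ A M ≃ JJ A M := if ε = 1 then Equiv.refl _ else tau A M

theorem tz_mul (M : ℕ) (ε η : ℤˣ) : tz A M (ε * η) = (tz A M η).trans (tz A M ε) := by
  unfold tz
  rcases Int.units_eq_one_or ε with h1 | h1 <;> rcases Int.units_eq_one_or η with h2 | h2 <;>
    subst h1 <;> subst h2
  · rfl
  · rfl
  · rfl
  · ext j
    simp [tau_tau]

theorem re_trans {C : Type} [Fintype C] [DecidableEq C] (e : A ≃ B) (f : B ≃ C) (c : CW A) :
    Conf.re (e.trans f) c = Conf.re f (Conf.re e c) := rfl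

theorem re_rotz (ζ : Circle) (e : A ≃ B) (c : CW A) :
    Conf.re e (rotz ζ c) = rotz ζ (Conf.re e c) := by
  refine Conf.ext (funext fun y => ?_)
  ext a b
  rw [rotz_P]
  show (rotz ζ c).P (y ∘ e) (a ∘ e) (b ∘ e) = _
  rw [rotz_P, chiz_comp, chiz_comp]
  rfl

theorem rotz_one (c : CW A) : rotz 1 c = c := by
  refine Conf.ext (funext fun y => ?_)
  ext a b
  rw [rotz_P, chiz_one, chiz_one, map_one, one_mul, one_mul]
  have : (rh A 1).symm y = y := by
    funext x
    show ((y x).1, (((1 : Circle)⁻¹ : Circle) : ℂ) * (y x).2) = y x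
    rw [inv_one, Circle.coe_one, one_mul]
  rw [this]

theorem rotz_mul (ζ ξ : Circle) (c : CW A) : rotz (ζ * ξ) c = rotz ζ (rotz ξ c) := by
  refine Conf.ext (funext fun y => ?_)
  ext a b
  rw [rotz_P, rotz_P, rotz_P, chiz_mul, chiz_mul, map_mul]
  have : (rh A (ζ * ξ)).symm y = (rh A ξ).symm ((rh A ζ).symm y) := by
    funext x
    show ((y x).1, (((ζ * ξ)⁻¹ : Circle) : ℂ) * (y x).2) =
      ((y x).1, ((ξ⁻¹ : Circle) : ℂ) * (((ζ⁻¹ : Circle) : ℂ) * (y x).2))
    rw [← mul_assoc, ← Circle.coe_mul, mul_inv_rev]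
  rw [this]
  ring

/-- The action of a group `G` with characters `χ : G → {1, -1}` and `ψ : G → S¹` on all
configurations on `(1 + λ) ⊗ ℝ^(A × C₂ ⊕ M)`: `g` acts on `(1 + λ)` and on the labels through
`ψ g`, and `χ g` acts by the permutation of the index set. -/
def actW {G : Type} [Group G] (χ : G →* ℤˣ) (ψ : G →* Circle) (A : Type) [Fintype A]
    [DecidableEq A] (M : ℕ) : Cel.Act G (CW (JJ A M)) where
  a g c := rotz (ψ g) (Conf.re (tz A M (χ g)) c)
  cont g := (continuous_rotz _).comp (Wi.pRe _ _ _)
  one c := by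
    rw [map_one, map_one, rotz_one]
    rfl
  mul g h c := by
    rw [map_mul, map_mul, rotz_mul, tz_mul, re_trans, re_rotz]

theorem actW_a {G : Type} [Group G] (χ : G →* ℤˣ) (ψ : G →* Circle) (M : ℕ) (g : G)
    (c : CW (JJ A M)) : (actW χ ψ A M).a g c = rotz (ψ g) (Conf.re (tz A M (χ g)) c) := rfl

/-! ### Loops with invariant labels -/

/-- The configurations which are invariant also under the permutation `tau`. -/
def FZ (A : Type) [Fintype A] [DecidableEq A] (M : ℕ) : Type :=
  {c : WX (JJ A M) // Wmap (tau A M) c = c}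

instance (A : Type) [Fintype A] [DecidableEq A] (M : ℕ) : TopologicalSpace (FZ A M) :=
  instTopologicalSpaceSubtype

/-- The base point. -/
def FZpt (A : Type) [Fintype A] [DecidableEq A] (M : ℕ) : FZ A M :=
  ⟨Wpt _, by
    apply Subtype.ext
    exact Conf.ext (funext fun y => rfl)⟩

/-- Labels: invariant projections on `(ℂ⁴)^{⊗ (A × C₂ ⊕ M)}`. -/
structure Lbl (A : Type) [Fintype A] [DecidableEq A] (M : ℕ) (p : Mt (JJ A M) (ZMod 4)) :
    Prop where
  herm : p.IsHermitian
  idem : p * p = p
  chi : ∀ a b, p a b = chi a * (starRingEnd ℂ) (chi b) * p a b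
  tau : mre (tau A M) p = p

/-- The position: `u ∈ ℝ^(A ⊕ M)` is sent to `(u ∘ prj, 0)`. -/
def emb (A : Type) (M : ℕ) (u : QQ A M → ℝ) : JJ A M → VV := fun j => (u (prj A M j), 0)

theorem rot_emb (M : ℕ) (u : QQ A M → ℝ) : rot (emb A M u) = emb A M u := by
  funext j
  unfold rot emb
  simp

theorem emb_tau (M : ℕ) (u : QQ A M → ℝ) : emb A M u ∘ tau A M = emb A M u := by
  funext j
  show ((u (prj A M (tau A M j)), 0) : VV) = _
  rw [prj_tau]
  rfl

/-- The point `emb u` with the label `p`. -/
def sgl {M : ℕ} {p : Mt (JJ A M) (ZMod 4)} (hp : Lbl A M p) (u : QQ A M → ℝ) : FZ A M :=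
  ⟨⟨Conf.single (emb A M u) p hp.herm hp.idem, by
      intro y a b
      by_cases hy : y = emb A M u
      · rw [hy, rot_emb, Conf.single_self]
        exact hp.chi a b
      · have hy' : rot y ≠ emb A M u := by
          rw [← rot_emb]
          exact fun h' => hy (rot_injective h')
        rw [Conf.single_ne _ _ _ hy, Conf.single_ne _ _ _ hy']
        simp⟩, by
    apply Subtype.ext
    refine Conf.ext (funext fun y => ?_)
    show mre (tau A M) ((Conf.single (emb A M u) p hp.herm hp.idem).P (y ∘ tau A M)) =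
      (Conf.single (emb A M u) p hp.herm hp.idem).P y
    by_cases hy : y = emb A M u
    · rw [hy, emb_tau, Conf.single_self]
      exact hp.tau
    · have hy' : y ∘ tau A M ≠ emb A M u := by
        intro h'
        apply hy
        rw [← emb_tau] at h'
        exact (tau A M).surjective.injective_comp_right h'
      rw [Conf.single_ne _ _ _ hy, Conf.single_ne _ _ _ hy', mre_zero]⟩

open Classical in
/-- The loop with the label `p`: for a single point of the diagonal. -/
def LLf {M : ℕ} {p : Mt (JJ A M) (ZMod 4)} (hp : Lbl A M p) (s : QQ A M → I) : FZ A M :=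
  if s ∈ Cube.boundary (QQ A M) then FZpt A M else sgl hp fun q => rho (s q)

/-- The multi-index of the `j`-th invariant label. -/
def aj (A : Type) (M j : ℕ) : JJ A M → ZMod 4 :=
  Sum.elim (fun _ => 0) fun x => if x.val = 0 then 1 else if x.val = j + 1 then 3 else 0

/-- The projection onto the span of the basis vectors `aj j`, `j < k`. -/
def Pk (A : Type) [Fintype A] [DecidableEq A] (M k : ℕ) : Mt (JJ A M) (ZMod 4) := by
  classical
  exact Matrix.diagonal fun a => if ∃ j < k, a = aj A M j then 1 else 0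

theorem Pk_herm (M k : ℕ) : (Pk A M k).IsHermitian := by
  unfold Pk Matrix.IsHermitian
  rw [Matrix.diagonal_conjTranspose]
  congr 1
  funext a
  rw [Pi.star_apply]
  split_ifs <;> simp

theorem Pk_idem (M k : ℕ) : Pk A M k * Pk A M k = Pk A M k := by
  unfold Pk
  rw [Matrix.diagonal_mul_diagonal]
  congr 1
  funext a
  split_ifs <;> simp

end Ext

end Pool.Agent.Tate
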