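import Pool.Agent.Lib.Tate.DefsT

/-!
# C42 (MP_071d69_gt), block X (helper39): extraction, definitions, part 1

Reduced telescopes (normal form, the self maps `TR M`), iterated concatenation of generalised loops
(`pw`, `sel`), the unit class of the Tate spectrum.
-/

set_option linter.unusedSectionVars false

open Topology unitInterval Filter Set
open scoped Topology.Homotopy

noncomputable section

namespace Pool.Agent.Tate.Ext

/-! ### Reduced telescopes -/

section Tel

/-- The standing hypotheses on a telescope. -/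
structure TH (Y : ℕ → Type) [∀ m, TopologicalSpace (Y m)] (φ : ∀ m, Y m → Y (m + 1))
    (y₀ : ∀ m, Y m) : Prop where
  cont : ∀ m, Continuous (φ m)
  base : ∀ m, φ m (y₀ m) = y₀ (m + 1)
  t1 : ∀ m, T1Space (Y m)

variable {Y : ℕ → Type} [∀ m, TopologicalSpace (Y m)] {φ : ∀ m, Y m → Y (m + 1)} {y₀ : ∀ m, Y m}

/-- The maps `φ` as a self map of the disjoint union. -/
def sgm (φ : ∀ m, Y m → Y (m + 1)) (p : Σ m, Y m) : Σ m, Y m := ⟨p.1 + 1, φ p.1 p.2⟩

variable (φ y₀) in
/-- The point `y` at the beginning of its cylinder. -/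
def st0 (p : Σ m, Y m) : Tel Y φ y₀ := Tel.mk p.1 0 p.2

theorem sgm_iterate_base (h : ∀ m, φ m (y₀ m) = y₀ (m + 1)) (n m : ℕ) :
    (sgm φ)^[n] ⟨m, y₀ m⟩ = ⟨m + n, y₀ (m + n)⟩ := by
  induction n with
  | zero => rfl
  | succ n ih =>
    rw [Function.iterate_succ_apply', ih]
    show (⟨m + n + 1, φ (m + n) (y₀ (m + n))⟩ : Σ m, Y m) = ⟨m + (n + 1), y₀ (m + (n + 1))⟩
    rw [h]
    rfl

theorem st0_base (m : ℕ) : st0 φ y₀ ⟨m, y₀ m⟩ = Tel.base Y φ y₀ := Tel.mk_base m 0

variable (φ y₀) in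
/-- Push everything below stage `M` to stage `M`. -/
def TR' (M : ℕ) (a : Σ m, I × Y m) : Tel Y φ y₀ :=
  if a.1 < M then st0 φ y₀ ((sgm φ)^[M - a.1] ⟨a.1, a.2.2⟩) else Tel.mk a.1 a.2.1 a.2.2

/-- The self map of the telescope which pushes everything below stage `M` to stage `M`. -/
def TR (h : ∀ m, φ m (y₀ m) = y₀ (m + 1)) (M : ℕ) : Tel Y φ y₀ → Tel Y φ y₀ :=
  Quot.lift (TR' φ y₀ M) (by
    rintro _ _ (⟨m, y⟩ | ⟨m, t⟩)
    · unfold TR'
      by_cases h1 : m < M
      · rw [if_pos (show (⟨m, ((1 : I), y)⟩ : Σ m, I × Y m).1 < M from h1)]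
        have e : M - m = (M - (m + 1)) + 1 := by omega
        show st0 φ y₀ ((sgm φ)^[M - m] ⟨m, y⟩) = _
        rw [e, Function.iterate_succ_apply]
        by_cases h2 : m + 1 < M
        · rw [if_pos (show (⟨m + 1, ((0 : I), φ m y)⟩ : Σ m, I × Y m).1 < M from h2)]
          rfl
        · rw [if_neg (show ¬ (⟨m + 1, ((0 : I), φ m y)⟩ : Σ m, I × Y m).1 < M from h2)]
          have e2 : M - (m + 1) = 0 := by omega
          rw [e2]
          rfl
      · rw [if_neg (show ¬ (⟨m, ((1 : I), y)⟩ : Σ m, I × Y m).1 < M from h1),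
          if_neg (show ¬ (⟨m + 1, ((0 : I), φ m y)⟩ : Σ m, I × Y m).1 < M from
            fun h3 => h1 (by have : m + 1 < M := h3; omega))]
        exact Tel.glue m y
    · have hb : ∀ (m : ℕ) (t : I), TR' φ y₀ M ⟨m, (t, y₀ m)⟩ = Tel.base Y φ y₀ := by
        intro m t
        unfold TR'
        by_cases h1 : m < M
        · rw [if_pos (show (⟨m, (t, y₀ m)⟩ : Σ m, I × Y m).1 < M from h1)]
          show st0 φ y₀ ((sgm φ)^[M - m] ⟨m, y₀ m⟩) = _
          rw [sgm_iterate_base h, st0_base]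
        · rw [if_neg (show ¬ (⟨m, (t, y₀ m)⟩ : Σ m, I × Y m).1 < M from h1)]
          exact Tel.mk_base m t
      rw [hb, hb])

theorem TR_mk_lt (h : ∀ m, φ m (y₀ m) = y₀ (m + 1)) {M m : ℕ} (hm : m < M) (t : I) (y : Y m) :
    TR h M (Tel.mk m t y) = st0 φ y₀ ((sgm φ)^[M - m] ⟨m, y⟩) :=
  if_pos (show (⟨m, (t, y)⟩ : Σ m, I × Y m).1 < M from hm)

theorem TR_mk_ge (h : ∀ m, φ m (y₀ m) = y₀ (m + 1)) {M m : ℕ} (hm : M ≤ m) (t : I) (y : Y m) :
    TR h M (Tel.mk m t y) = Tel.mk m t y :=
  if_neg (show ¬ (⟨m, (t, y)⟩ : Σ m, I × Y m).1 < M from not_lt.2 hm)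

theorem TR_base (h : ∀ m, φ m (y₀ m) = y₀ (m + 1)) (M : ℕ) :
    TR h M (Tel.base Y φ y₀) = Tel.base Y φ y₀ := by
  by_cases hM : 0 < M
  · show TR h M (Tel.mk 0 0 (y₀ 0)) = _
    rw [TR_mk_lt h hM, sgm_iterate_base h, st0_base]
  · exact TR_mk_ge h (not_lt.1 hM) 0 (y₀ 0)

variable (φ y₀) in
open Classical in
/-- Normal form on representatives; `none` is the base point, the time is `< 1`. -/
def nf' (a : Σ m, I × Y m) : Option (Σ m, I × Y m) :=
  if a.2.2 = y₀ a.1 then none else
    if a.2.1 = 1 then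
      (if φ a.1 a.2.2 = y₀ (a.1 + 1) then none else some ⟨a.1 + 1, (0, φ a.1 a.2.2)⟩)
    else some a

/-- Normal form of the points of the telescope. -/
def nf (h : ∀ m, φ m (y₀ m) = y₀ (m + 1)) : Tel Y φ y₀ → Option (Σ m, I × Y m) :=
  Quot.lift (nf' φ y₀) (by
    rintro _ _ (⟨m, y⟩ | ⟨m, t⟩)
    · have h01 : (0 : I) ≠ 1 := zero_ne_one
      unfold nf'
      dsimp only
      by_cases h1 : y = y₀ m
      · subst h1
        rw [if_pos rfl, if_pos (h m)]
      · rw [if_neg h1, if_pos rfl, if_neg h01]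
    · unfold nf'
      dsimp only
      rw [if_pos rfl, if_pos rfl])

theorem nf_mk (h : ∀ m, φ m (y₀ m) = y₀ (m + 1)) (m : ℕ) (t : I) (y : Y m) :
    nf h (Tel.mk m t y) = nf' φ y₀ ⟨m, (t, y)⟩ := rfl

/-- The point with a given normal form. -/
def ofNf (o : Option (Σ m, I × Y m)) : Tel Y φ y₀ :=
  o.elim (Tel.base Y φ y₀) fun a => Tel.mk a.1 a.2.1 a.2.2

theorem ofNf_nf (h : ∀ m, φ m (y₀ m) = y₀ (m + 1)) (x : Tel Y φ y₀) : ofNf (nf h x) = x := by
  refine Tel.ind (motive := fun x => ofNf (nf h x) = x) (fun m t y => ?_) x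
  rw [nf_mk]
  unfold nf'
  dsimp only
  split_ifs with h1 h2 h3
  · subst h1
    exact (Tel.mk_base m t).symm
  · subst h2
    show Tel.base Y φ y₀ = _
    rw [Tel.glue, h3, Tel.mk_base]
  · subst h2
    exact (Tel.glue m y).symm
  · rfl

theorem nf_inj (h : ∀ m, φ m (y₀ m) = y₀ (m + 1)) {x x' : Tel Y φ y₀} :
    x = x' ↔ nf h x = nf h x' :=
  ⟨fun e => e ▸ rfl, fun e => by rw [← ofNf_nf h x, ← ofNf_nf h x', e]⟩

end Tel

/-! ### Iterated concatenation of generalised loops -/

section pw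

variable {N M X X' : Type} [DecidableEq N] [TopologicalSpace X] [TopologicalSpace X'] {x : X}
  {x' : X'}

/-- `u * (u * (... * const))` (`k` times `u`), concatenation in the direction `i`. -/
def pw (i : N) (u : GenLoop N X x) : ℕ → GenLoop N X x
  | 0 => GenLoop.const
  | k + 1 => GenLoop.transAt i u (pw i u k)

/-- The point at which `u` is evaluated in `pw i u k s` (`none`: the value is the base point). -/
def sel (i : N) : ℕ → (N → I) → Option (N → I)
  | 0, _ => none
  | k + 1, s =>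
    if (s i : ℝ) ≤ 1 / 2 then
      some (Function.update s i (Set.projIcc 0 1 zero_le_one (2 * (s i : ℝ))))
    else sel i k (Function.update s i (Set.projIcc 0 1 zero_le_one (2 * (s i : ℝ) - 1)))

theorem transAt_apply (i : N) (f g : GenLoop N X x) (s : N → I) :
    GenLoop.transAt i f g s = if (s i : ℝ) ≤ 1 / 2
      then f (Function.update s i (Set.projIcc 0 1 zero_le_one (2 * (s i : ℝ))))
      else g (Function.update s i (Set.projIcc 0 1 zero_le_one (2 * (s i : ℝ) - 1))) := rfl

theorem pw_apply (i : N) (u : GenLoop N X x) (k : ℕ) (s : N → I) :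
    pw i u k s = (sel i k s).elim x u := by
  induction k generalizing s with
  | zero => rfl
  | succ k ih =>
    show GenLoop.transAt i u (pw i u k) s = _
    rw [transAt_apply]
    unfold sel
    split_ifs with h
    · rfl
    · exact ih _

/-- The homotopy class of a generalised loop. -/
def gcl (u : GenLoop N X x) : HomotopyGroup N X x := Quotient.mk _ u

omit [DecidableEq N] in
theorem gcl_eq {u u' : GenLoop N X x} : gcl u = gcl u' ↔ GenLoop.Homotopic u u' :=
  Quotient.eq (r := GenLoop.Homotopic.setoid N x)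

theorem gcl_transAt [Nonempty N] (i : N) (p q : GenLoop N X x) :
    gcl (GenLoop.transAt i q p) = gcl p * gcl q :=
  (HomotopyGroup.mul_spec (i := i) (p := p) (q := q)).symm

theorem gcl_pw [Nonempty N] (i : N) (u : GenLoop N X x) (k : ℕ) :
    gcl (pw i u k) = gcl u ^ k := by
  induction k with
  | zero => rw [pow_zero]; rfl
  | succ k ih =>
    rw [pow_succ, ← ih]
    exact gcl_transAt i _ _

/-- `sel` on a product of two cubes. -/
theorem sel_inl [DecidableEq M] (i : N) (k : ℕ) (s : N → I) (v : M → I) :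
    sel (Sum.inl i : N ⊕ M) k (Sum.elim s v) = (sel i k s).map fun s' => Sum.elim s' v := by
  induction k generalizing s with
  | zero => rfl
  | succ k ih =>
    have hu : ∀ t : I, Function.update (Sum.elim s v) (Sum.inl i) t =
        Sum.elim (Function.update s i t) v := by
      intro t
      funext j
      rcases j with j | j
      · by_cases hj : j = i
        · subst hj
          simp
        · rw [Function.update_of_ne (fun h => hj (Sum.inl_injective h))]
          simp [Function.update_of_ne hj]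
      · rw [Function.update_of_ne (by simp)]
        rfl
    unfold sel
    rw [hu, hu, ih]
    show (if (s i : ℝ) ≤ 1 / 2 then _ else _) = _
    split_ifs <;> rfl

end pw

/-! ### The unit class -/

section unit

open CSRS

variable {E : CSRS}
variable {N M A B C D A' B' : Type} [Fintype A] [DecidableEq A] [Fintype B] [DecidableEq B]
  [Fintype C] [DecidableEq C] [Fintype D] [DecidableEq D] [Fintype A'] [DecidableEq A']
  [Fintype B'] [DecidableEq B']

theorem up_const (B : Type) [Fintype B] [DecidableEq B] (m : ℕ) :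
    up (E := E) B m GenLoop.const = GenLoop.const := by
  apply GenLoop.ext
  intro s
  rw [up_apply]
  show E.map _ (E.mul (E.pt _) _) = E.pt _
  rw [E.pt_mul, E.map_pt]

variable (E) in
/-- The maps `TR` for `QE(B)`. -/
def TRQ (B : Type) [Fintype B] [DecidableEq B] (M : ℕ) : E.Q B → E.Q B :=
  TR (Y := fun m => E.L (Fin m) (B ⊕ Fin m)) (fun m => up_const B m) M

/-- The point `v ↦ unit (w, v)` of the `m`-th stage of `QE(B)`. -/
def UQ (w : B → I) (m : ℕ) : E.L (Fin m) (B ⊕ Fin m) :=
  ⟨⟨fun v => E.unit (B ⊕ Fin m) (Sum.elim w v), (E.unit (B ⊕ Fin m)).1.continuous.comp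
    (continuous_pi fun j => by
      rcases j with j | j
      · exact continuous_const
      · exact continuous_apply j)⟩, by
    rintro v ⟨i, hi⟩
    exact (E.unit (B ⊕ Fin m)).2 _ ⟨Sum.inr i, hi⟩⟩

theorem UQ_apply (w : B → I) (m : ℕ) (v : Fin m → I) :
    (UQ w m : E.L (Fin m) (B ⊕ Fin m)) v = E.unit (B ⊕ Fin m) (Sum.elim w v) := rfl

theorem up_UQ (w : B → I) (m : ℕ) : up B m (UQ w m) = (UQ w (m + 1) : E.L _ _) := by
  apply GenLoop.ext
  intro s
  rw [up_apply, UQ_apply, UQ_apply, E.unit_mul, E.map_unit]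
  congr 1
  funext j
  rcases j with j | j
  · rfl
  · refine Fin.addCases (fun j => ?_) (fun j => ?_) j
    · simp [upE]
    · simp [upE]

/-- The image of the unit map in `QE(B)`. -/
def UB (w : B → I) : E.Q B := Qmk 0 0 (UQ w 0)

theorem continuous_UQ (m : ℕ) : Continuous fun w : B → I => (UQ w m : E.L _ _) := by
  refine Continuous.subtype_mk ?_ _
  refine ContinuousMap.continuous_of_continuous_uncurry _ ?_
  show Continuous fun q : (B → I) × (Fin m → I) => E.unit (B ⊕ Fin m) (Sum.elim q.1 q.2)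
  refine (E.unit (B ⊕ Fin m)).1.continuous.comp (continuous_pi fun j => ?_)
  rcases j with j | j
  · exact (continuous_apply j).comp continuous_fst
  · exact (continuous_apply j).comp continuous_snd

theorem continuous_Qmk (m : ℕ) :
    Continuous fun p : I × E.L (Fin m) (B ⊕ Fin m) => (Qmk m p.1 p.2 : E.Q B) := by
  have h := (Tel.isQuotientMap (Y := fun m => E.L (Fin m) (B ⊕ Fin m))
    (φ := fun m => up (E := E) B m) (y₀ := fun _ => GenLoop.const)).continuous
  exact h.comp (@continuous_sigmaMk ℕ (fun m => I × E.L (Fin m) (B ⊕ Fin m)) _ m)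

theorem continuous_UB : Continuous fun w : B → I => (UB w : E.Q B) :=
  (continuous_Qmk 0).comp (Continuous.prodMk continuous_const (continuous_UQ 0))

theorem UB_bdry {w : B → I} (hw : w ∈ Cube.boundary B) : (UB w : E.Q B) = E.Qpt B := by
  have : (UQ w 0 : E.L (Fin 0) (B ⊕ Fin 0)) = GenLoop.const := by
    apply GenLoop.ext
    intro s
    obtain ⟨i, hi⟩ := hw
    exact (E.unit (B ⊕ Fin 0)).2 _ ⟨Sum.inl i, hi⟩
  unfold UB
  rw [this]
  exact Qmk_base 0 0

theorem Qmap_UB (e : B ≃ B') (w : B → I) : Qmap e (UB w : E.Q B) = UB (w ∘ e.symm) := by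
  show Qmk 0 0 (Qmap' e 0 (UQ w 0)) = Qmk 0 0 (UQ (w ∘ e.symm) 0)
  congr 1
  apply GenLoop.ext
  intro s
  show E.map _ (E.unit _ _) = E.unit _ _
  rw [E.map_unit]
  congr 1
  funext j
  rcases j with j | j <;> rfl

theorem Qact_UB (w : B → I) (t : D → I) :
    Qact D (UB w : E.Q B) t = UB (Sum.elim w t) := by
  show Qmk 0 0 (Qact' D 0 (UQ w 0) t) = Qmk 0 0 (UQ (Sum.elim w t) 0)
  congr 1
  apply GenLoop.ext
  intro s
  show E.map (rc B (Fin 0) D) (E.mul (E.unit _ _) (E.unit _ _)) = E.unit _ _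
  rw [E.unit_mul, E.map_unit]
  congr 1
  funext j
  rcases j with (j | j) | j <;> rfl

variable (E) in
/-- The unit class of the Tate spectrum: `s ↦ (e ↦ unit (s, s))`. -/
def UT (A : Type) [Fintype A] [DecidableEq A] : GenLoop A (E.T A) (E.Tpt A) :=
  ⟨⟨fun s => ⟨ContinuousMap.const _ (UB fun p : A × Bool => s p.1), fun _ => by
      show UB (fun p : A × Bool => s p.1) = Qmap (sw A) (UB fun p : A × Bool => s p.1)
      rw [Qmap_UB]
      rfl⟩, by
    refine Continuous.subtype_mk ?_ _
    exact ContinuousMap.continuous_const'.comp (continuous_UB.comp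
      (continuous_pi fun p => continuous_apply p.1))⟩, by
    rintro s ⟨i, hi⟩
    apply Subtype.ext
    ext e
    exact UB_bdry ⟨(i, false), hi⟩⟩

theorem UT_apply (s : A → I) (e : EC₂) :
    (UT E A s).1 e = UB fun p : A × Bool => s p.1 := rfl

end unit

/-- The index set of the class which is used: `(Unit ⊕ Fin n) ⊕ Fin (n + 1)`, with `2 n + 2`
elements. -/
abbrev AA (n : ℕ) : Type := (Unit ⊕ Fin n) ⊕ Fin (n + 1)

/-- The direction in which the classes are concatenated. -/
def i₀ (n : ℕ) : AA n := Sum.inl (Sum.inl ())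

end Pool.Agent.Tate.Ext
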