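import Pool.Agent.Lib.Tate.X.Spec

/-!
# C42, block X: the loops `LLf` are continuous (`S_LL`)
-/

set_option autoImplicit false

open Topology unitInterval Filter Set
open scoped Topology.Homotopy ZeroAtInfty OnePoint

noncomputable section

namespace Pool.Agent.Tate.Ext

section

variable {A : Type} [Fintype A] [DecidableEq A] {M : ℕ}

/-- the point of the configuration -/
private def LL_pt (s : QQ A M → I) : JJ A M → VV := emb A M fun q => rho (s q)

open Classical in
/-- the value of the test function -/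
private def LL_FF (f : C₀(JJ A M → VV, ℝ)) (s : QQ A M → I) : ℝ :=
  if s ∈ Cube.boundary (QQ A M) then 0 else f (LL_pt s)

private theorem LL_ev {p : Mt (JJ A M) (ZMod 4)} (hp : Lbl A M p) (f : C₀(JJ A M → VV, ℝ))
    (s : QQ A M → I) : (LLf hp s).1.1.ev f = (LL_FF f s : ℂ) • p := by
  by_cases hs : s ∈ Cube.boundary (QQ A M)
  · have e : LLf hp s = FZpt A M := if_pos hs
    have e2 : LL_FF f s = 0 := if_pos hs
    rw [e, e2]
    unfold Conf.ev FZpt Wpt
    simp
  · have e : LLf hp s = sgl hp fun q => rho (s q) := if_neg hs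
    have e1 : (sgl hp fun q => rho (s q)).1.1 = Conf.single (LL_pt s) p hp.herm hp.idem := rfl
    have e2 : LL_FF f s = f (LL_pt s) := if_neg hs
    rw [e, e1, e2]
    unfold Conf.ev
    rw [finsum_eq_single _ (LL_pt s), Conf.single_self]
    intro y hy
    rw [Conf.single_ne _ _ _ hy, smul_zero]

omit [DecidableEq A] in
private theorem LL_bd : IsClosed (Cube.boundary (QQ A M)) := by
  have : Cube.boundary (QQ A M) = ⋃ i : QQ A M, ({y : QQ A M → I | y i = 0} ∪
      {y : QQ A M → I | y i = 1}) := by
    ext y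
    simp [Cube.boundary]
  rw [this]
  refine isClosed_iUnion_of_finite fun i => ?_
  exact (isClosed_eq (continuous_apply i) continuous_const).union
    (isClosed_eq (continuous_apply i) continuous_const)

omit [Fintype A] [DecidableEq A] in
private theorem LL_prj (q : QQ A M) : ∃ j : JJ A M, prj A M j = q := by
  rcases q with a | x
  · exact ⟨Sum.inl (a, true), rfl⟩
  · exact ⟨Sum.inr x, rfl⟩

omit [DecidableEq A] in
private theorem LL_cont (h : Wi.S_Rh) (f : C₀(JJ A M → VV, ℝ)) : Continuous (LL_FF f) := by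
  classical
  rw [continuous_iff_continuousAt]
  intro s₀
  by_cases hs : s₀ ∈ Cube.boundary (QQ A M)
  · obtain ⟨a, ha⟩ := hs
    have h0 : LL_FF f s₀ = 0 := if_pos ⟨a, ha⟩
    rw [ContinuousAt, h0, Metric.tendsto_nhds]
    intro ε hε
    have hz := f.zero_at_infty'
    rw [← Metric.cobounded_eq_cocompact, Metric.tendsto_nhds] at hz
    obtain ⟨R, -, hR⟩ := Filter.hasBasis_cobounded_norm.eventually_iff.1 (hz ε hε)
    have h1 := h.2 (s₀ a) ha R
    have h2 := (continuous_apply a).continuousAt.eventually h1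
    filter_upwards [h2] with s hs2
    unfold LL_FF
    by_cases hsb : s ∈ Cube.boundary (QQ A M)
    · rw [if_pos hsb, dist_self]
      exact hε
    · rw [if_neg hsb]
      refine hR ?_
      have hne0 : s a ≠ 0 := fun h' => hsb ⟨a, Or.inl h'⟩
      have hne1 : s a ≠ 1 := fun h' => hsb ⟨a, Or.inr h'⟩
      have h3 := hs2 hne0 hne1
      obtain ⟨j, hj⟩ := LL_prj a
      show R ≤ ‖LL_pt s‖
      refine h3.trans ?_
      refine le_trans ?_ (norm_le_pi_norm (LL_pt s) j)
      have h4 : ‖(LL_pt s j).1‖ ≤ ‖LL_pt s j‖ := norm_fst_le _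
      have h5 : (LL_pt s j).1 = rho (s a) := by
        show rho (s (prj A M j)) = _
        rw [hj]
      rw [h5, Real.norm_eq_abs] at h4
      exact h4
  · have hev : ∀ᶠ s in 𝓝 s₀, s ∉ Cube.boundary (QQ A M) := LL_bd.isOpen_compl.mem_nhds hs
    have h1 : LL_FF f =ᶠ[𝓝 s₀] fun s => f (LL_pt s) := by
      filter_upwards [hev] with s hs2
      exact if_neg hs2
    refine ContinuousAt.congr ?_ h1.symm
    have h2 : ContinuousAt (LL_pt : (QQ A M → I) → JJ A M → VV) s₀ := by
      rw [continuousAt_pi]
      intro j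
      refine ContinuousAt.prodMk ?_ continuousAt_const
      have hne0 : s₀ (prj A M j) ≠ 0 := fun h' => hs ⟨_, Or.inl h'⟩
      have hne1 : s₀ (prj A M j) ≠ 1 := fun h' => hs ⟨_, Or.inr h'⟩
      have ho : IsOpen {t : I | t ≠ 0 ∧ t ≠ 1} := isOpen_ne.inter isOpen_ne
      exact ContinuousAt.comp (f := fun s : QQ A M → I => s (prj A M j))
        (h.1.continuousAt (ho.mem_nhds ⟨hne0, hne1⟩)) (continuous_apply _).continuousAt
    exact f.continuous.continuousAt.comp h2

end

theorem pLL (h1 : Wi.S_Rh) : S_LL := by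
  intro A _ _ M p hp
  refine continuous_induced_rng.2 (continuous_induced_rng.2 ?_)
  rw [Conf.continuous_iff]
  intro f
  have h2 : (fun s : QQ A M → I => ((LLf hp s).1.1).ev f) = fun s => (LL_FF f s : ℂ) • p := by
    funext s
    exact LL_ev hp f s
  show Continuous (fun s : QQ A M → I => ((LLf hp s).1.1).ev f)
  rw [h2]
  exact (Complex.continuous_ofReal.comp (LL_cont h1 f)).smul continuous_const

end Pool.Agent.Tate.Ext
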