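import Pool.Agent.Lib.Tate.X.Defs
import Pool.Agent.Lib.Tate.X.Lab
import Pool.Agent.Lib.Tate.Wit
import Pool.Agent.Lib.Tate.R.Ec.Spec

/-!
# C42 (MP_071d69_gt), block X (helper39): extraction

From `TateK0Acyclic` of the witness to an equivariant null homotopy (main result `S_T4`): for all `d`
and all large `M` the map `S(d μ)_+ ∧ S^(A ⊕ M) → Conf`, `(a, u) ↦ {emb u; ℂ^k}` is
equivariantly null homotopic.

Statement `S_X` is proved by `theorem pX : S_X` in `Pool/Agent/Lib/Tate/X/X.lean` (namespace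
`Pool.Agent.Tate.Ext`, `import Pool.Agent.Lib.Tate.X.Spec`); statements which are used are
hypotheses of the theorem (`theorem pX (h1 : S_Y) : S_X`).  Complete proofs in the docstrings.
-/

set_option linter.unusedSectionVars false

open Topology unitInterval Filter Set
open scoped Topology.Homotopy ZeroAtInfty OnePoint

noncomputable section

namespace Pool.Agent.Tate.Ext

/-! ### Reduced telescopes -/

/-- **T1.** Points of the telescope are closed.

Proof. Let `x` be a point, `c = nf h.base x`.  `{x}` is closed iff its preimage under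
`Quot.mk : (Σ m, I × Y m) → Tel` is closed (`Tel.isQuotientMap.isClosed_preimage`), iff for all `m`
the set `{(t, y) | Tel.mk m t y = x} = {(t, y) | nf' φ y₀ ⟨m, (t, y)⟩ = c}` (`nf_inj`) is closed in
`I × Y m` (`isClosed_sigma_iff`).  For `c = none`: the set is
`{y = y₀ m} ∪ {t = 1 ∧ φ m y = y₀ (m + 1)}`, closed (points of `Y m`, `Y (m + 1)` and `I` are closed,
`φ m` is continuous).  For `c = some ⟨m', (t', y')⟩` which is a value of `nf'` (otherwise the set is
empty): `y' ≠ y₀ m'` and `t' ≠ 1` (`nf'` by cases).  If `(t, y)` is in the set, then either `t ≠ 1` and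
`⟨m, (t, y)⟩ = ⟨m', (t', y')⟩`, or `t = 1`, `m' = m + 1`, `t' = 0`, `φ m y = y'`.  So the set is
contained in `{(t', y')}` (if `m = m'`) or equal to `{1} × φ m ⁻¹ {y'}` (if `m' = m + 1`, `t' = 0`; here
`y ≠ y₀ m` is automatic as `φ m (y₀ m) = y₀ (m + 1) ≠ y'`) or empty; closed in all cases. -/
def S_T1 : Prop := ∀ (Y : ℕ → Type) [∀ m, TopologicalSpace (Y m)] (φ : ∀ m, Y m → Y (m + 1))
  (y₀ : ∀ m, Y m), TH Y φ y₀ → T1Space (Tel Y φ y₀)

/-- **Tc.** The inclusion of the stage `M` is a closed embedding.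

Proof. Continuous: `Quot.mk` composed with `y ↦ ⟨M, (0, y)⟩`.  Injective: `nf_inj`, `nf_mk`, and
`nf' ⟨M, (0, y)⟩ = if y = y₀ M then none else some ⟨M, (0, y)⟩` (as `(0 : I) ≠ 1`).  Closed map: let
`C ⊆ Y M` be closed; its image `C'` is closed iff for all `m` the set
`{(t, y) | ∃ z ∈ C, Tel.mk m t y = Tel.mk M 0 z}` is closed (`Tel.isQuotientMap`,
`isClosed_sigma_iff`).  By `nf_inj` this set is the union of
(1) if `y₀ M ∈ C`: `{y = y₀ m} ∪ {t = 1 ∧ φ m y = y₀ (m + 1)}` (the points with `nf = none`),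
(2) if `m = M`: a set between `{0} × (C ∖ {y₀ M})` and `{0} × C`,
(3) if `m + 1 = M`: `{1} × φ m ⁻¹ (C ∖ {y₀ M})` up to points with `y = y₀ m`.
In (2): if `y₀ M ∈ C` then the points `(0, y₀ M)` are in (1), so one may take `{0} × C`; if `y₀ M ∉ C` then
`C ∖ {y₀ M} = C`.  In (3): the same with `{1} × φ m ⁻¹ C`.  All of these are closed.
(`Topology.IsClosedEmbedding.of_continuous_injective_isClosedMap`.) -/
def S_Tc : Prop := ∀ (Y : ℕ → Type) [∀ m, TopologicalSpace (Y m)] (φ : ∀ m, Y m → Y (m + 1))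
  (y₀ : ∀ m, Y m), TH Y φ y₀ → ∀ M, IsClosedEmbedding fun y : Y M => (Tel.mk M 0 y : Tel Y φ y₀)

/-- **Tk.** Compact subsets are contained in a finite stage.  (Uses `S_T1`.)

Proof. Suppose not: for every `M` there is a `k_M ∈ K` such that `x_M = f (k_M)` is not of the form
`Tel.mk m t y` with `m < M`.  Let `U_j = {x_i | i ≥ j}ᶜ`.  These sets increase with `j`, and
`⋃ U_j = univ`: a point `Tel.mk m t y` is in `U_(m+1)` (`x_i` with `i ≥ m + 1` is not equal to it).
`U_j` is open: the preimage of `{x_i | i ≥ j}` in `I × Y m` is the union over the finitely many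
`i` with `j ≤ i ≤ m` of the preimages of the points `x_i` (for `i > m` the point `x_i` is not in the
`m`-th cylinder), and these are closed by `S_T1` (`isClosed_sigma_iff`, `Tel.isQuotientMap`,
`Set.Finite.isClosed_biUnion`).  `Set.range f` is compact, so `Set.range f ⊆ U_j` for some `j`
(`IsCompact.elim_directed_cover`, the family is monotone); but `x_j ∈ Set.range f ∖ U_j`. -/
def S_Tk : Prop := ∀ (Y : ℕ → Type) [∀ m, TopologicalSpace (Y m)] (φ : ∀ m, Y m → Y (m + 1))
  (y₀ : ∀ m, Y m), TH Y φ y₀ → ∀ (K : Type) [TopologicalSpace K] [CompactSpace K]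
  (f : K → Tel Y φ y₀), Continuous f → ∃ M, ∀ k, ∃ m < M, ∃ (t : I) (y : Y m), f k = Tel.mk m t y

/-- **TR.** The map `TR` is continuous.

Proof. `Tel.isQuotientMap.continuous_iff`, `continuous_sigma`: on `I × Y m` with `M ≤ m` it is
`Quot.mk` composed with `Sigma.mk m`.  On `I × Y m` with `m < M` it is `(t, y) ↦ st0 (sgm^[M-m] ⟨m, y⟩)`;
`sgm φ` is continuous (`continuous_sigma`, `continuous_sigmaMk.comp (h.cont m)`), so its iterates are
(`Continuous.iterate`), and `st0 φ y₀` is continuous (`continuous_sigma`: `y ↦ Tel.mk m 0 y`). -/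
def S_TR : Prop := ∀ (Y : ℕ → Type) [∀ m, TopologicalSpace (Y m)] (φ : ∀ m, Y m → Y (m + 1))
  (y₀ : ∀ m, Y m) (h : TH Y φ y₀) (M : ℕ), Continuous (TR h.base M)

/-- **Ts.** Compression of a compact family to a stage.  (Uses `S_Tc`, `S_Tk`, `S_TR`.)

Proof. `M₀` from `S_Tk`; `M ≥ M₀`.  For `k ∈ K` we have `f k = Tel.mk m t y` with `m < M`, so
`TR _ M (f k) = st0 ((sgm φ)^[M - m] ⟨m, y⟩)` (`TR_mk_lt`), and the first component of
`(sgm φ)^[n] ⟨m, y⟩` is `m + n` (induction), here `M`; so it is `Tel.mk M 0 y'` for some `y' : Y M` (`obtain`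
the pair, `subst`).  Let `g k` be such a `y'` (`Classical.choose`).  `g` is continuous since
`y ↦ Tel.mk M 0 y` is an embedding (`S_Tc`, `IsEmbedding.continuous_iff`) and `TR _ M ∘ f` is
continuous (`S_TR`). -/
def S_Ts : Prop := ∀ (Y : ℕ → Type) [∀ m, TopologicalSpace (Y m)] (φ : ∀ m, Y m → Y (m + 1))
  (y₀ : ∀ m, Y m) (h : TH Y φ y₀) (K : Type) [TopologicalSpace K] [CompactSpace K]
  (f : K → Tel Y φ y₀), Continuous f → ∃ M₀, ∀ M ≥ M₀, ∃ g : K → Y M, Continuous g ∧
    ∀ k, TR h.base M (f k) = Tel.mk M 0 (g k)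

/-- **TQ.** Facts on `QE(B)` for a spectrum `E` with Hausdorff spaces.

Proof. (1) `up B m` is continuous: `GenLoop.congr` is a homeomorphism, `push` is a postcomposition, and
`st (Fin 1) g = prod g (E.unit (Fin 1))` depends continuously on `g` (`Continuous.subtype_mk`,
`ContinuousMap.continuous_of_continuous_uncurry`, as in `continuous_Qact'`); or all at once with
`up_apply`.  `up_const`.  `GenLoop` is a subset of `C(_, E.X _)` which is Hausdorff.
(2) For `M = 0`: `TR_mk_ge`.  For `0 < M`: `TR_mk_lt` and `(sgm)^[n] ⟨0, UQ w 0⟩ = ⟨n, UQ w n⟩` by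
induction (`Function.iterate_succ_apply'`, `up_UQ`).
(3) `Qind`; for `M ≤ m` both sides are `Qmk m r (Qmap' e m g)` (`TR_mk_ge`); for `m < M`: `TR_mk_lt` and
`(sgm)^[n] ⟨m, Qmap' e m g⟩ = ⟨m', Qmap' e m' g'⟩` where `⟨m', g'⟩ = (sgm)^[n] ⟨m, g⟩` (induction,
`up_Qmap'`).
(4) `TR_base`.  (5) `Qmk_base`. -/
def S_TQ : Prop := ∀ (E : CSRS) (B : Type) [Fintype B] [DecidableEq B],
  (∀ (A : Type) [Fintype A] [DecidableEq A], T2Space (E.X A)) →
  TH (fun m => E.L (Fin m) (B ⊕ Fin m)) (fun m => CSRS.up B m) (fun _ => GenLoop.const) ∧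
  (∀ (w : B → I) (M : ℕ), TRQ E B M (UB w) = CSRS.Qmk M 0 (UQ w M)) ∧
  (∀ (B' : Type) [Fintype B'] [DecidableEq B'] (e : B ≃ B') (M : ℕ) (x : E.Q B),
    TRQ E B' M (CSRS.Qmap e x) = CSRS.Qmap e (TRQ E B M x)) ∧
  (∀ M, TRQ E B M (E.Qpt B) = E.Qpt B) ∧
  ∀ M, E.Qpt B = CSRS.Qmk M 0 GenLoop.const

/-! ### The Tate spectrum -/

/-- **Th.** Stabilisation preserves homotopies.

Proof. Let `H` be a homotopy relative to the boundary from `f` to `g` (`ContinuousMap.HomotopyRel`).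
`H'(t, s) = Tact (H (t, s ∘ Sum.inl)) (s ∘ Sum.inr)` is continuous (`continuous_Tact`), and it is a
homotopy from `Tst C f` to `Tst C g`.  On the boundary: if `s (Sum.inl i) ∈ {0, 1}` then
`H (t, s ∘ inl) = f (s ∘ inl)`, so the value is `Tst C f s`; if `s (Sum.inr i) ∈ {0, 1}` then
`Tact x (s ∘ inr)` is the base point for all `x` (`Qact_bdry`, `Qmap_pt`, see the definition of
`Tst`), so again `H'(t, s) = Tst C f s`. -/
def S_Th : Prop := ∀ (E : CSRS) (N A C : Type) [Fintype A] [DecidableEq A] [Fintype C]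
  [DecidableEq C] (f g : GenLoop N (E.T A) (E.Tpt A)), GenLoop.Homotopic f g →
  GenLoop.Homotopic (CSRS.Tst C f) (CSRS.Tst C g)

/-- **Tu.** Stabilisation of the multiples of the unit class.

Proof. `GenLoop.ext`; every `s : A ⊕ C → I` is `Sum.elim (s ∘ inl) (s ∘ inr)`; `pw_apply` on both sides
and `sel_inl`.  If `sel i k (s ∘ inl) = none`: both sides are the base point (`Tact_pt`).  If it is
`some s'`: `Tact (UT E A s') t = UT E (A ⊕ C) (Sum.elim s' t)`, which follows pointwise from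
`Tact_apply`, `UT_apply`, `Qact_UB`, `Qmap_UB` (the functions
`Sum.elim (fun p => s' p.1) (fun p => t p.1) ∘ (ds A C).symm` and `fun p => Sum.elim s' t p.1` on
`(A ⊕ C) × Bool` agree). -/
def S_Tu : Prop := ∀ (E : CSRS) (A C : Type) [Fintype A] [DecidableEq A] [Fintype C]
  [DecidableEq C] (i : A) (k : ℕ),
  CSRS.Tst C (pw i (UT E A) k) = pw (Sum.inl i) (UT E (A ⊕ C)) k

/-- **Tn.** A multiple of the unit class is trivial after a stabilisation.  (Uses `S_Th`, `S_Tu`.)

Proof. Apply the hypothesis to `N = A = Unit` and `x = gcl (UT E Unit)`: there are `k ≥ 1`, `n` and `g`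
with `gcl g = x ^ k` and `Tst (Fin n) g ~ const`.  By `gcl_pw` and `gcl_eq` `g ~ pw () (UT E Unit) k`, so by
`S_Th` and `S_Tu` `pw (inl ()) (UT E (Unit ⊕ Fin n)) k ~ const`.  Stabilise once more with
`Fin (n + 1)` (`S_Th`, `S_Tu`; `Tst C const = const` by `Tact_pt`). -/
def S_Tn : Prop := ∀ E : CSRS, E.TateK0Acyclic →
  ∃ k n : ℕ, 1 ≤ k ∧ GenLoop.Homotopic (pw (i₀ n) (UT E (AA n)) k) GenLoop.const

/-- **Te.** Restriction of a null homotopy to `S(d μ) ⊂ EC₂`, adjunction.

Proof. The map `ι : Sph d → EC₂`, `ι a = ∑ a_i e_i` (`lp.single` or `⟨fun j => if h : j < d then a ⟨j, h⟩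
else 0, _⟩`; the norm of a finitely supported sequence in `ℓ²` is the Euclidean norm,
`lp.norm_rpow_eq_tsum` or `lp.norm_sq_eq...`; one may also build a linear isometry
`EuclideanSpace ℝ (Fin d) → ℓ²` as a finite sum of `lp.single`), is continuous and `ι (-a) = -ι a`.
Let `H` be the homotopy relative to the boundary from `pw i (UT E A) k` to `const`; put
`F(t, s, a) = (H (t, s)).1 (ι a)`.  Continuous: `(t, s) ↦ (H (t, s)).1.comp ι` is a continuous map to
`C(Sph d, E.Q _)` (`ContinuousMap.continuous_precomp`), and evaluation is continuous, as `Sph d` is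
locally compact (compact).  For `t = 0`: `pw_apply`; if `sel i k s = none` the value is
`(Tpt A).1 _ = Qpt`, otherwise `UT_apply`.  For `s` in the boundary `H (t, s) = pw i (UT E A) k s` is the
base point.  Equivariance: property `h (-e) = Qmap (sw A) (h e)` of the elements of `E.T A`. -/
def S_Te : Prop := ∀ (E : CSRS) (A : Type) [Fintype A] [DecidableEq A] (i : A) (k : ℕ),
  GenLoop.Homotopic (pw i (UT E A) k) GenLoop.const → ∀ d : ℕ,
  ∃ F : I × (A → I) × Cel.Sph d → E.Q (A × Bool), Continuous F ∧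
    (∀ s a, F (0, s, a) = (sel i k s).elim (E.Qpt _) fun s' => UB fun p : A × Bool => s' p.1) ∧
    (∀ s a, F (1, s, a) = E.Qpt _) ∧
    (∀ t, ∀ s ∈ Cube.boundary A, ∀ a, F (t, s, a) = E.Qpt _) ∧
    ∀ t s a, F (t, s, -a) = CSRS.Qmap (CSRS.sw A) (F (t, s, a))

/-- **Tm.** The null homotopy at a finite stage.  (Uses `S_Ts`, `S_Tc`, `S_TQ`, `S_Te`.)

Proof. `F` from `S_Te`; `S_Ts` for the compact space `K = I × (A → I) × Sph d` gives `M₀` and for
`M ≥ M₀` a continuous `g : K → E.L (Fin M) (A × Bool ⊕ Fin M)` with `TRQ (F x) = Qmk M 0 (g x)`; `Qmk M 0` is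
injective (`S_Tc`, or: it is a closed embedding).  Put
`H (t, a, s) = g (t, s ∘ inl, a) (s ∘ inr)`: continuous (`continuous_eval`; `GenLoop` has
`ContinuousEval`).
`t = 0`: `Qmk M 0 (g (0, s, a)) = TRQ (F (0, s, a))` is `Qmk M 0 const` if `sel i k s = none` and
`TRQ (UB (s' ∘ fst)) = Qmk M 0 (UQ (s' ∘ fst) M)` if `sel i k s = some s'` (`S_TQ`); by injectivity
`g (0, s, a) = const` or `UQ (s' ∘ fst) M`; evaluate at `v = s ∘ inr` with `UQ_apply` and `sel_inl`
(for `s = Sum.elim (s ∘ inl) (s ∘ inr)`): `Sum.elim s' v ∘ prj = Sum.elim (s' ∘ fst) v`.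
`t = 1` and `s ∘ inl` in the boundary: `g = const` in the same way; if `s ∘ inr` is in the boundary then
every generalised loop has the value `E.pt` (`Cube.boundary_sum_iff`).
Equivariance: `Qmk M 0 (g (t, s, -a)) = TRQ (Qmap (sw A) (F (t, s, a))) = Qmap (sw A) (Qmk M 0 (g (t, s, a)))
= Qmk M 0 (Qmap' (sw A) M (g (t, s, a)))`, injectivity, and `Qmap' e M g v = E.map (sumCongr e refl) (g v)`. -/
def S_Tm : Prop := ∀ (E : CSRS), (∀ (A : Type) [Fintype A] [DecidableEq A], T2Space (E.X A)) →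
  ∀ (A : Type) [Fintype A] [DecidableEq A] (i : A) (k : ℕ),
  GenLoop.Homotopic (pw i (UT E A) k) GenLoop.const → ∀ d : ℕ, ∃ M₀ : ℕ, ∀ M ≥ M₀,
  ∃ H : I × Cel.Sph d × (QQ A M → I) → E.X (JJ A M), Continuous H ∧
    (∀ a s, H (0, a, s) = (sel (Sum.inl i : QQ A M) k s).elim (E.pt _)
      fun s' => E.unit (JJ A M) (s' ∘ prj A M)) ∧
    (∀ a s, H (1, a, s) = E.pt _) ∧
    (∀ t a, ∀ s ∈ Cube.boundary (QQ A M), H (t, a, s) = E.pt _) ∧
    ∀ t a s, H (t, -a, s) = E.map (tau A M) (H (t, a, s))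

/-! ### Labels -/

/-- **Bp.** Two loops with orthogonal labels: the concatenation is homotopic to the sum.
(Orthogonality is needed only for arguments which differ at most in the coordinate `i`.)

Proof. For `t ∈ I`, `s : N → I` let `b₀(t, s) = Function.update s i (b)` with
`b = (1 - t) * projIcc (2 s_i) + t * s_i ∈ I`, and `b₁(t, s)` the same with `projIcc (2 s_i - 1)`.
`H (t, s) = add (F (b₀ (t, s))) (G (b₁ (t, s)))`, continuous by `Conf.continuous_add`.
`t = 1`: `b₀ = b₁ = s`.  `t = 0`, `s_i ≤ 1/2`: `projIcc (2 s_i - 1) = 0`, so `b₁` is in the boundary,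
`G (b₁) = default` and `H = F (update s i (projIcc (2 s_i)))` (`Conf.add_default`); `s_i > 1/2`:
`projIcc (2 s_i) = 1`, `F (b₀) = default` (`Conf.default_add`).  `s` in the boundary: if `s_j ∈ {0, 1}` with
`j ≠ i` then `b₀`, `b₁` have the same coordinate `j`; if `s_i = 0` or `1` then
`projIcc (2 s_i) = projIcc (2 s_i - 1) = s_i`, so `b₀ = b₁ = s`; in all cases both values are `default`. -/
def S_Bp : Prop := ∀ (N Y J : Type) [DecidableEq N] [TopologicalSpace Y] [Fintype J] (i : N)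
  (F G : C(N → I, Conf Y J)), (∀ s ∈ Cube.boundary N, F s = default) →
  (∀ s ∈ Cube.boundary N, G s = default) →
  ∀ hFG : (∀ s s', (∀ j, j ≠ i → s j = s' j) → ∀ y y', (F s).P y * (G s').P y' = 0),
  ∃ H : C(I × (N → I), Conf Y J),
    (∀ s, H (0, s) = if (s i : ℝ) ≤ 1 / 2
      then F (Function.update s i (Set.projIcc 0 1 zero_le_one (2 * (s i : ℝ))))
      else G (Function.update s i (Set.projIcc 0 1 zero_le_one (2 * (s i : ℝ) - 1)))) ∧
    (∀ s, H (1, s) = Conf.add (F s) (G s) (hFG s s fun _ _ => rfl)) ∧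
    (∀ t, ∀ s ∈ Cube.boundary N, H (t, s) = default) ∧
    ∀ t s, ∃ s₁ s₂, (∀ j, j ≠ i → s₁ j = s j) ∧ (∀ j, j ≠ i → s₂ j = s j) ∧
      ∃ h, H (t, s) = Conf.add (F s₁) (G s₂) h

/-- **Rt.** Conjugation with unitary matrices is jointly continuous.

Proof. `Conf.continuous_iff`, `Conf.ev_cj`: `(U, c) ↦ U * c.ev f * Uᴴ` is continuous
(`Continuous.matrix_mul`, `Continuous.matrix_conjTranspose`; `c ↦ c.ev f` is continuous by
`Conf.continuous_iff` for the identity). -/
def S_Rt : Prop := ∀ (Y J : Type) [TopologicalSpace Y] [Fintype J] [DecidableEq J],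
  Continuous fun p : {U : Matrix J J ℂ // U.conjTranspose * U = 1} × Conf Y J =>
    Conf.cj p.1.1 p.1.2 p.2

/-- **LL.** The loops `LLf` are continuous.  (Uses `Wi.S_Rh`.)

Proof. The same as `Wi.S_Un` (see `Pool/Agent/Lib/Tate/W/Un.lean` if it exists).  `FZ` and `WX` have the
subspace topology, `Conf.continuous_iff`: let `f ∈ C₀(JJ A M → VV, ℝ)`.  Then
`(LLf hp s).1.1.ev f = F(s) • p`, where `F(s) = f (emb A M (rho ∘ s))` for `s` outside the boundary and
`F(s) = 0` on the boundary.  `F` is continuous: outside the boundary (an open set) by `Wi.S_Rh`; at a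
boundary point `s₀` with `s₀ q ∈ {0, 1}`: for `ε > 0` there is `R` with `|f y| < ε` for `‖y‖ ≥ R`
(`f.zero_at_infty'`, the space `JJ A M → VV` is proper), and for `s` near `s₀` outside the boundary
`‖emb A M (rho ∘ s)‖ ≥ |rho (s q)| ≥ R`, because `q = prj A M j` for some `j` (`prj` is surjective) and
`norm_le_pi_norm`. -/
def S_LL : Prop := ∀ (A : Type) [Fintype A] [DecidableEq A] (M : ℕ) (p : Mt (JJ A M) (ZMod 4))
  (hp : Lbl A M p), Continuous (LLf hp)

/-- **Ba.** The basis labels.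

Proof. (1) `aj` has the value `1` at `inr 0`, `3` at `inr (j + 1)` (`j + 1 < M`) and `0` elsewhere, so
`chi (aj) = I ^ 1 * I ^ 3 = 1`.  (2) `tau` fixes the indices `inr x` and permutes the indices `inl`, where
`aj = 0`.  (3) value at `inr (j + 1)`.  (4) value at `inr 0`. -/
def S_Ba : Prop := ∀ (A : Type) [Fintype A] [DecidableEq A] (M : ℕ),
  (∀ j, j + 1 < M → chi (aj A M j) = 1) ∧ (∀ j, aj A M j ∘ tau A M = aj A M j) ∧
  (∀ j j', j + 1 < M → j' + 1 < M → aj A M j = aj A M j' → j = j') ∧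
  ∀ j, 0 < M → aj A M j ≠ fun _ => 0

/-- **Pj.** The labels `Pk k` and the basis labels.  (Uses `S_Ba`.)

Proof. A diagonal matrix `diagonal v` with `v a ∈ {0, 1}` is a hermitian projection; it is invariant
under `chi` if `v a ≠ 0` implies `chi a = 1` (off the diagonal both sides vanish, on the diagonal
`norm_chi` is not even needed: `chi a = 1`), and under `tau` if `v (a ∘ tau) = v a`
(`mre (tau) (diagonal v) a b = diagonal v (a ∘ tau) (b ∘ tau)`, and `a ∘ tau = b ∘ tau ↔ a = b`).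
(1), (2): `a = aj j ↔ a ∘ tau = aj j` by `S_Ba` (2) and `tau_tau`.  (3) no `j < 0`.  (4) `j < k + 1 ↔ j < k ∨
j = k`, and for `j < k` `aj j ≠ aj k` (`S_Ba` (3)).  (5) `diagonal * single`; `aj k` is not one of the
`aj j`, `j < k`.  (6) `Matrix.single a a 1 = mone` for `a = 0`. -/
def S_Pj : Prop := ∀ (A : Type) [Fintype A] [DecidableEq A] (M : ℕ),
  (∀ k, k < M → Lbl A M (Pk A M k)) ∧
  (∀ k, k + 1 < M → Lbl A M (Matrix.single (aj A M k) (aj A M k) 1)) ∧
  Pk A M 0 = 0 ∧
  (∀ k, k + 1 < M → Pk A M (k + 1) = Pk A M k + Matrix.single (aj A M k) (aj A M k) 1) ∧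
  (∀ k, k + 1 < M → Pk A M k * Matrix.single (aj A M k) (aj A M k) 1 = 0 ∧
    Matrix.single (aj A M k) (aj A M k) 1 * Pk A M k = 0) ∧
  Lbl A M (mone (JJ A M) (0 : ZMod 4))

/-- **Rv.** Rotation of the label `mone` to a basis label.  (Uses `S_Rt`, `S_Ba`.)

Proof. Write `e a b = Matrix.single a b 1`, `o = fun _ => 0`, `a = aj A M k ≠ o` (`S_Ba` (4)), and for
`t ∈ I`, `θ = π t / 2`,
`U_t = 1 + (cos θ - 1) • (e o o + e a a) + sin θ • (e a o - e o a)`.
`U_tᴴ U_t = 1` (multiply out with `Matrix.single_mul_single_same`, `..._of_ne`;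
`(cos θ - 1)^2 + 2 (cos θ - 1) + sin² θ = 0`).  `U_t` commutes with all diagonal matrices whose entries at
`o` and `a` agree, in particular `U_t x y = chi x * conj (chi y) * U_t x y` (`chi o = chi a = 1`), and
`mre (tau) U_t = U_t` (as `o ∘ tau = o`, `a ∘ tau = a`).  So `c ↦ cj U_t c` maps `FZ A M` to itself:
`(U P Uᴴ)(rot y)` has the entries `∑ U x x' * P(rot y) x' y' * conj (U y y')` and each `chi x' = chi x`
when `U x x' ≠ 0`; and `mre (tau)` is multiplicative (`mre_mul`, `mre_conjTranspose`).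
`H (t, s) = cj U_t (L s)`: continuous by `S_Rt`, `t = 0`: `U_0 = 1`; `t = 1`: `U_1 = 1 - e o o - e a a + e a o
- e o a`, `U_1 (e o o) U_1ᴴ = e a a`, so `cj U_1` of the one point configuration with label `mone = e o o` is
the one with the label `e a a`.  On the boundary: `cj U_t default = default`. -/
def S_Rv : Prop := ∀ (A : Type) [Fintype A] [DecidableEq A] (M k : ℕ), k + 1 < M →
  ∀ (h1 : Lbl A M (mone (JJ A M) (0 : ZMod 4)))
    (h2 : Lbl A M (Matrix.single (aj A M k) (aj A M k) 1))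
    (L1 L2 : GenLoop (QQ A M) (FZ A M) (FZpt A M)), (∀ s, L1 s = LLf h1 s) →
    (∀ s, L2 s = LLf h2 s) → GenLoop.Homotopic L1 L2

/-- **Bs.** The class of the sum of two orthogonal labels.  (Uses `S_Bp`.)

Proof. `S_Bp` for `F = L2`, `G = L1` (as maps to `Conf`), `Y = JJ A M → VV`: the labels of all values
are `0` or `q`, respectively `0` or `p`, so the products vanish (`q * p = 0` from `p * q = 0` by
`conjTranspose`).
`H` takes values in `FZ A M`, because `H (t, s) = add (L2 s₁) (L1 s₂)` and sums of invariant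
configurations are invariant (`Conf.add_P`; `mre` is additive).  `H (0, s) = transAt i L2 L1 s`
(`transAt_apply`), `H (1, s) = add (L2 s) (L1 s)`, which is `LLf h3 s`: on the boundary both are empty, and
outside both have the label `q + p = p + q` at the point `emb (rho ∘ s)` and `0` at the other points.
So `GenLoop.Homotopic (transAt i L2 L1) L3`, and `gcl_transAt`, `gcl_eq`. -/
def S_Bs : Prop := ∀ (A : Type) [Fintype A] [DecidableEq A] [Nonempty A] (M : ℕ)
  (p q : Mt (JJ A M) (ZMod 4)) (h1 : Lbl A M p) (h2 : Lbl A M q) (h3 : Lbl A M (p + q)),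
  p * q = 0 → ∀ (L1 L2 L3 : GenLoop (QQ A M) (FZ A M) (FZpt A M)), (∀ s, L1 s = LLf h1 s) →
    (∀ s, L2 s = LLf h2 s) → (∀ s, L3 s = LLf h3 s) → gcl L3 = gcl L1 * gcl L2

/-- **Lk.** The class of the label `Pk k` is the `k`-th power of the class of the unit.
(Uses `S_LL`, `S_Pj`, `S_Rv`, `S_Bs`.)

Proof. Induction on `k` (for all `Lk`).  `k = 0`: `Pk 0 = 0`, all values of `Lk` are the base point
(`LLf` with label `0` is the empty configuration), so `Lk = const` and `gcl const = 1`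
(`HomotopyGroup.one_def`).  `k + 1`: by `S_LL` and `S_Pj` there are loops `L` and `L'` with the labels
`Pk k` and `e = single (aj k) (aj k) 1` (the values on the boundary are the base point by definition of
`LLf`); `gcl L = gcl L1 ^ k` by induction, `gcl L' = gcl L1` (`S_Rv`, `gcl_eq`), and by
`S_Bs` and `S_Pj` (4), (5) `gcl Lk = gcl L * gcl L'` (rewrite the label: `LLf` depends only on the
matrix; use `subst` or `congr` for `Pk (k + 1) = Pk k + e`). -/
def S_Lk : Prop := ∀ (A : Type) [Fintype A] [DecidableEq A] [Nonempty A] (M k : ℕ), k < M →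
  ∀ (h1 : Lbl A M (mone (JJ A M) (0 : ZMod 4))) (hk : Lbl A M (Pk A M k))
    (L1 Lk : GenLoop (QQ A M) (FZ A M) (FZpt A M)), (∀ s, L1 s = LLf h1 s) →
    (∀ s, Lk s = LLf hk s) → gcl Lk = gcl L1 ^ k

/-- **Cu.** The null homotopy of the map with labels `ℂ^k`, on cubes.
(Uses `S_Tn`, `S_Tm`, `S_LL`, `S_Pj`, `S_Lk`.)

Proof. `E = W' hRe hMu hUn hT2` has Hausdorff spaces (`E.X A = WX A`, a subtype of `CW A`, `hT2`).
`S_Tn` gives `k`, `n`; let `A = AA n`, `i = i₀ n`.  For `d` take `M₀` from `S_Tm` and let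
`M ≥ max M₀ (k + 1)`.  `S_Tm` gives `H`.  By `S_Lk`, `gcl_pw`, `gcl_eq` there is a homotopy `H₂` in `FZ A M`
relative to the boundary from `Lk` to `pw (inl i) L1 k` (`L1`, `Lk` the loops `LLf` with labels `mone`,
`Pk k`).  Moreover `(pw (inl i) L1 k) s = (sel (inl i) k s).elim _ (LLf h1)` (`pw_apply`), and
`(LLf h1 s').1 = Wunit' (s' ∘ prj) = E.unit (JJ A M) (s' ∘ prj)`: `s'` is in the boundary iff `s' ∘ prj` is
(`prj` is surjective), and otherwise both are the configuration with the label `mone` at the point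
`fun j => (rho (s' (prj j)), 0)`.  So `(H₂ (1, s)).1 = H (0, a, s)`.  Define
`H' (t, a, s) = (H₂ (2 t, s)).1` for `t ≤ 1/2` and `H (2 t - 1, a, s)` for `t ≥ 1/2` (`Continuous.if_le`, or
`ContinuousMap.Homotopy.trans` for maps on `Sph d × (QQ A M → I)`); with `projIcc` for the times.
Equivariance: for `t ≤ 1/2` the value does not depend on `a` and is invariant under `Wmap tau`
(definition of `FZ`), and `E.map = Wmap`. -/
def S_Cu : Prop := ∀ (hRe : Wi.S_Re) (hMu : Wi.S_Mu) (hUn : Wi.S_Un) (hT2 : Wi.S_T2),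
  (W' hRe hMu hUn hT2).TateK0Acyclic → ∃ k n : ℕ, 1 ≤ k ∧ ∀ d : ℕ, ∃ M₀ : ℕ, ∀ M ≥ M₀, k < M ∧
    ∃ hk : Lbl (AA n) M (Pk (AA n) M k),
    ∃ H : I × Cel.Sph d × (QQ (AA n) M → I) → WX (JJ (AA n) M), Continuous H ∧
      (∀ a s, H (0, a, s) = (LLf hk s).1) ∧ (∀ a s, H (1, a, s) = Wpt _) ∧
      (∀ t a, ∀ s ∈ Cube.boundary (QQ (AA n) M), H (t, a, s) = Wpt _) ∧
      ∀ t a s, H (t, -a, s) = Wmap (tau (AA n) M) (H (t, a, s))

/-! ### From cubes to vector spaces -/

/-- **Va.** Maps on cubes which are trivial on the boundary vanish at infinity.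
(Uses `Cel.S_Ha`, `Ec.S_Ri`, `Wi.S_Rh`.)

Proof. `Cel.S_Ha` for `Z = (K × (Q → ℝ)) × ℝ` (Hausdorff).  Continuity: composition with the continuous
maps `projIcc` and `Ec.ri`.  Limit at infinity: let `N` be an open neighbourhood of `y0`.  The set
`D = {(t, a, s) | H (t, a, s) ∉ N}` is compact (closed in a compact space) and contains no point with
`s` in the boundary.  The map `m : (t, a, s) ↦ ((a, rho ∘ s), (t : ℝ))` is continuous on `D` (`Wi.S_Rh`), so
`m '' D` is compact; if `z ∈ univ ×ˢ Icc 0 1` and `H (projIcc z.2, z.1.1, Ec.ri ∘ z.1.2) ∉ N` then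
`z = m (projIcc z.2, z.1.1, Ec.ri ∘ z.1.2) ∈ m '' D` (`rho (Ec.ri x) = x`).  So the function is in `N` on
`univ ×ˢ Icc 0 1` outside the compact set `m '' D`. -/
def S_Va : Prop := ∀ (K Q Y : Type) [TopologicalSpace K] [CompactSpace K] [T2Space K] [Fintype Q]
  [TopologicalSpace Y] (y0 : Y) (H : I × K × (Q → I) → Y), Continuous H →
  (∀ t a, ∀ s ∈ Cube.boundary Q, H (t, a, s) = y0) →
  Cel.VanOn y0 ((univ : Set (K × (Q → ℝ))) ×ˢ Icc (0 : ℝ) 1)
    fun z => H (Set.projIcc 0 1 zero_le_one z.2, z.1.1, Ec.ri ∘ z.1.2)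

/-- **Iv.** Invariant configurations are fixed by the fourth roots of unity.

Proof. `ζ ^ 4 = 1` means `ζ = i^l` with `l < 4` (`(ζ^2 - 1)(ζ^2 + 1) = 0`).  By `rotz_mul`, `rotz_one` it
suffices to treat `ζ = i`: `rotz_P`: `rh.symm y = y'` with `rot y' = y` and `chiz i a = chi a`, so by `c.2` at
`y'`: `(rotz i c).P y a b = chi a * conj (chi b) * c.P y' a b = c.P (rot y') a b = c.P y a b`. -/
def S_Iv : Prop := ∀ (A : Type) [Fintype A] [DecidableEq A] (c : WX A) (ζ : Circle), ζ ^ 4 = 1 →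
  rotz ζ c.1 = c.1

/-- **T4.** The extraction.  (Uses `S_Cu`, `Ec.S_Ri`, `S_Va`, `S_Iv`.)

Proof. `H` from `S_Cu`; `H' ((a, u), t) = (H (projIcc t, a, Ec.ri ∘ u)).1`; `VanOn` by `S_Va` (with
`Y = CW _`, `y0 = default`; `(Wpt _).1 = default`).  `t = 0`: `Ec.ri ∘ u` is not in the boundary, so
`(LLf hk (Ec.ri ∘ u)).1.1` is the one point configuration at `emb (rho ∘ Ec.ri ∘ u) = emb u`.
`t = 1`: `Wpt`.  Equivariance: `g (a, u) = (χ g a, u)`; for `χ g = 1`: `re refl = id` and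
`rotz (ψ g)` fixes the value by `S_Iv`; for `χ g = -1`: `H (t, -a, s) = Wmap tau (H (t, a, s))`, whose underlying
configuration is `re tau (H (t, a, s)).1` (`tz (-1) = tau`), and `rotz (ψ g)` fixes it (it is the
configuration of the element `Wmap tau (H (t, a, s))` of `WX`). -/
def S_T4 : Prop := ∀ (hRe : Wi.S_Re) (hMu : Wi.S_Mu) (hUn : Wi.S_Un) (hT2 : Wi.S_T2),
  (W' hRe hMu hUn hT2).TateK0Acyclic → ∃ k n : ℕ, 1 ≤ k ∧ ∀ d : ℕ, ∃ M₀ : ℕ, ∀ M ≥ M₀,
    k < M ∧ ∀ (G : Type) [Group G] (χ : G →* ℤˣ) (ψ : G →* Circle), (∀ g, ψ g ^ 4 = 1) →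
      Cel.NullOn ((Cel.actS χ d).prod (Cel.Act.triv G (QQ (AA n) M → ℝ))) (actW χ ψ (AA n) M)
        default univ fun p : Cel.Sph d × (QQ (AA n) M → ℝ) =>
          Conf.single (emb (AA n) M p.2) (Pk (AA n) M k) (Pk_herm M k) (Pk_idem M k)

end Pool.Agent.Tate.Ext
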