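import Pool.Agent.Lib.Tate.X.Spec

set_option linter.unusedSectionVars false

open Topology unitInterval Filter Set
open scoped Topology.Homotopy

noncomputable section

namespace Pool.Agent.Tate.Ext

private theorem T1_iff_none {Y : ℕ → Type} {φ : ∀ m, Y m → Y (m + 1)} {y₀ : ∀ m, Y m}
    {m : ℕ} (p : I × Y m) :
    nf' φ y₀ ⟨m, p⟩ = none ↔ p.2 = y₀ m ∨ (p.1 = 1 ∧ φ m p.2 = y₀ (m + 1)) := by
  unfold nf'
  dsimp only
  by_cases h1 : p.2 = y₀ m
  · simp [h1]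
  · by_cases h2 : p.1 = 1
    · by_cases h3 : φ m p.2 = y₀ (m + 1)
      · simp [h1, h2, h3]
      · simp [h1, h2, h3]
    · simp [h1, h2]

private theorem T1_iff_some {Y : ℕ → Type} {φ : ∀ m, Y m → Y (m + 1)} {y₀ : ∀ m, Y m}
    {m : ℕ} (p : I × Y m) (a : Σ m, I × Y m) :
    nf' φ y₀ ⟨m, p⟩ = some a ↔
      (p.2 ≠ y₀ m ∧ p.1 = 1 ∧ φ m p.2 ≠ y₀ (m + 1) ∧
        (⟨m + 1, (0, φ m p.2)⟩ : Σ m, I × Y m) = a) ∨
      (p.2 ≠ y₀ m ∧ p.1 ≠ 1 ∧ (⟨m, p⟩ : Σ m, I × Y m) = a) := by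
  unfold nf'
  dsimp only
  by_cases h1 : p.2 = y₀ m
  · simp [h1]
  · by_cases h2 : p.1 = 1
    · by_cases h3 : φ m p.2 = y₀ (m + 1)
      · simp [h1, h2, h3]
      · simp [h1, h2, h3]
    · simp [h1, h2]

theorem pT1 : S_T1 := by
  intro Y _ φ y₀ h
  have ht1 : ∀ m, T1Space (Y m) := h.t1
  refine ⟨fun x => ?_⟩
  have hq : IsQuotientMap (Quot.mk (TelRel Y φ y₀) : (Σ m, I × Y m) → Tel Y φ y₀) :=
    Tel.isQuotientMap
  refine hq.isClosed_preimage.1 (isClosed_sigma_iff.2 fun m => ?_)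
  have key : Sigma.mk m ⁻¹' (Quot.mk (TelRel Y φ y₀) ⁻¹' {x}) =
      {p : I × Y m | nf' φ y₀ ⟨m, p⟩ = nf h.base x} := by
    ext p
    show (Tel.mk m p.1 p.2 : Tel Y φ y₀) = x ↔ _
    rw [nf_inj h.base]
    rfl
  refine key ▸ ?_
  rcases nf h.base x with _ | ⟨m', t', y'⟩
  · have e : {p : I × Y m | nf' φ y₀ ⟨m, p⟩ = none} =
        (Prod.snd ⁻¹' {y₀ m}) ∪ (Prod.fst ⁻¹' {1} ∩ (fun p : I × Y m => φ m p.2) ⁻¹'
          {y₀ (m + 1)}) := by
      ext p
      exact T1_iff_none p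
    rw [e]
    exact (isClosed_singleton.preimage continuous_snd).union
      ((isClosed_singleton.preimage continuous_fst).inter
        (isClosed_singleton.preimage ((h.cont m).comp continuous_snd)))
  · have e : {p : I × Y m | nf' φ y₀ ⟨m, p⟩ = some ⟨m', (t', y')⟩} =
        {p : I × Y m | p.2 ≠ y₀ m ∧ p.1 = 1 ∧ φ m p.2 ≠ y₀ (m + 1) ∧
          (⟨m + 1, (0, φ m p.2)⟩ : Σ m, I × Y m) = ⟨m', (t', y')⟩} ∪
        {p : I × Y m | p.2 ≠ y₀ m ∧ p.1 ≠ 1 ∧
          (⟨m, p⟩ : Σ m, I × Y m) = ⟨m', (t', y')⟩} := by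
      ext p
      exact T1_iff_some p _
    rw [e]
    refine IsClosed.union ?_ ?_
    · by_cases hm : m' = m + 1
      · subst hm
        by_cases hc : t' = 0 ∧ y' ≠ y₀ (m + 1)
        · obtain ⟨rfl, hy⟩ := hc
          have e2 : {p : I × Y m | p.2 ≠ y₀ m ∧ p.1 = 1 ∧ φ m p.2 ≠ y₀ (m + 1) ∧
              (⟨m + 1, (0, φ m p.2)⟩ : Σ m, I × Y m) = ⟨m + 1, (0, y')⟩} =
              Prod.fst ⁻¹' {1} ∩ (fun p : I × Y m => φ m p.2) ⁻¹' {y'} := by
            ext p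
            constructor
            · rintro ⟨_, h2, _, h4⟩
              refine ⟨h2, ?_⟩
              have h5 := eq_of_heq (Sigma.mk.inj h4).2
              exact (Prod.mk.inj h5).2
            · rintro ⟨h2, h3⟩
              have h3' : φ m p.2 = y' := h3
              refine ⟨fun h4 => hy ?_, h2, ?_, ?_⟩
              · rw [← h3', h4, h.base]
              · rw [h3']
                exact hy
              · rw [h3']
          rw [e2]
          exact (isClosed_singleton.preimage continuous_fst).inter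
            (isClosed_singleton.preimage ((h.cont m).comp continuous_snd))
        · have e2 : {p : I × Y m | p.2 ≠ y₀ m ∧ p.1 = 1 ∧ φ m p.2 ≠ y₀ (m + 1) ∧
              (⟨m + 1, (0, φ m p.2)⟩ : Σ m, I × Y m) = ⟨m + 1, (t', y')⟩} = ∅ := by
            refine eq_empty_of_forall_notMem ?_
            rintro p ⟨_, _, h3, h4⟩
            have h5 := Prod.mk.inj (eq_of_heq (Sigma.mk.inj h4).2)
            exact hc ⟨h5.1.symm, h5.2 ▸ h3⟩
          rw [e2]
          exact isClosed_empty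
      · have e2 : {p : I × Y m | p.2 ≠ y₀ m ∧ p.1 = 1 ∧ φ m p.2 ≠ y₀ (m + 1) ∧
            (⟨m + 1, (0, φ m p.2)⟩ : Σ m, I × Y m) = ⟨m', (t', y')⟩} = ∅ := by
          refine eq_empty_of_forall_notMem ?_
          rintro p ⟨_, _, _, h4⟩
          exact hm (Sigma.mk.inj h4).1.symm
        rw [e2]
        exact isClosed_empty
    · refine Set.Subsingleton.isClosed ?_
      rintro p ⟨_, _, h3⟩ q ⟨_, _, h3'⟩
      have h5 := h3.trans h3'.symm
      exact eq_of_heq (Sigma.mk.inj h5).2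

end Pool.Agent.Tate.Ext
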